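import Pool.Agent.Lib_helper56.KSS.T3

/-! The torus lemma. -/

namespace Pool.Agent.Lib_helper56.KSS

open MvPolynomial Pool.Agent.KSS

set_option linter.unusedSectionVars false

section

variable {V : Type} [Fintype V] {a b : ℕ} (e : Fin (a + 1) ⊕ Fin b ≃ V)

/-- the embedding of the `x`-variables in `V` -/
def emb : Fin b → V := fun i => e (Sum.inr i)

theorem emb_inj : Function.Injective (emb e) := by
  intro i j h
  exact Sum.inr_injective (e.injective h)

/-- the exponent of the product of the `y` -/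
noncomputable def yexp : V →₀ ℕ := Finsupp.equivFunOnFinite.symm fun v => match e.symm v with
  | Sum.inl _ => 1
  | Sum.inr _ => 0

theorem yexp_inl (l : Fin (a + 1)) : yexp e (e (Sum.inl l)) = 1 := by
  simp only [yexp, Finsupp.equivFunOnFinite_symm_apply_apply, Equiv.symm_apply_apply]

theorem yexp_inr (i : Fin b) : yexp e (e (Sum.inr i)) = 0 := by
  simp only [yexp, Finsupp.equivFunOnFinite_symm_apply_apply, Equiv.symm_apply_apply]

theorem yexp_degree : (yexp e).degree = a + 1 := by
  rw [Finsupp.degree_eq_sum, ← e.sum_comp, Fintype.sum_sum_type]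
  simp only [yexp_inl, yexp_inr, Finset.sum_const, Finset.card_univ, Fintype.card_fin, smul_eq_mul,
    mul_one, mul_zero, add_zero]

theorem yexp_ne (β : Fin b →₀ ℕ) : Finsupp.mapDomain (emb e) β ≠ yexp e := by
  intro h
  have h1 := congrArg (fun u => u (e (Sum.inl 0))) h
  simp only [yexp_inl] at h1
  rw [Finsupp.mapDomain_of_notMem_range] at h1
  · exact zero_ne_one h1
  · rintro ⟨i, hi⟩
    have := e.injective hi
    simp at this

theorem degree_mapDomain' {B W : Type} (f : B → W) (β : B →₀ ℕ) :
    (Finsupp.mapDomain f β).degree = β.degree := by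
  rw [Finsupp.degree_eq_weight_one, Finsupp.degree_eq_weight_one, Finsupp.weight_apply,
    Finsupp.weight_apply,
    Finsupp.sum_mapDomain_index (by intro; rw [zero_smul]) (by intro _ m n; rw [add_smul])]

open Classical in
/-- the prescribed special values of the coefficients -/
noncomputable def qsp {p : ℕ} (d : Fin p → ℕ) (j : Fin p) (c : CI V d) :
    MvPolynomial (CI (Fin b) d) ℤ :=
  if h : ∃ β : Fin b →₀ ℕ, Finsupp.mapDomain (emb e) β = c.2.1 then
    X ⟨c.1, h.choose, by rw [← degree_mapDomain' (emb e), h.choose_spec]; exact c.2.2⟩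
  else if c.1 = j ∧ c.2.1 = yexp e then 1 else 0

theorem qsp_emb {p : ℕ} (d : Fin p → ℕ) (j : Fin p) (i : Fin p) (β : Fin b →₀ ℕ)
    (h1 : (Finsupp.mapDomain (emb e) β).degree = d i) (h2 : β.degree = d i) :
    qsp e d j ⟨i, Finsupp.mapDomain (emb e) β, h1⟩ = X ⟨i, β, h2⟩ := by
  unfold qsp
  have h : ∃ β' : Fin b →₀ ℕ, Finsupp.mapDomain (emb e) β' =
      (⟨i, Finsupp.mapDomain (emb e) β, h1⟩ : CI V d).2.1 := ⟨β, rfl⟩
  rw [dif_pos h]
  congr 1
  have h3 : h.choose = β := Finsupp.mapDomain_injective (emb_inj e) h.choose_spec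
  have h4 : (⟨h.choose, by rw [← degree_mapDomain' (emb e), h.choose_spec]; exact h1⟩ :
      {α : Fin b →₀ ℕ // α.degree = d i}) = ⟨β, h2⟩ := Subtype.ext h3
  rw [h4]

/-- the sign-free special fibre -/
theorem special_form {p : ℕ} (d : Fin p → ℕ) (j : Fin p) (ha : d j = a + 1) {k1 : Type} [Field k1]
    (g : CI (Fin b) d → k1) (F : Fin p → MvPolynomial V k1) (hF : ∀ i, (F i).IsHomogeneous (d i))
    (hc : ∀ (i : Fin p) (α : V →₀ ℕ) (h : α.degree = d i), coeff α (F i) = aeval g (qsp e d j ⟨i, α, h⟩))
    (i : Fin p) : F i = rename (emb e) (formOf (d i) (fun β => g ⟨i, β⟩)) +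
      if i = j then monomial (yexp e) 1 else 0 := by
  classical
  apply hom_ext_coeff (hF i)
  · apply IsHomogeneous.add
    · exact (formOf_homog _ _).rename_isHomogeneous
    · split_ifs with h
      · subst h
        rw [ha, ← yexp_degree e]
        exact isHomogeneous_monomial _ rfl
      · exact isHomogeneous_zero _ _ _
  · intro α hα
    rw [hc i α hα, coeff_add]
    by_cases h : ∃ β : Fin b →₀ ℕ, Finsupp.mapDomain (emb e) β = α
    · obtain ⟨β, rfl⟩ := h
      have hβ : β.degree = d i := by rw [← degree_mapDomain' (emb e), hα]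
      rw [qsp_emb e d j i β hα hβ, aeval_X, coeff_rename_mapDomain _ (emb_inj e),
        coeff_formOf _ _ β hβ]
      have : coeff (Finsupp.mapDomain (emb e) β) (if i = j then monomial (yexp e) (1 : k1) else 0) = 0 := by
        split_ifs
        · rw [coeff_monomial, if_neg (yexp_ne e β).symm]
        · rw [coeff_zero]
      rw [this, add_zero]
    · have h1 : coeff α (rename (emb e) (formOf (d i) (fun β => g ⟨i, β⟩))) = 0 := by
        apply coeff_rename_eq_zero
        intro u hu
        exact absurd ⟨u, hu⟩ h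
      rw [h1, zero_add]
      unfold qsp
      rw [dif_neg h]
      by_cases hj : i = j
      · rw [if_pos hj, coeff_monomial]
        by_cases hy : yexp e = α
        · rw [if_pos ⟨hj, hy.symm⟩, if_pos hy, map_one]
        · rw [if_neg (fun h => hy h.2.symm), if_neg hy, map_zero]
      · rw [if_neg (fun h => hj h.1), if_neg hj, map_zero, coeff_zero]

theorem incl_eq : incl e = some ∘ emb e := rfl

/-- forms in the `x`-variables are homogeneous for the one-parameter group -/
theorem incl_ω_homog {k1 : Type} [Field k1] (B : ℕ) {n : ℕ} {G : MvPolynomial (Fin b) k1}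
    (hG : G.IsHomogeneous n) :
    IsWeightedHomogeneous (ωO e B) (rename (incl e) G) (n * CC a B) := by
  classical
  intro d hd
  have h1 : d ∈ (rename (incl e) G).support := mem_support_iff.2 hd
  rw [support_rename_of_injective (incl_inj e), Finset.mem_image] at h1
  obtain ⟨u, hu, rfl⟩ := h1
  have h2 : Finsupp.weight (fun _ => 1 : Fin b → ℕ) u = n := hG (mem_support_iff.1 hu)
  rw [← h2, Finsupp.weight_apply, Finsupp.weight_apply,
    Finsupp.sum_mapDomain_index (by intro; rw [zero_smul]) (by intro _ m n; rw [add_smul]),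
    Finsupp.sum, Finsupp.sum, Finset.sum_mul]
  apply Finset.sum_congr rfl
  intro i _
  rw [ωO_x, smul_eq_mul, smul_eq_mul, mul_one]

theorem incl_w_homog {k1 : Type} [Field k1] {n : ℕ} {G : MvPolynomial (Fin b) k1}
    (hG : G.IsHomogeneous n) :
    IsWeightedHomogeneous (wO V a) (rename (incl e) G) n := by
  rw [incl_eq, ← rename_rename]
  exact rename_some_homog (IsHomogeneous.rename_isHomogeneous hG)

/-- the product of the `y` is homogeneous for the one-parameter group -/
theorem yexp_ω (B : ℕ) : Finsupp.weight (ωO e B) (Finsupp.mapDomain some (yexp e)) = (a + 1) * CC a B := by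
  have h0 : ∀ v : V, Finsupp.mapDomain some (yexp e) (some v) = yexp e v := fun v =>
    Finsupp.mapDomain_apply (Option.some_injective V) _ _
  have hn : Finsupp.mapDomain some (yexp e) (none : Option V) = 0 := by
    apply Finsupp.mapDomain_of_notMem_range
    rintro ⟨v, hv⟩
    simp at hv
  rw [weight_split e, Fintype.sum_option]
  have h1 : yz e none = none := rfl
  rw [h1, hn, zero_mul, zero_add]
  have h2 : ∀ i : Fin b, Finsupp.mapDomain some (yexp e) (incl e i) = 0 := by
    intro i
    unfold incl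
    rw [h0, yexp_inr]
  have h3 : ∑ i : Fin b, Finsupp.mapDomain some (yexp e) (incl e i) * ωO e B (incl e i) = 0 := by
    apply Finset.sum_eq_zero
    intro i _
    rw [h2, zero_mul]
  rw [h3, add_zero]
  have h4 : ∀ l : Fin (a + 1), Finsupp.mapDomain some (yexp e) (yz e (some l)) * ωO e B (yz e (some l)) =
      B ^ (l : ℕ) + if l = Fin.last a then 0 else CC a B := by
    intro l
    rw [ωO_y]
    have : Finsupp.mapDomain some (yexp e) (yz e (some l)) = 1 := by
      unfold yz
      rw [Option.map_some, h0, yexp_inl]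
    rw [this, one_mul]
  rw [Finset.sum_congr rfl fun l _ => h4 l, Finset.sum_add_distrib, Fin.sum_univ_castSucc
    (fun l => if l = Fin.last a then 0 else CC a B), if_pos rfl]
  have h5 : ∀ l : Fin a, (if l.castSucc = Fin.last a then 0 else CC a B) = CC a B := fun l =>
    if_neg (Fin.castSucc_lt_last l).ne
  rw [Finset.sum_congr rfl fun l _ => h5 l, Finset.sum_const, Finset.card_univ, Fintype.card_fin,
    smul_eq_mul]
  unfold CC
  ring

theorem ev_yexp {k1 κ : Type} [Field k1] [Field κ] [Algebra k1 κ] {L : ℕ} (x : Option V → Fin L → κ) :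
    ev x (rename some (monomial (yexp e) 1) : MvPolynomial (Option V) k1) =
      ∏ l : Fin (a + 1), arc (x (yz e (some l))) := by
  rw [ev_rename]
  unfold ev
  rw [aeval_monomial, map_one, one_mul, Finsupp.prod_fintype _ _ (by intro i; rw [pow_zero]),
    ← e.prod_comp, Fintype.prod_sum_type]
  simp only [yexp_inl, yexp_inr, pow_one, pow_zero, Finset.prod_const_one, mul_one]
  rfl

end

/-- core of the torus lemma, with the limits visible -/
theorem torus_core {p : ℕ} (d : Fin p → ℕ) (j : Fin p) {a b : ℕ} (ha : d j = a + 1) {V : Type}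
    [Fintype V] (e : Fin (a + 1) ⊕ Fin b ≃ V) (M0 : ℕ)
    (k : Type) [Field k] [CharZero k] (G : Fin p → MvPolynomial V k) (hG : Gen d G)
    (κ : Type) [Field κ] [Algebra k κ] (L : ℕ) (x : V → Fin L → κ) :
    ∃ (k' : Type) (_ : Field k') (_ : CharZero k')
      (G' : Fin p → MvPolynomial (Fin b) k') (κ' : Type) (_ : Field κ')
      (_ : Algebra k' κ') (x' : Fin b → Fin L → κ') (ee : Fin (a + 1) → ℕ) (η : ℕ),
      Gen d G' ∧ (∀ l, ee l ≤ L) ∧ η ≤ L ∧
      (∀ i, i ≠ j → ordL L (ev x (G i)) ≤ ordL L (ev x' (G' i))) ∧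
      ordL L (ev x (G j)) ≤ η ∧
      ordL L (ev x' (G' j)) = min L (∑ l, ee l) ∧
      tauJ k x + η + (∑ l, ee l - L) ≤ tauJ k' x' + (a + 1) * L ∧
      ∀ m ≤ M0, ∀ l, 1 ≤ l → l ≤ L →
        Module.finrank k (Fil k x m l) ≤
          ∑ α ∈ Exps (a + 1) m, Module.finrank k'
            (Fil k' x' (m - ∑ i, α i) (l - (∑ i, (α i - mina α) * ee i + mina α * η))) := by
  classical
  -- the valuation ring
  obtain ⟨O, GO, g, hch, hg, hGO1, hGO2, hGO3⟩ := gen_special d G hG (qsp e d j)
    (fun c => ⟨c.1, Finsupp.mapDomain (emb e) c.2.1, by rw [degree_mapDomain']; exact c.2.2⟩)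
    (fun c => qsp_emb e d j c.1 c.2.1 _ c.2.2)
  have hspec := special_form (V := V) e d j ha (k1 := IsLocalRing.ResidueField O) g
    (fun i => MvPolynomial.map (IsLocalRing.residue O) (GO i))
    (fun i => homog_map _ (hGO2 i)) hGO3
  obtain ⟨G', hG'def⟩ : ∃ G' : Fin p → MvPolynomial (Fin b) (IsLocalRing.ResidueField O),
    G' = fun i => formOf (V := Fin b) (d i) (fun β => g ⟨i, β⟩) := ⟨_, rfl⟩
  have hG'gen : Gen d G' := by
    rw [hG'def]
    exact gen_of_algInd d g hg
  have hG'hom : ∀ i, (G' i).IsHomogeneous (d i) := hG'gen.1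
  have hspec' : ∀ i, MvPolynomial.map (IsLocalRing.residue O) (GO i) =
      rename (emb e) (G' i) + if i = j then monomial (yexp e) 1 else 0 := by
    intro i
    rw [hG'def]
    exact hspec i
  -- the element `s`
  have hyd : (yexp e).degree = d j := by rw [yexp_degree, ha]
  obtain ⟨s0, hs0⟩ : ∃ s0 : O, s0 = coeff (yexp e) (GO j) - 1 := ⟨_, rfl⟩
  have hs0r : IsLocalRing.residue O s0 = 0 := by
    have h1 := congrArg (coeff (yexp e)) (hspec' j)
    rw [coeff_map, if_pos rfl, coeff_add, coeff_monomial, if_pos rfl] at h1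
    have h2 : coeff (yexp e) (rename (emb e) (G' j)) = 0 := by
      apply coeff_rename_eq_zero
      intro u hu
      exact absurd hu (yexp_ne e u)
    rw [h2, zero_add] at h1
    rw [hs0, map_sub, h1, map_one, sub_self]
  obtain ⟨s, hs⟩ : ∃ s : k, s = algebraMap O k s0 := ⟨_, rfl⟩
  have hsne : s ≠ 0 := by
    intro h
    rw [hs, hs0, map_sub, map_one, ← coeff_map, hGO1, sub_eq_zero] at h
    have h1 := hG.2.transcendental ⟨j, yexp e, hyd⟩
    simp only at h1
    rw [h] at h1
    exact h1 isAlgebraic_one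
  -- the extended jet
  obtain ⟨xt, hxt1, hxt2⟩ : ∃ xt : Option V → Fin L → κ, (∀ i, xt (some i) = x i) ∧
      ∀ μ : Fin L, xt none μ = algebraMap k κ s⁻¹ * PowerSeries.coeff (μ : ℕ) (ev x (G j)) :=
    ⟨fun o => o.elim (fun μ => algebraMap k κ s⁻¹ * PowerSeries.coeff (μ : ℕ) (ev x (G j))) x,
      fun _ => rfl, fun _ => rfl⟩
  have htau0 : tauJ k x ≤ tauJ k xt := by
    unfold tauJ
    rw [tau_eq, tau_eq]
    have h1 : (fun p : V × Fin L => x p.1 p.2) =
        fun p : V × Fin L => (fun q : Option V × Fin L => xt q.1 q.2) (some p.1, p.2) := by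
      funext p
      simp only [hxt1]
    rw [h1]
    exact tau_comp_le (K := k) (fun q : Option V × Fin L => xt q.1 q.2)
      (fun p : V × Fin L => ((some p.1, p.2) : Option V × Fin L))
  -- the two limits
  obtain ⟨F1, i1, i2, x1, h1, h2⟩ := SLJ (K := k) (IsLocalRing.residue O)
    IsLocalRing.residue_surjective (wO V a) (wO_pos V a) xt
  obtain ⟨F2, i3, i4, x2, h3, h4⟩ := TIJ (k := IsLocalRing.ResidueField O) (wO V a)
    (ωO e (2 * M0 + 1)) (wO_pos V a) x1
  -- transfer of forms
  have hsome : (fun b => xt (some b)) = x := by funext i; exact hxt1 i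
  have hA : ∀ (P : MvPolynomial V O) (D : ℕ), P.IsHomogeneous D → ∀ l ≤ L,
      (PowerSeries.X : PowerSeries κ) ^ l ∣ ev x (MvPolynomial.map (algebraMap O k) P) →
      (PowerSeries.X : PowerSeries F1) ^ l ∣ ev x1 (rename some
        (MvPolynomial.map (IsLocalRing.residue O) P)) := by
    intro P D hP l hl hd
    have h5 := h2 (rename some P) D (rename_some_homog hP) l hl (by
      rw [MvPolynomial.map_rename, ev_rename, hsome]
      exact hd)
    rwa [MvPolynomial.map_rename] at h5
  have hωhom : ∀ (P : MvPolynomial (Option V) (IsLocalRing.ResidueField O)) (D χ : ℕ),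
      IsWeightedHomogeneous (wO V a) P D → IsWeightedHomogeneous (ωO e (2 * M0 + 1)) P χ →
      ∀ l ≤ L, (PowerSeries.X : PowerSeries F1) ^ l ∣ ev x1 P →
      (PowerSeries.X : PowerSeries F2) ^ l ∣ ev x2 P := by
    intro P D χ hP1 hP2 l hl hd
    have h5 := h4 P D χ hP1 (fun d hd => (hP2 (mem_support_iff.1 hd)).ge) l hl hd
    rwa [weightedHomogeneousComponent_eq_self hP2] at h5
  -- the relation
  have hrel : (PowerSeries.X : PowerSeries F2) ^ L ∣
      (∏ l : Fin (a + 1), arc (x2 (yz e (some l)))) + ev (fun i => x2 (incl e i)) (G' j) := by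
    have h5 := h2 (C s0 * X none - rename some (GO j)) (a + 1) (by
      apply IsWeightedHomogeneous.sub
      · have := (isWeightedHomogeneous_C (wO V a) s0).mul (isWeightedHomogeneous_X O (wO V a) none)
        rwa [zero_add] at this
      · apply rename_some_homog
        rw [← ha]
        exact hGO2 j) L le_rfl (by
      have h6 : MvPolynomial.map (algebraMap O k) (C s0 * X none - rename some (GO j)) = Phi s (G j) := by
        unfold Phi
        rw [map_sub, map_mul, map_C, map_X, MvPolynomial.map_rename, hGO1, hs]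
      rw [h6]
      exact Phi_dvd s hsne (G j) x xt hxt1 hxt2)
    have h6 : MvPolynomial.map (IsLocalRing.residue O) (C s0 * X none - rename some (GO j)) =
        -(rename (incl e) (G' j) + rename some (monomial (yexp e) 1)) := by
      rw [map_sub, map_mul, map_C, map_X, MvPolynomial.map_rename, hs0r, C_0, zero_mul, zero_sub,
        hspec', if_pos rfl, map_add, rename_rename]
      rfl
    rw [h6] at h5
    have h7 : (PowerSeries.X : PowerSeries F1) ^ L ∣
        ev x1 (rename (incl e) (G' j) + rename some (monomial (yexp e) 1)) := by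
      have : ev x1 (-(rename (incl e) (G' j) + rename some (monomial (yexp e) 1))) =
          -ev x1 (rename (incl e) (G' j) + rename some (monomial (yexp e) 1)) := by
        unfold ev
        rw [map_neg]
      rw [this, dvd_neg] at h5
      exact h5
    have h8 := hωhom (rename (incl e) (G' j) + rename some (monomial (yexp e) 1)) (a + 1)
      ((a + 1) * CC a (2 * M0 + 1)) (by
        apply IsWeightedHomogeneous.add
        · rw [← ha]
          exact incl_w_homog e (hG'hom j)
        · apply rename_some_homog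
          rw [← yexp_degree e]
          exact isHomogeneous_monomial _ rfl) (by
        apply IsWeightedHomogeneous.add
        · rw [← ha]
          exact incl_ω_homog e _ (hG'hom j)
        · rw [rename_monomial]
          apply isWeightedHomogeneous_monomial
          exact yexp_ω e _) L le_rfl h7
    rw [ev_add, ev_rename, ev_yexp, add_comm] at h8
    exact h8
  refine ⟨IsLocalRing.ResidueField O, inferInstance, hch, G', F2, i3, i4, fun i => x2 (incl e i),
    fun l => ordL L (arc (x2 (yz e (some l)))), ordL L (arc (x2 none)), hG'gen, fun l => ordL_le _ _,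
    ordL_le _ _, ?_, ?_, ?_, ?_, ?_⟩
  · intro i hij
    rw [← dvd_iff_le_ordL (ordL_le _ _)]
    have h5 := hA (GO i) (d i) (hGO2 i) (ordL L (ev x (G i))) (ordL_le _ _) (by
      rw [hGO1]
      exact ordL_dvd _ _)
    rw [hspec', if_neg hij, add_zero, rename_rename] at h5
    have h6 := hωhom (rename (incl e) (G' i)) (d i) (d i * CC a (2 * M0 + 1))
      (incl_w_homog e (hG'hom i)) (incl_ω_homog e _ (hG'hom i)) _ (ordL_le _ _) h5
    rw [ev_rename] at h6
    exact h6
  · rw [← dvd_iff_le_ordL (ordL_le _ _)]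
    have h5 := h2 (X none) (a + 1) (isWeightedHomogeneous_X O (wO V a) none)
      (ordL L (ev x (G j))) (ordL_le _ _) (by
        rw [map_X, ev_X, PowerSeries.X_pow_dvd_iff]
        intro μ hμ
        have hμL : μ < L := lt_of_lt_of_le hμ (ordL_le _ _)
        have h6 := coeff_arc (xt none) ⟨μ, hμL⟩
        simp only at h6
        rw [h6, hxt2]
        have h7 := (PowerSeries.X_pow_dvd_iff.1 (ordL_dvd L (ev x (G j)))) μ hμ
        simp only
        rw [h7, mul_zero])
    rw [map_X] at h5
    have h6 := hωhom (X none) (a + 1) (ωO e (2 * M0 + 1) none)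
      (isWeightedHomogeneous_X _ (wO V a) none) (isWeightedHomogeneous_X _ _ none) _ (ordL_le _ _) h5
    rw [ev_X] at h6
    exact h6
  · have h5 := ordL_eq_of_dvd_add hrel
    rw [← h5, ordL_prod]
  · have h5 := tau_torus (k := IsLocalRing.ResidueField O) x2 (fun o => x2 (yz e o))
      (fun i => x2 (incl e i)) (by
        intro o
        rcases cases_var e o with ⟨o', rfl⟩ | ⟨i, rfl⟩
        · exact Or.inl ⟨o', rfl⟩
        · exact Or.inr ⟨i, rfl⟩) (G' j) hrel
    have h6 : yz e none = none := rfl
    rw [h6] at h5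
    have h7 := htau0.trans (h1.trans h3)
    simp only at h5 ⊢
    omega
  · intro m hm l _ hl
    have i5 : Finite (Mset V a m) := Mset_finite m
    have h5 := e1 s hsne (G j) (by rw [← ha]; exact hG.1 j) x xt hxt1 hxt2 m l hl
    have h6 := FM_special (IsLocalRing.residue O) (wO V a) xt x1 h2 (Mset V a m) m (fun d hd => hd) l hl
    have h7 := e3 (k := IsLocalRing.ResidueField O) e x1 m l
    have h8 := e5 (k := IsLocalRing.ResidueField O) e M0 x1 x2 h4 m l hm hl
    simp only
    omega

/-- (T) THE TORUS LEMMA (one block, with `z = G_j`). -/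
theorem torus_lemma {p : ℕ} (d : Fin p → ℕ) (hd : ∀ i, 1 ≤ d i) (v : ℕ) (j : Fin p)
    (hv : d j < v) (M0 : ℕ)
    (k : Type) [Field k] [CharZero k] (G : Fin p → MvPolynomial (Fin v) k) (hG : Gen d G)
    (κ : Type) [Field κ] [Algebra k κ] (L : ℕ) (x : Fin v → Fin L → κ) :
    ∃ (k' : Type) (_ : Field k') (_ : CharZero k')
      (G' : Fin p → MvPolynomial (Fin (v - d j)) k') (κ' : Type) (_ : Field κ')
      (_ : Algebra k' κ') (x' : Fin (v - d j) → Fin L → κ') (e : Fin (d j) → ℕ) (η : ℕ),
      Gen d G' ∧ (∀ l, e l ≤ L) ∧ η ≤ L ∧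
      (∀ i, i ≠ j → ordL L (ev x (G i)) ≤ ordL L (ev x' (G' i))) ∧
      ordL L (ev x (G j)) ≤ η ∧
      ordL L (ev x' (G' j)) = min L (∑ l, e l) ∧
      tauJ k x + η + (∑ l, e l - L) ≤ tauJ k' x' + d j * L ∧
      ∀ m ≤ M0, ∀ l, 1 ≤ l → l ≤ L →
        Module.finrank k (Fil k x m l) ≤
          ∑ a ∈ Exps (d j) m, Module.finrank k'
            (Fil k' x' (m - ∑ i, a i) (l - (∑ i, (a i - mina a) * e i + mina a * η))) := by
  obtain ⟨a, ha⟩ : ∃ a, d j = a + 1 := ⟨d j - 1, by have := hd j; omega⟩
  have h1 := torus_core d j ha (b := v - d j)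
    ((finSumFinEquiv (m := a + 1) (n := v - d j)).trans (finCongr (by omega))) M0 k G hG κ L x
  rw [← ha] at h1
  exact h1

end Pool.Agent.Lib_helper56.KSS
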