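import Pool.Agent.Lib_helper56.KSS.Tor

/-! Generic forms: specialisation along a valuation ring. -/

namespace Pool.Agent.Lib_helper56.KSS

open MvPolynomial Pool.Agent.KSS

/-- index set of the coefficients -/
abbrev CI {p : ℕ} (V : Type) (d : Fin p → ℕ) : Type := Σ i : Fin p, {α : V →₀ ℕ // α.degree = d i}

theorem gf_fin {V : Type} [Finite V] (m : ℕ) : Finite {α : V →₀ ℕ // α.degree = m} :=
  degree_finite m

open Classical in
/-- the form with given coefficients -/
noncomputable def formOf {R V : Type} [CommRing R] [Finite V] (m : ℕ)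
    (c : {α : V →₀ ℕ // α.degree = m} → R) : MvPolynomial V R :=
  ∑ α ∈ (degree_finite (V := V) m).toFinset, if h : α.degree = m then monomial α (c ⟨α, h⟩) else 0

theorem coeff_formOf {R V : Type} [CommRing R] [Finite V] (m : ℕ)
    (c : {α : V →₀ ℕ // α.degree = m} → R) (α : V →₀ ℕ) (h : α.degree = m) :
    coeff α (formOf m c) = c ⟨α, h⟩ := by
  classical
  unfold formOf
  rw [coeff_sum, Finset.sum_eq_single α]
  · rw [dif_pos h, coeff_monomial, if_pos rfl]
  · intro β _ hβ
    split_ifs with h'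
    · rw [coeff_monomial, if_neg hβ]
    · rw [coeff_zero]
  · intro h'
    exact absurd ((degree_finite m).mem_toFinset.2 h) h'

theorem coeff_formOf_ne {R V : Type} [CommRing R] [Finite V] (m : ℕ)
    (c : {α : V →₀ ℕ // α.degree = m} → R) (α : V →₀ ℕ) (h : α.degree ≠ m) :
    coeff α (formOf m c) = 0 := by
  classical
  unfold formOf
  rw [coeff_sum]
  apply Finset.sum_eq_zero
  intro β _
  split_ifs with h'
  · rw [coeff_monomial, if_neg]
    rintro rfl
    exact h h'
  · rw [coeff_zero]

theorem formOf_homog {R V : Type} [CommRing R] [Finite V] (m : ℕ)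
    (c : {α : V →₀ ℕ // α.degree = m} → R) : (formOf m c).IsHomogeneous m := by
  intro α hα
  by_contra h
  apply hα
  apply coeff_formOf_ne
  rw [Finsupp.degree_eq_weight_one]
  exact h

theorem hom_ext_coeff {R V : Type} [CommRing R] {m : ℕ} {F G : MvPolynomial V R}
    (hF : F.IsHomogeneous m) (hG : G.IsHomogeneous m)
    (h : ∀ α : V →₀ ℕ, α.degree = m → coeff α F = coeff α G) : F = G := by
  ext α
  by_cases hα : α.degree = m
  · exact h α hα
  · have h1 : coeff α F = 0 := by
      by_contra h2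
      apply hα
      rw [Finsupp.degree_eq_weight_one]
      exact hF h2
    have h3 : coeff α G = 0 := by
      by_contra h2
      apply hα
      rw [Finsupp.degree_eq_weight_one]
      exact hG h2
    rw [h1, h3]

theorem homog_map {R S V : Type} [CommRing R] [CommRing S] (f : R →+* S) {m : ℕ}
    {F : MvPolynomial V R} (hF : F.IsHomogeneous m) : (MvPolynomial.map f F).IsHomogeneous m := by
  intro α hα
  apply hF
  intro h
  rw [coeff_map, h, map_zero] at hα
  exact hα rfl

theorem gen_special {p : ℕ} {V k : Type} [Finite V] [Field k] [CharZero k] (d : Fin p → ℕ)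
    (G : Fin p → MvPolynomial V k) (hG : Gen d G) {ι' : Type} (q : CI V d → MvPolynomial ι' ℤ)
    (σ : ι' → CI V d) (hσ : ∀ b, q (σ b) = X b) :
    ∃ (O : ValuationSubring k) (GO : Fin p → MvPolynomial V O)
      (g : ι' → IsLocalRing.ResidueField O),
      CharZero (IsLocalRing.ResidueField O) ∧ AlgebraicIndependent ℤ g ∧
      (∀ i, MvPolynomial.map (algebraMap O k) (GO i) = G i) ∧ (∀ i, (GO i).IsHomogeneous (d i)) ∧
      ∀ (i : Fin p) (α : V →₀ ℕ) (h : α.degree = d i),
        coeff α (MvPolynomial.map (IsLocalRing.residue O) (GO i)) = aeval g (q ⟨i, α, h⟩) := by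
  have hind : AlgebraicIndependent ℤ (fun c : CI V d => (G c.1).coeff c.2.1) :=
    hG.2.restrictScalars (Int.cast_injective (α := ℚ))
  obtain ⟨O, c', g, h1, h2, h3⟩ := GEN _ hind q σ hσ
  refine ⟨O, fun i => formOf (d i) (fun α => c' ⟨i, α⟩), g, ?_, h2, ?_, ?_, ?_⟩
  · exact charZero_of_injective_algebraMap h2.algebraMap_injective
  · intro i
    apply hom_ext_coeff (homog_map _ (formOf_homog _ _)) (hG.1 i)
    intro α hα
    rw [coeff_map, coeff_formOf _ _ α hα]
    exact h1 ⟨i, α, hα⟩
  · intro i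
    exact formOf_homog _ _
  · intro i α hα
    rw [coeff_map, coeff_formOf _ _ α hα]
    exact h3 ⟨i, α, hα⟩

theorem gen_of_algInd {p : ℕ} {V k : Type} [Finite V] [Field k] [CharZero k] (d : Fin p → ℕ)
    (c : CI V d → k) (hc : AlgebraicIndependent ℤ c) :
    Gen d (fun i => formOf (d i) (fun α => c ⟨i, α⟩)) := by
  refine ⟨fun i => formOf_homog _ _, ?_⟩
  have h1 : (fun e : CI V d => coeff e.2.1 (formOf (d e.1) (fun α => c ⟨e.1, α⟩))) = c := by
    funext e
    rw [coeff_formOf _ _ _ e.2.2]
  rw [h1]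
  have : Algebra.IsAlgebraic ℤ ℚ := IsLocalization.isAlgebraic ℚ (nonZeroDivisors ℤ)
  exact hc.extendScalars ℚ

end Pool.Agent.Lib_helper56.KSS
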