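import Mathlib

/-! Realising a prescribed specialisation of algebraically independent elements by a valuation ring. -/

namespace Pool.Agent.Lib_helper56.KSS

open MvPolynomial

universe u

theorem GEN {K : Type u} [Field K] {ι ι' : Type*} (c : ι → K) (hc : AlgebraicIndependent ℤ c)
    (q : ι → MvPolynomial ι' ℤ) (σ : ι' → ι) (hσ : ∀ b, q (σ b) = X b) :
    ∃ (O : ValuationSubring K) (c' : ι → O) (g : ι' → IsLocalRing.ResidueField O),
      (∀ i, (c' i : K) = c i) ∧ AlgebraicIndependent ℤ g ∧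
      ∀ i, IsLocalRing.residue O (c' i) = aeval g (q i) := by
  classical
  let θ : MvPolynomial ι ℤ →ₐ[ℤ] MvPolynomial ι' ℤ := aeval q
  let 𝔭 : Ideal (MvPolynomial ι ℤ) := RingHom.ker θ
  have hp : 𝔭.IsPrime := RingHom.ker_isPrime θ
  let ψ : MvPolynomial ι ℤ →ₐ[ℤ] K := aeval c
  have hψ : Function.Injective ψ := hc
  have hu : ∀ y : 𝔭.primeCompl, IsUnit (ψ.toRingHom y) := by
    intro y
    apply IsUnit.mk0
    intro h
    have h1 : (y : MvPolynomial ι ℤ) = 0 := hψ (by rw [map_zero]; exact h)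
    exact y.2 (by rw [h1]; exact 𝔭.zero_mem)
  let f : Localization.AtPrime 𝔭 →+* K := IsLocalization.lift hu
  obtain ⟨A, hA, hloc⟩ := IsLocalRing.exists_factor_valuationRing f
  let fO : Localization.AtPrime 𝔭 →+* A := f.codRestrict A.toSubring hA
  have hfO : IsLocalHom fO := hloc
  let ρ : MvPolynomial ι ℤ →+* IsLocalRing.ResidueField A :=
    (IsLocalRing.residue A).comp (fO.comp (algebraMap _ (Localization.AtPrime 𝔭)))
  have hρ : ∀ P, ρ P = 0 ↔ P ∈ 𝔭 := by
    intro P
    change IsLocalRing.residue A (fO (algebraMap _ _ P)) = 0 ↔ _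
    rw [IsLocalRing.residue_eq_zero_iff, IsLocalRing.mem_maximalIdeal, mem_nonunits_iff,
      isUnit_map_iff fO, ← mem_nonunits_iff, ← IsLocalRing.mem_maximalIdeal,
      IsLocalization.AtPrime.to_map_mem_maximal_iff (Localization.AtPrime 𝔭) 𝔭]
  have hρa : ∀ P, ρ P = aeval (fun i => ρ (X i)) P := by
    intro P
    have h1 : ρ = ((aeval (R := ℤ) (fun i => ρ (X i)) : MvPolynomial ι ℤ →ₐ[ℤ]
        IsLocalRing.ResidueField A) : MvPolynomial ι ℤ →+* IsLocalRing.ResidueField A) := by
      apply MvPolynomial.ringHom_ext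
      · intro r
        simp
      · intro i
        simp
    exact congrArg (fun φ => φ P) h1
  have hsub : ∀ R : MvPolynomial ι' ℤ, ρ (aeval (fun b => X (σ b)) R) = aeval (fun b => ρ (X (σ b))) R := by
    intro R
    have h1 : (ρ.comp ((aeval (R := ℤ) (fun b => (X (σ b) : MvPolynomial ι ℤ)) :
        MvPolynomial ι' ℤ →ₐ[ℤ] MvPolynomial ι ℤ) : MvPolynomial ι' ℤ →+* MvPolynomial ι ℤ)) =
        ((aeval (R := ℤ) (fun b => ρ (X (σ b))) : MvPolynomial ι' ℤ →ₐ[ℤ]
        IsLocalRing.ResidueField A) : MvPolynomial ι' ℤ →+* IsLocalRing.ResidueField A) := by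
      apply MvPolynomial.ringHom_ext
      · intro r
        simp
      · intro i
        simp
    exact congrArg (fun φ => φ R) h1
  have hθ : ∀ R : MvPolynomial ι' ℤ, θ (aeval (fun b => X (σ b)) R) = R := by
    intro R
    have h1 : (θ.comp (aeval (R := ℤ) (fun b => (X (σ b) : MvPolynomial ι ℤ)))) =
        AlgHom.id ℤ (MvPolynomial ι' ℤ) := by
      apply MvPolynomial.algHom_ext
      intro i
      rw [AlgHom.comp_apply, aeval_X, AlgHom.id_apply]
      change aeval q (X (σ i)) = _
      rw [aeval_X, hσ]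
    exact congrArg (fun φ => φ R) h1
  refine ⟨A, fun i => fO (algebraMap (MvPolynomial ι ℤ) (Localization.AtPrime 𝔭) (X i)),
    fun b => ρ (X (σ b)), ?_, ?_, ?_⟩
  · intro i
    have h2 := IsLocalization.lift_eq hu (S := Localization.AtPrime 𝔭) (X i)
    have h3 : ψ.toRingHom (X i) = c i := by
      change aeval c (X i) = _
      rw [aeval_X]
    rw [h3] at h2
    exact h2
  · rw [algebraicIndependent_iff]
    intro R hR
    rw [← hsub, hρ] at hR
    rw [← hθ R]
    exact hR
  · intro i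
    change ρ (X i) = _
    rw [← hsub]
    rw [← sub_eq_zero, ← map_sub, hρ]
    change θ _ = 0
    rw [map_sub, hθ]
    change aeval q (X i) - _ = 0
    rw [aeval_X, sub_self]

end Pool.Agent.Lib_helper56.KSS
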