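import Pool.Agent.Lib_helper56.KSS.TI
import Pool.Agent.Lib_helper56.KSS.Gen
import Pool.Agent.Lib_helper77.KSS.Defs

/-! Jets: universal coefficient polynomials, the specialisation lemma and the initial
degeneration for jets. -/

namespace Pool.Agent.Lib_helper56.KSS

open MvPolynomial Pool.Agent.KSS

/-- the two definitions of the transcendence degree agree -/
theorem tau_eq (k : Type) {κ J : Type} [Field k] [Field κ] [Algebra k κ] [Fintype J]
    (x : J → κ) : Pool.Agent.KSS.tau k x = tau k x := by
  unfold Pool.Agent.KSS.tau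
  apply le_antisymm
  · apply csSup_le
    · obtain ⟨s, hs1, hs2⟩ := exists_tau (K := k) x
      exact ⟨_, s, hs1, hs2⟩
    · rintro n ⟨S, rfl, hS⟩
      have := card_le_tau' (K := k) x (fun s : S => (s : J)) hS
      rwa [Nat.card_eq_fintype_card, Fintype.card_coe] at this
  · obtain ⟨s, hs1, hs2⟩ := exists_tau (K := k) x
    apply le_csSup
    · refine ⟨Fintype.card J, ?_⟩
      rintro n ⟨S, rfl, -⟩
      exact Finset.card_le_univ S
    · exact ⟨s, hs1, hs2⟩

section cJ

variable {R : Type} [CommRing R] {V : Type} {L : ℕ}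

/-- the universal arc -/
noncomputable def uarc (R : Type) [CommRing R] (V : Type) (L : ℕ) :
    V → PowerSeries (MvPolynomial (V × Fin L) R) :=
  fun i => PowerSeries.mk fun μ => if h : μ < L then X (i, ⟨μ, h⟩) else 0

/-- coefficient polynomials -/
noncomputable def cJ (L : ℕ) (F : MvPolynomial V R) (μ : ℕ) : MvPolynomial (V × Fin L) R :=
  PowerSeries.coeff μ (aeval (uarc R V L) F)

theorem map_cJ {S : Type} [CommRing S] (π : R →+* S) (F : MvPolynomial V R) (μ : ℕ) :
    MvPolynomial.map π (cJ L F μ) = cJ L (MvPolynomial.map π F) μ := by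
  have h1 : (PowerSeries.map (MvPolynomial.map (σ := V × Fin L) π)).comp
      (aeval (R := R) (uarc R V L)).toRingHom =
      ((aeval (R := S) (uarc S V L)).toRingHom).comp (MvPolynomial.map π) := by
    apply MvPolynomial.ringHom_ext
    · intro r
      simp only [RingHom.comp_apply, AlgHom.toRingHom_eq_coe, RingHom.coe_coe, map_C, aeval_C]
      ext1 n
      rw [PowerSeries.coeff_map, PowerSeries.algebraMap_apply, PowerSeries.algebraMap_apply,
        PowerSeries.coeff_C, PowerSeries.coeff_C]
      split_ifs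
      · rw [MvPolynomial.algebraMap_eq, MvPolynomial.algebraMap_eq, MvPolynomial.map_C]
      · rw [map_zero]
    · intro i
      simp only [RingHom.comp_apply, AlgHom.toRingHom_eq_coe, RingHom.coe_coe, map_X, aeval_X]
      ext1 n
      rw [PowerSeries.coeff_map]
      simp only [uarc, PowerSeries.coeff_mk]
      split_ifs
      · rw [map_X]
      · rw [map_zero]
  have h2 := congrArg (fun φ => PowerSeries.coeff μ (φ F)) h1
  simp only [RingHom.comp_apply, AlgHom.toRingHom_eq_coe, RingHom.coe_coe,
    PowerSeries.coeff_map] at h2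
  exact h2

theorem aeval_cJ {k κ : Type} [Field k] [Field κ] [Algebra k κ] (x : V → Fin L → κ)
    (F : MvPolynomial V k) (μ : ℕ) :
    aeval (fun p : V × Fin L => x p.1 p.2) (cJ L F μ) = PowerSeries.coeff μ (ev x F) := by
  have h1 : (PowerSeries.map ((aeval (R := k) (fun p : V × Fin L => x p.1 p.2)).toRingHom)).comp
      (aeval (R := k) (uarc k V L)).toRingHom =
      (aeval (R := k) (fun i => arc (x i))).toRingHom := by
    apply MvPolynomial.ringHom_ext
    · intro r
      simp only [RingHom.comp_apply, AlgHom.toRingHom_eq_coe, RingHom.coe_coe, aeval_C]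
      ext1 n
      rw [PowerSeries.coeff_map, PowerSeries.algebraMap_apply, PowerSeries.algebraMap_apply,
        PowerSeries.coeff_C, PowerSeries.coeff_C]
      split_ifs
      · simp
      · rw [map_zero]
    · intro i
      simp only [RingHom.comp_apply, AlgHom.toRingHom_eq_coe, RingHom.coe_coe, aeval_X]
      ext1 n
      rw [PowerSeries.coeff_map]
      simp only [uarc, arc, PowerSeries.coeff_mk]
      split_ifs
      · simp
      · rw [map_zero]
  have h2 := congrArg (fun φ => PowerSeries.coeff μ (φ F)) h1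
  simp only [RingHom.comp_apply, AlgHom.toRingHom_eq_coe, RingHom.coe_coe,
    PowerSeries.coeff_map] at h2
  exact h2

/-- power series with weighted homogeneous coefficients -/
def AllH (w : V × Fin L → ℕ) (D : ℕ) (f : PowerSeries (MvPolynomial (V × Fin L) R)) : Prop :=
  ∀ μ, IsWeightedHomogeneous w (PowerSeries.coeff μ f) D

theorem AllH.mul {w : V × Fin L → ℕ} {D E : ℕ} {f g : PowerSeries (MvPolynomial (V × Fin L) R)}
    (hf : AllH w D f) (hg : AllH w E g) : AllH w (D + E) (f * g) := by
  intro μ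
  rw [PowerSeries.coeff_mul]
  apply IsWeightedHomogeneous.sum
  intro p _
  exact (hf _).mul (hg _)

theorem AllH.one {w : V × Fin L → ℕ} : AllH w 0 (1 : PowerSeries (MvPolynomial (V × Fin L) R)) := by
  intro μ
  rw [PowerSeries.coeff_one]
  split_ifs
  · exact isWeightedHomogeneous_one R w
  · exact isWeightedHomogeneous_zero R w 0

theorem AllH.pow {w : V × Fin L → ℕ} {D : ℕ} {f : PowerSeries (MvPolynomial (V × Fin L) R)}
    (hf : AllH w D f) (n : ℕ) : AllH w (n * D) (f ^ n) := by
  induction n with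
  | zero => rw [pow_zero, Nat.zero_mul]; exact AllH.one
  | succ n ih => rw [pow_succ, Nat.succ_mul]; exact ih.mul hf

theorem AllH.prod {w : V × Fin L → ℕ} {ι : Type*} (s : Finset ι) (D : ι → ℕ)
    (f : ι → PowerSeries (MvPolynomial (V × Fin L) R))
    (hf : ∀ i ∈ s, AllH w (D i) (f i)) : AllH w (∑ i ∈ s, D i) (∏ i ∈ s, f i) := by
  classical
  induction s using Finset.induction_on with
  | empty => simpa using AllH.one
  | insert a s ha ih =>
    rw [Finset.sum_insert ha, Finset.prod_insert ha]
    exact (hf a (Finset.mem_insert_self _ _)).mul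
      (ih fun i hi => hf i (Finset.mem_insert_of_mem hi))

theorem AllH_uarc (w : V → ℕ) (i : V) : AllH (fun p : V × Fin L => w p.1) (w i) (uarc R V L i) := by
  intro μ
  simp only [uarc, PowerSeries.coeff_mk]
  split_ifs with h
  · exact isWeightedHomogeneous_X R (fun p : V × Fin L => w p.1) (i, ⟨μ, h⟩)
  · exact isWeightedHomogeneous_zero R _ _

theorem cJ_monomial_homog (w : V → ℕ) (d : V →₀ ℕ) (a : R) (μ : ℕ) :
    IsWeightedHomogeneous (fun p : V × Fin L => w p.1) (cJ L (monomial d a) μ)
      (Finsupp.weight w d) := by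
  have h1 : AllH (fun p : V × Fin L => w p.1) (Finsupp.weight w d)
      (aeval (uarc R V L) (monomial d a)) := by
    rw [aeval_monomial]
    have h2 : AllH (fun p : V × Fin L => w p.1) 0
        (algebraMap R (PowerSeries (MvPolynomial (V × Fin L) R)) a) := by
      intro ν
      rw [PowerSeries.algebraMap_apply, PowerSeries.coeff_C]
      split_ifs
      · exact isWeightedHomogeneous_C _ _
      · exact isWeightedHomogeneous_zero R _ _
    have h3 : AllH (fun p : V × Fin L => w p.1) (Finsupp.weight w d)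
        (d.prod fun i k => uarc R V L i ^ k) := by
      rw [Finsupp.weight_apply, Finsupp.sum, Finsupp.prod]
      apply AllH.prod
      intro i _
      rw [smul_eq_mul]
      exact (AllH_uarc w i).pow _
    have h4 := h2.mul h3
    rwa [Nat.zero_add] at h4
  exact h1 μ

theorem cJ_add (F G : MvPolynomial V R) (μ : ℕ) : cJ L (F + G) μ = cJ L F μ + cJ L G μ := by
  simp only [cJ, map_add]

theorem cJ_zero (μ : ℕ) : cJ L (0 : MvPolynomial V R) μ = 0 := by
  simp only [cJ, map_zero]

theorem cJ_sum {ι : Type*} (s : Finset ι) (F : ι → MvPolynomial V R) (μ : ℕ) :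
    cJ L (∑ i ∈ s, F i) μ = ∑ i ∈ s, cJ L (F i) μ := by
  simp only [cJ, map_sum]

theorem cJ_homog (w : V → ℕ) {D : ℕ} {F : MvPolynomial V R} (hF : IsWeightedHomogeneous w F D)
    (μ : ℕ) : IsWeightedHomogeneous (fun p : V × Fin L => w p.1) (cJ L F μ) D := by
  rw [F.as_sum, cJ_sum]
  apply IsWeightedHomogeneous.sum
  intro d hd
  have := cJ_monomial_homog (L := L) w d (coeff d F) μ
  rwa [hF (mem_support_iff.1 hd)] at this

theorem cJ_whc (ω : V → ℕ) (χ : ℕ) (F : MvPolynomial V R) (μ : ℕ) :
    cJ L (weightedHomogeneousComponent ω χ F) μ =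
      weightedHomogeneousComponent (fun p : V × Fin L => ω p.1) χ (cJ L F μ) := by
  induction F using MvPolynomial.induction_on' with
  | monomial d a =>
    have h1 := cJ_monomial_homog (L := L) ω d a μ
    by_cases h : Finsupp.weight ω d = χ
    · subst h
      rw [weightedHomogeneousComponent_eq_self (isWeightedHomogeneous_monomial ω d a rfl),
        weightedHomogeneousComponent_eq_self h1]
    · rw [h1.weightedHomogeneousComponent_ne _ (Ne.symm h),
        (isWeightedHomogeneous_monomial ω d a rfl).weightedHomogeneousComponent_ne _ (Ne.symm h),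
        cJ_zero]
  | add p q hp hq => rw [map_add, cJ_add, hp, hq, cJ_add, map_add]

theorem cJ_support (ω : V → ℕ) (χ : ℕ) (F : MvPolynomial V R)
    (hF : ∀ d ∈ F.support, χ ≤ Finsupp.weight ω d) (μ : ℕ) :
    ∀ d ∈ (cJ L F μ).support, χ ≤ Finsupp.weight (fun p : V × Fin L => ω p.1) d := by
  intro d hd
  by_contra hcon
  push Not at hcon
  have h1 : weightedHomogeneousComponent ω (Finsupp.weight (fun p : V × Fin L => ω p.1) d) F = 0 := by
    ext d'
    rw [coeff_weightedHomogeneousComponent, coeff_zero]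
    split_ifs with h
    · by_contra h2
      have := hF d' (mem_support_iff.2 h2)
      omega
    · rfl
  have h2 := cJ_whc (L := L) ω (Finsupp.weight (fun p : V × Fin L => ω p.1) d) F μ
  rw [h1, cJ_zero] at h2
  have h3 := congrArg (coeff d) h2
  rw [coeff_zero, coeff_weightedHomogeneousComponent, if_pos rfl] at h3
  exact (mem_support_iff.1 hd) h3.symm

end cJ

/-- specialisation lemma for jets -/
theorem SLJ {O : Type} [CommRing O] [IsDomain O] [ValuationRing O] {K : Type} [Field K]
    [Algebra O K] [IsFractionRing O K] {k1 : Type} [Field k1] (π : O →+* k1)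
    (hπ : Function.Surjective π) {F : Type} [Field F] [Algebra K F] {V : Type} [Fintype V]
    (w : V → ℕ) (hw : ∀ i, 0 < w i) {L : ℕ} (x : V → Fin L → F) :
    ∃ (F0 : Type) (_ : Field F0) (_ : Algebra k1 F0) (x0 : V → Fin L → F0),
      tauJ K x ≤ tauJ k1 x0 ∧
      ∀ (P : MvPolynomial V O) (D : ℕ), IsWeightedHomogeneous w P D → ∀ l ≤ L,
        (PowerSeries.X : PowerSeries F) ^ l ∣ ev x (MvPolynomial.map (algebraMap O K) P) →
        (PowerSeries.X : PowerSeries F0) ^ l ∣ ev x0 (MvPolynomial.map π P) := by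
  obtain ⟨F0, i1, i2, x0, h1, h2⟩ := SL (K := K) π hπ (fun p : V × Fin L => w p.1)
    (fun p => hw p.1) (fun p : V × Fin L => x p.1 p.2)
  refine ⟨F0, i1, i2, fun v μ => x0 (v, μ), ?_, ?_⟩
  · unfold tauJ
    rw [tau_eq, tau_eq]
    exact h1
  · intro P D hP l hl hd
    rw [PowerSeries.X_pow_dvd_iff] at hd ⊢
    intro μ hμ
    have h3 := hd μ hμ
    rw [← aeval_cJ, ← map_cJ] at h3
    have h4 := h2 (cJ L P μ) D (cJ_homog w hP μ) h3
    rw [map_cJ] at h4
    rw [← aeval_cJ]
    exact h4

/-- initial degeneration for jets -/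
theorem TIJ {k : Type} [Field k] {F : Type} [Field F] [Algebra k F] {V : Type} [Fintype V]
    (w ω : V → ℕ) (hw : ∀ i, 0 < w i) {L : ℕ} (x : V → Fin L → F) :
    ∃ (F0 : Type) (_ : Field F0) (_ : Algebra k F0) (x0 : V → Fin L → F0),
      tauJ k x ≤ tauJ k x0 ∧
      ∀ (P : MvPolynomial V k) (D χ : ℕ), IsWeightedHomogeneous w P D →
        (∀ d ∈ P.support, χ ≤ Finsupp.weight ω d) → ∀ l ≤ L,
        (PowerSeries.X : PowerSeries F) ^ l ∣ ev x P →
        (PowerSeries.X : PowerSeries F0) ^ l ∣ ev x0 (weightedHomogeneousComponent ω χ P) := by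
  obtain ⟨F0, i1, i2, x0, h1, h2⟩ := TI (k := k) (fun p : V × Fin L => w p.1)
    (fun p : V × Fin L => ω p.1) (fun p => hw p.1) (fun p : V × Fin L => x p.1 p.2)
  refine ⟨F0, i1, i2, fun v μ => x0 (v, μ), ?_, ?_⟩
  · unfold tauJ
    rw [tau_eq, tau_eq]
    exact h1
  · intro P D χ hP hχ l hl hd
    rw [PowerSeries.X_pow_dvd_iff] at hd ⊢
    intro μ hμ
    have h3 := hd μ hμ
    rw [← aeval_cJ] at h3
    have h4 := h2 (cJ L P μ) D χ (cJ_homog w hP μ) h3 (cJ_support ω χ P hχ μ)
    rw [← cJ_whc] at h4
    rw [← aeval_cJ]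
    exact h4

end Pool.Agent.Lib_helper56.KSS
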