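import Pool.Agent.Lib_helper56.KSS.J1

/-! Jets: dimension inequalities. -/

namespace Pool.Agent.Lib_helper56.KSS

open MvPolynomial Pool.Agent.KSS

/-- lifting a subspace to the valuation ring with independent reductions -/
theorem reduce_indep {O : Type*} [CommRing O] [IsDomain O] [ValuationRing O] {K : Type*} [Field K]
    [Algebra O K] [IsFractionRing O K] {k1 : Type*} [Field k1] (π : O →+* k1) {V : Type*} (n : ℕ) :
    ∀ (W : Submodule K (MvPolynomial V K)) [Module.Finite K W], n ≤ Module.finrank K W →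
      ∃ P : Fin n → MvPolynomial V O, (∀ j, MvPolynomial.map (algebraMap O K) (P j) ∈ W) ∧
        LinearIndependent k1 (fun j => MvPolynomial.map π (P j)) := by
  classical
  induction n with
  | zero =>
    intro W _ _
    exact ⟨fun j => j.elim0, fun j => j.elim0, linearIndependent_empty_type⟩
  | succ n ih =>
    intro W hW hn
    have hW0 : W ≠ ⊥ := by
      rintro rfl
      rw [finrank_bot] at hn
      omega
    obtain ⟨u, huW, hu0⟩ := Submodule.exists_mem_ne_zero_of_ne_bot hW0
    have hc : (fun d : u.support => coeff (d : V →₀ ℕ) u) ≠ 0 := by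
      intro h
      obtain ⟨d, hd⟩ := Finset.nonempty_iff_ne_empty.2 (fun h => hu0 (support_eq_empty.1 h))
      exact (mem_support_iff.1 hd) (congrFun h ⟨d, hd⟩)
    obtain ⟨a, b, ha, hb, i, hi⟩ := exists_scale (O := O) _ hc
    let u' : MvPolynomial V O := ∑ d : u.support, monomial (d : V →₀ ℕ) (b d)
    have hu' : MvPolynomial.map (algebraMap O K) u' = a • u := by
      simp only [u', map_sum, map_monomial]
      conv_rhs => rw [u.as_sum, Finset.smul_sum]
      rw [← Finset.sum_coe_sort u.support (fun d => a • monomial d (coeff d u))]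
      apply Finset.sum_congr rfl
      intro d _
      rw [hb, smul_monomial, smul_eq_mul]
    have hcoeff : coeff (i : V →₀ ℕ) u' = 1 := by
      simp only [u', coeff_sum, coeff_monomial]
      rw [Finset.sum_eq_single i]
      · rw [if_pos rfl, hi]
      · intro d _ hd
        rw [if_neg (fun h => hd (Subtype.ext h))]
      · intro h
        exact absurd (Finset.mem_univ i) h
    let f : MvPolynomial V K →ₗ[K] K := lcoeff K (i : V →₀ ℕ)
    have hr := slc_rank f W
    have hfi : Module.Finite K (W ⊓ LinearMap.ker f : Submodule K (MvPolynomial V K)) :=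
      Submodule.finiteDimensional_inf_left _ _
    have h1 : Module.finrank K (W.map f) ≤ 1 := by
      have := Submodule.finrank_le (W.map f)
      rwa [Module.finrank_self] at this
    obtain ⟨P', hP1, hP2⟩ := ih (W ⊓ LinearMap.ker f) (by omega)
    refine ⟨Fin.cons u' P', ?_, ?_⟩
    · intro j
      refine Fin.cases ?_ (fun j => ?_) j
      · rw [Fin.cons_zero, hu']
        exact W.smul_mem _ huW
      · rw [Fin.cons_succ]
        exact (hP1 j).1
    · have h2 : (fun j => MvPolynomial.map π ((Fin.cons u' P' : Fin (n + 1) → MvPolynomial V O) j)) =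
          Fin.cons (MvPolynomial.map π u') (fun j => MvPolynomial.map π (P' j)) := by
        funext j
        refine Fin.cases ?_ (fun j => ?_) j
        · simp
        · simp
      rw [h2, linearIndependent_finCons]
      refine ⟨hP2, ?_⟩
      intro hmem
      have h3 : Submodule.span k1 (Set.range fun j => MvPolynomial.map π (P' j)) ≤
          LinearMap.ker (lcoeff k1 (i : V →₀ ℕ)) := by
        rw [Submodule.span_le]
        rintro _ ⟨j, rfl⟩
        rw [SetLike.mem_coe, LinearMap.mem_ker]
        change coeff (i : V →₀ ℕ) (MvPolynomial.map π (P' j)) = 0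
        rw [coeff_map]
        have h4 : coeff (i : V →₀ ℕ) (MvPolynomial.map (algebraMap O K) (P' j)) = 0 := (hP1 j).2
        rw [coeff_map] at h4
        have h5 : coeff (i : V →₀ ℕ) (P' j) = 0 := IsFractionRing.injective O K (by rw [h4, map_zero])
        rw [h5, map_zero]
      have h6 := h3 hmem
      rw [LinearMap.mem_ker] at h6
      change coeff (i : V →₀ ℕ) (MvPolynomial.map π u') = 0 at h6
      rw [coeff_map, hcoeff, map_one] at h6
      exact one_ne_zero h6

section FM

variable {k κ V : Type} [Field k] [Field κ] [Algebra k κ] {L : ℕ}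

theorem ev_add (x : V → Fin L → κ) (F G : MvPolynomial V k) : ev x (F + G) = ev x F + ev x G := by
  unfold ev; rw [map_add]

theorem ev_mul (x : V → Fin L → κ) (F G : MvPolynomial V k) : ev x (F * G) = ev x F * ev x G := by
  unfold ev; rw [map_mul]

theorem ev_zero (x : V → Fin L → κ) : ev x (0 : MvPolynomial V k) = 0 := by
  unfold ev; rw [map_zero]

theorem ev_smul (x : V → Fin L → κ) (c : k) (F : MvPolynomial V k) :
    ev x (c • F) = PowerSeries.C (algebraMap k κ c) * ev x F := by
  unfold ev; rw [map_smul, Algebra.smul_def, PowerSeries.algebraMap_apply]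

theorem ev_X (x : V → Fin L → κ) (i : V) : ev x (X i : MvPolynomial V k) = arc (x i) := by
  unfold ev; rw [aeval_X]

/-- polynomials vanishing to order `≥ l` on the jet -/
noncomputable def Vo (k : Type) {κ V : Type} [Field k] [Field κ] [Algebra k κ] {L : ℕ}
    (x : V → Fin L → κ) (l : ℕ) : Submodule k (MvPolynomial V k) where
  carrier := {F | (PowerSeries.X : PowerSeries κ) ^ l ∣ ev x F}
  add_mem' := by
    rintro F G hF hG
    simp only [Set.mem_ofPred_eq] at *
    rw [ev_add]
    exact dvd_add hF hG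
  zero_mem' := by
    simp only [Set.mem_ofPred_eq, ev_zero]
    exact dvd_zero _
  smul_mem' := by
    rintro c F hF
    simp only [Set.mem_ofPred_eq] at *
    rw [ev_smul]
    exact Dvd.dvd.mul_left hF _

theorem mem_Vo {x : V → Fin L → κ} {l : ℕ} {F : MvPolynomial V k} :
    F ∈ Vo k x l ↔ (PowerSeries.X : PowerSeries κ) ^ l ∣ ev x F := Iff.rfl

/-- polynomials with support in `M` vanishing to order `≥ l` on the jet -/
noncomputable def FM (k : Type) {κ V : Type} [Field k] [Field κ] [Algebra k κ] {L : ℕ}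
    (x : V → Fin L → κ) (M : Set (V →₀ ℕ)) (l : ℕ) : Submodule k (MvPolynomial V k) :=
  restrictSupport k M ⊓ Vo k x l

theorem mem_FM {x : V → Fin L → κ} {M : Set (V →₀ ℕ)} {l : ℕ} {F : MvPolynomial V k} :
    F ∈ FM k x M l ↔ (∀ d ∈ F.support, d ∈ M) ∧ (PowerSeries.X : PowerSeries κ) ^ l ∣ ev x F := by
  unfold FM
  rw [Submodule.mem_inf, mem_restrictSupport_iff, mem_Vo]
  rfl

theorem FM_finite (x : V → Fin L → κ) (M : Set (V →₀ ℕ)) [Finite M] (l : ℕ) :
    Module.Finite k (FM k x M l) := by
  have : Module.Finite k (restrictSupport k M) := Module.Finite.of_basis (basisRestrictSupport k M)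
  exact Submodule.finiteDimensional_inf_left _ _

theorem Fil_eq (x : V → Fin L → κ) (m l : ℕ) : Fil k x m l = FM k x {d | d.degree = m} l := by
  ext F
  rw [mem_FM]
  change (F.IsHomogeneous m ∧ _) ↔ _
  apply and_congr_left
  intro _
  constructor
  · intro h d hd
    have := h (mem_support_iff.1 hd)
    rw [Set.mem_ofPred_eq, Finsupp.degree_eq_weight_one]
    exact this
  · intro h d hd
    have := h d (mem_support_iff.2 hd)
    rw [Set.mem_ofPred_eq, Finsupp.degree_eq_weight_one] at this
    exact this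

end FM

/-- the dimension of the filtration does not drop under specialisation -/
theorem FM_special {O : Type} [CommRing O] [IsDomain O] [ValuationRing O] {K : Type} [Field K]
    [Algebra O K] [IsFractionRing O K] {k1 : Type} [Field k1] (π : O →+* k1)
    {F : Type} [Field F] [Algebra K F] {F0 : Type} [Field F0] [Algebra k1 F0] {V : Type}
    (w : V → ℕ) {L : ℕ} (x : V → Fin L → F) (x0 : V → Fin L → F0)
    (hx : ∀ (P : MvPolynomial V O) (D : ℕ), IsWeightedHomogeneous w P D → ∀ l ≤ L,
        (PowerSeries.X : PowerSeries F) ^ l ∣ ev x (MvPolynomial.map (algebraMap O K) P) →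
        (PowerSeries.X : PowerSeries F0) ^ l ∣ ev x0 (MvPolynomial.map π P))
    (M : Set (V →₀ ℕ)) [Finite M] (D : ℕ) (hM : ∀ d ∈ M, Finsupp.weight w d = D) (l : ℕ) (hl : l ≤ L) :
    Module.finrank K (FM K x M l) ≤ Module.finrank k1 (FM k1 x0 M l) := by
  have h1 : Module.Finite K (FM K x M l) := FM_finite x M l
  have h2 : Module.Finite k1 (FM k1 x0 M l) := FM_finite x0 M l
  obtain ⟨P, hP1, hP2⟩ := reduce_indep π (Module.finrank K (FM K x M l)) (FM K x M l) le_rfl
  have h3 := slc_card_le (FM k1 x0 M l) _ hP2 (by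
    intro j
    have h4 := mem_FM.1 (hP1 j)
    have h5 : ∀ d, coeff d (P j) ≠ 0 → d ∈ M := by
      intro d hd
      apply h4.1
      rw [mem_support_iff, coeff_map]
      intro h6
      exact hd (IsFractionRing.injective O K (by rw [h6, map_zero]))
    rw [mem_FM]
    refine ⟨?_, ?_⟩
    · intro d hd
      apply h5
      intro h6
      rw [mem_support_iff, coeff_map, h6, map_zero] at hd
      exact hd rfl
    · apply hx (P j) D _ l hl h4.2
      intro d hd
      exact hM d (h5 d hd))
  rwa [Fintype.card_fin] at h3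

/-- the dimension of the filtration is bounded by that of the initial degeneration -/
theorem FM_initial {k : Type} [Field k] {F : Type} [Field F] [Algebra k F] {F0 : Type} [Field F0]
    [Algebra k F0] {V : Type} (w ω : V → ℕ) {L : ℕ} (x : V → Fin L → F) (x0 : V → Fin L → F0)
    (hx : ∀ (P : MvPolynomial V k) (D χ : ℕ), IsWeightedHomogeneous w P D →
        (∀ d ∈ P.support, χ ≤ Finsupp.weight ω d) → ∀ l ≤ L,
        (PowerSeries.X : PowerSeries F) ^ l ∣ ev x P →
        (PowerSeries.X : PowerSeries F0) ^ l ∣ ev x0 (weightedHomogeneousComponent ω χ P))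
    (M : Set (V →₀ ℕ)) [Finite M] (D : ℕ) (hM : ∀ d ∈ M, Finsupp.weight w d = D) (l : ℕ) (hl : l ≤ L)
    (T : Finset ℕ) (hT : ∀ d ∈ M, Finsupp.weight ω d ∈ T) :
    Module.finrank k (FM k x M l) ≤
      ∑ χ ∈ T, Module.finrank k (FM k x0 {d | d ∈ M ∧ Finsupp.weight ω d = χ} l) := by
  classical
  obtain ⟨f, hf⟩ : ∃ f : ℕ → ℕ, f = fun χ => Module.finrank k
    (FM k x0 {d | d ∈ M ∧ Finsupp.weight ω d = χ} l) := ⟨_, rfl⟩
  have hfin : ∀ S : Set (V →₀ ℕ), S ⊆ M → Finite S := fun S hS =>
    (Set.Finite.subset (Set.toFinite M) hS)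
  have step : ∀ N, Module.finrank k (FM k x {d | d ∈ M ∧ N ≤ Finsupp.weight ω d} l) ≤
      f N + Module.finrank k (FM k x {d | d ∈ M ∧ N + 1 ≤ Finsupp.weight ω d} l) := by
    intro N
    have i1 : Finite {d | d ∈ M ∧ N ≤ Finsupp.weight ω d} := hfin _ (fun d hd => hd.1)
    have i2 : Finite {d | d ∈ M ∧ N + 1 ≤ Finsupp.weight ω d} := hfin _ (fun d hd => hd.1)
    have i3 : Finite {d | d ∈ M ∧ Finsupp.weight ω d = N} := hfin _ (fun d hd => hd.1)
    have j1 := FM_finite (k := k) x {d | d ∈ M ∧ N ≤ Finsupp.weight ω d} l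
    have j2 := FM_finite (k := k) x {d | d ∈ M ∧ N + 1 ≤ Finsupp.weight ω d} l
    have j3 := FM_finite (k := k) x0 {d | d ∈ M ∧ Finsupp.weight ω d = N} l
    have hr := slc_rank (weightedHomogeneousComponent ω N) (FM k x {d | d ∈ M ∧ N ≤ Finsupp.weight ω d} l)
    have h1 : Module.finrank k ((FM k x {d | d ∈ M ∧ N ≤ Finsupp.weight ω d} l).map
        (weightedHomogeneousComponent ω N)) ≤ f N := by
      rw [hf]
      apply Submodule.finrank_mono
      rintro _ ⟨P, hP, rfl⟩
      have hP' := mem_FM.1 hP
      rw [mem_FM]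
      refine ⟨?_, ?_⟩
      · intro d hd
        rw [mem_support_iff, coeff_weightedHomogeneousComponent] at hd
        split_ifs at hd with h
        · exact ⟨(hP'.1 d (mem_support_iff.2 hd)).1, h⟩
        · exact absurd rfl hd
      · apply hx P D N _ _ l hl hP'.2
        · intro d hd
          exact hM d (hP'.1 d (mem_support_iff.2 hd)).1
        · intro d hd
          exact (hP'.1 d hd).2
    have h2 : Module.finrank k (FM k x {d | d ∈ M ∧ N ≤ Finsupp.weight ω d} l ⊓
        LinearMap.ker (weightedHomogeneousComponent ω N) : Submodule k (MvPolynomial V k)) ≤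
        Module.finrank k (FM k x {d | d ∈ M ∧ N + 1 ≤ Finsupp.weight ω d} l) := by
      apply Submodule.finrank_mono
      rintro P ⟨hP, hP2⟩
      have hP' := mem_FM.1 hP
      rw [mem_FM]
      refine ⟨?_, hP'.2⟩
      intro d hd
      refine ⟨(hP'.1 d hd).1, ?_⟩
      have h3 := (hP'.1 d hd).2
      have h4 : Finsupp.weight ω d ≠ N := by
        intro h5
        have h6 := congrArg (coeff d) (LinearMap.mem_ker.1 hP2)
        rw [coeff_weightedHomogeneousComponent, if_pos h5, coeff_zero] at h6
        exact (mem_support_iff.1 hd) h6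
      omega
    omega
  -- a bound for the weights
  obtain ⟨X, hX⟩ : ∃ X, ∀ n ∈ T, n < X := ⟨T.sup id + 1, fun n hn =>
    Nat.lt_succ_of_le (Finset.le_sup (f := id) hn)⟩
  have key : ∀ j N, N + j = X → Module.finrank k (FM k x {d | d ∈ M ∧ N ≤ Finsupp.weight ω d} l) ≤
      ∑ χ ∈ Finset.Ico N X, f χ := by
    intro j
    induction j with
    | zero =>
      intro N hN
      have h1 : FM k x {d | d ∈ M ∧ N ≤ Finsupp.weight ω d} l = ⊥ := by
        rw [eq_bot_iff]
        intro P hP
        have hP' := mem_FM.1 hP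
        rw [Submodule.mem_bot]
        by_contra h0
        obtain ⟨d, hd⟩ := Finset.nonempty_iff_ne_empty.2 (fun h => h0 (support_eq_empty.1 h))
        have h2 := hP'.1 d hd
        have h3 := hX _ (hT d h2.1)
        have h4 := h2.2
        omega
      rw [h1, finrank_bot]
      exact Nat.zero_le _
    | succ j ih =>
      intro N hN
      have h1 := step N
      have h2 := ih (N + 1) (by omega)
      have h3 : ∑ χ ∈ Finset.Ico N X, f χ = f N + ∑ χ ∈ Finset.Ico (N + 1) X, f χ :=
        Finset.sum_eq_sum_Ico_succ_bot (by omega) f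
      omega
  have h1 := key X 0 (by omega)
  have h2 : {d | d ∈ M ∧ 0 ≤ Finsupp.weight ω d} = M := by
    ext d
    exact ⟨fun h => h.1, fun h => ⟨h, Nat.zero_le _⟩⟩
  rw [h2] at h1
  apply h1.trans
  have h3 : ∀ χ ∈ Finset.Ico 0 X, χ ∉ T → f χ = 0 := by
    intro χ _ hχ
    rw [hf]
    have h4 : FM k x0 {d | d ∈ M ∧ Finsupp.weight ω d = χ} l = ⊥ := by
      rw [eq_bot_iff]
      intro P hP
      have hP' := mem_FM.1 hP
      rw [Submodule.mem_bot]
      by_contra h0
      obtain ⟨d, hd⟩ := Finset.nonempty_iff_ne_empty.2 (fun h => h0 (support_eq_empty.1 h))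
      have h2 := hP'.1 d hd
      exact hχ (h2.2 ▸ hT d h2.1)
    simp only
    rw [h4, finrank_bot]
  have h4 : ∑ χ ∈ Finset.Ico 0 X, f χ = ∑ χ ∈ Finset.Ico 0 X ∩ T, f χ := by
    symm
    apply Finset.sum_subset Finset.inter_subset_left
    intro χ hχ1 hχ2
    apply h3 χ hχ1
    intro hT'
    exact hχ2 (Finset.mem_inter.2 ⟨hχ1, hT'⟩)
  rw [h4]
  apply (Finset.sum_le_sum_of_subset Finset.inter_subset_right).trans
  rw [hf]

end Pool.Agent.Lib_helper56.KSS
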