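import Pool.Agent.Lib_helper56.KSS.J2

/-! Jets: orders, shifts, digits. -/

namespace Pool.Agent.Lib_helper56.KSS

open MvPolynomial Pool.Agent.KSS

section ord

variable {κ : Type} [Field κ]

theorem ordL_le (L : ℕ) (f : PowerSeries κ) : ordL L f ≤ L := by
  unfold ordL
  have h1 : min (L : ℕ∞) f.order ≤ L := min_le_left _ _
  have h2 := ENat.toNat_le_toNat h1 (ENat.natCast_ne_top L)
  simpa using h2

theorem coe_ordL (L : ℕ) (f : PowerSeries κ) : (ordL L f : ℕ∞) = min (L : ℕ∞) f.order := by
  unfold ordL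
  apply ENat.natCast_toNat
  intro h
  have h1 : min (L : ℕ∞) f.order ≤ L := min_le_left _ _
  rw [h, top_le_iff] at h1
  exact ENat.natCast_ne_top L h1

theorem dvd_iff_le_order (l : ℕ) (f : PowerSeries κ) :
    (PowerSeries.X : PowerSeries κ) ^ l ∣ f ↔ (l : ℕ∞) ≤ f.order := by
  rw [PowerSeries.X_pow_dvd_iff]
  constructor
  · intro h
    exact PowerSeries.nat_le_order f l h
  · intro h m hm
    apply PowerSeries.coeff_of_lt_order
    exact lt_of_lt_of_le (by exact_mod_cast hm) h

theorem dvd_iff_le_ordL {l L : ℕ} (hl : l ≤ L) (f : PowerSeries κ) :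
    (PowerSeries.X : PowerSeries κ) ^ l ∣ f ↔ l ≤ ordL L f := by
  rw [dvd_iff_le_order]
  have h1 := coe_ordL L f
  constructor
  · intro h
    have h2 : (l : ℕ∞) ≤ ordL L f := by
      rw [h1]
      exact le_min (by exact_mod_cast hl) h
    exact_mod_cast h2
  · intro h
    have h2 : (l : ℕ∞) ≤ ordL L f := by exact_mod_cast h
    rw [h1] at h2
    exact h2.trans (min_le_right _ _)

theorem ordL_dvd (L : ℕ) (f : PowerSeries κ) : (PowerSeries.X : PowerSeries κ) ^ (ordL L f) ∣ f :=
  (dvd_iff_le_ordL (ordL_le L f) f).2 le_rfl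

theorem order_eq_of_ordL_lt {L : ℕ} {f : PowerSeries κ} (h : ordL L f < L) :
    f.order = (ordL L f : ℕ∞) := by
  have h1 := coe_ordL L f
  rcases le_total (L : ℕ∞) f.order with h2 | h2
  · rw [min_eq_left h2] at h1
    have : ordL L f = L := by exact_mod_cast h1
    omega
  · rw [min_eq_right h2] at h1
    exact h1.symm

theorem dvd_of_mul_prod {ι : Type*} (s : Finset ι) (y : ι → PowerSeries κ) (a : ι → ℕ)
    (f : PowerSeries κ) {l L : ℕ} (hl : l ≤ L)
    (h : (PowerSeries.X : PowerSeries κ) ^ l ∣ (∏ i ∈ s, y i ^ a i) * f) :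
    (PowerSeries.X : PowerSeries κ) ^ (l - ∑ i ∈ s, a i * ordL L (y i)) ∣ f := by
  classical
  by_cases hex : ∃ i ∈ s, a i ≠ 0 ∧ ordL L (y i) = L
  · obtain ⟨i, hi, hai, hyi⟩ := hex
    have h1 : a i * ordL L (y i) ≤ ∑ i ∈ s, a i * ordL L (y i) :=
      Finset.single_le_sum (f := fun i => a i * ordL L (y i)) (fun _ _ => Nat.zero_le _) hi
    have h2 : L ≤ a i * ordL L (y i) := by
      rw [hyi]
      exact Nat.le_mul_of_pos_left _ (Nat.pos_of_ne_zero hai)
    have h3 : l - ∑ i ∈ s, a i * ordL L (y i) = 0 := by omega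
    rw [h3, pow_zero]
    exact one_dvd _
  · push Not at hex
    rw [dvd_iff_le_order] at h ⊢
    rw [PowerSeries.order_mul] at h
    have h1 : ∀ t ⊆ s, (∏ i ∈ t, y i ^ a i).order = ((∑ i ∈ t, a i * ordL L (y i) : ℕ) : ℕ∞) := by
      intro t
      induction t using Finset.induction_on with
      | empty =>
        intro _
        rw [Finset.prod_empty, Finset.sum_empty, PowerSeries.order_one, Nat.cast_zero]
      | insert i t hit ih =>
        intro hts
        rw [Finset.prod_insert hit, Finset.sum_insert hit, PowerSeries.order_mul,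
          ih (fun j hj => hts (Finset.mem_insert_of_mem hj)), Nat.cast_add, PowerSeries.order_pow]
        congr 1
        by_cases hai : a i = 0
        · rw [hai, zero_mul, zero_smul, Nat.cast_zero]
        · have h2 := hex i (hts (Finset.mem_insert_self _ _)) hai
          have h3 : ordL L (y i) < L := lt_of_le_of_ne (ordL_le _ _) h2
          rw [order_eq_of_ordL_lt h3, nsmul_eq_mul, Nat.cast_mul]
    rw [h1 s subset_rfl] at h
    rcases eq_or_ne f.order ⊤ with h2 | h2
    · rw [h2]; exact le_top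
    · obtain ⟨o, ho⟩ := ENat.ne_top_iff_exists.1 h2
      rw [← ho] at h ⊢
      have h3 : l ≤ (∑ i ∈ s, a i * ordL L (y i)) + o := by exact_mod_cast h
      have h4 : l - ∑ i ∈ s, a i * ordL L (y i) ≤ o := by omega
      exact_mod_cast h4

theorem coeff_arc {L : ℕ} (c : Fin L → κ) (μ : Fin L) : PowerSeries.coeff (μ : ℕ) (arc c) = c μ := by
  simp [arc]

theorem eq_zero_of_lt_ordL {L : ℕ} (c : Fin L → κ) (μ : Fin L) (h : (μ : ℕ) < ordL L (arc c)) :
    c μ = 0 := by
  rw [← coeff_arc c μ]
  exact (PowerSeries.X_pow_dvd_iff.1 (ordL_dvd L (arc c))) μ h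

end ord

section tauj

variable {k κ : Type} [Field k] [Field κ] [Algebra k κ]

/-- the transcendence degree is at most the number of the coordinates outside of which all
coordinates are algebraic over the others -/
theorem tau_le_card_of {J : Type} [Fintype J] (x : J → κ) (S : Finset J)
    (h : ∀ j, j ∉ S → x j ∈ (AlgebraicIndependent.matroid k κ).closure (x '' (S : Set J))) :
    tau k x ≤ S.card := by
  classical
  have h1 : tau k x ≤ tau k (fun j : S => x j) := by
    apply tau_le_of_closure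
    intro j
    have hr : Set.range (fun j : S => x j) = x '' (S : Set J) := by
      ext y
      simp
    rw [hr]
    by_cases hj : j ∈ S
    · exact (AlgebraicIndependent.matroid k κ).mem_closure_of_mem ⟨j, hj, rfl⟩ (Set.subset_univ _)
    · exact h j hj
  have h2 := tau_le_card (K := k) (fun j : S => x j)
  rw [Nat.card_eq_fintype_card, Fintype.card_coe] at h2
  exact h1.trans h2

theorem zero_mem_closure (s : Set κ) : (0 : κ) ∈ (AlgebraicIndependent.matroid k κ).closure s :=
  mem_closure_of_adjoin (Subalgebra.zero_mem _)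

/-- `tauJ ≤ v L - ∑ ord` -/
theorem tauJ_add_ord_le {V : Type} [Fintype V] {L : ℕ} (x : V → Fin L → κ) :
    tauJ k x + ∑ i, ordL L (arc (x i)) ≤ Fintype.card V * L := by
  classical
  unfold tauJ
  rw [tau_eq]
  have h1 := tau_le_card_of (k := k) (fun p : V × Fin L => x p.1 p.2)
    (Finset.univ.filter fun p : V × Fin L => ordL L (arc (x p.1)) ≤ (p.2 : ℕ)) (by
      intro p hp
      rw [Finset.mem_filter, not_and, not_le] at hp
      have := hp (Finset.mem_univ _)
      rw [eq_zero_of_lt_ordL (x p.1) p.2 this]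
      exact zero_mem_closure _)
  have h2 : (Finset.univ.filter fun p : V × Fin L => ordL L (arc (x p.1)) ≤ (p.2 : ℕ)).card =
      ∑ i : V, (L - ordL L (arc (x i))) := by
    rw [Finset.card_filter, Fintype.sum_prod_type]
    apply Finset.sum_congr rfl
    intro i _
    rw [← Finset.card_filter]
    have h3 : (Finset.univ.filter fun μ : Fin L => ordL L (arc (x i)) ≤ (μ : ℕ)).card =
        (Finset.Ico (ordL L (arc (x i))) L).card := by
      apply Finset.card_bij (fun (μ : Fin L) _ => (μ : ℕ))
      · intro μ hμ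
        rw [Finset.mem_filter] at hμ
        exact Finset.mem_Ico.2 ⟨hμ.2, μ.2⟩
      · intro a _ b _ hab
        exact Fin.ext hab
      · intro b hb
        rw [Finset.mem_Ico] at hb
        exact ⟨⟨b, hb.2⟩, Finset.mem_filter.2 ⟨Finset.mem_univ _, hb.1⟩, rfl⟩
    rw [h3, Nat.card_Ico]
  rw [h2] at h1
  have h4 : ∑ i : V, (L - ordL L (arc (x i))) + ∑ i, ordL L (arc (x i)) = Fintype.card V * L := by
    rw [← Finset.sum_add_distrib]
    have : ∀ i ∈ Finset.univ, (L - ordL L (arc (x i)) + ordL L (arc (x i))) = L := fun i _ =>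
      Nat.sub_add_cancel (ordL_le _ _)
    rw [Finset.sum_congr rfl this, Finset.sum_const, Finset.card_univ, smul_eq_mul]
  omega

end tauj

/-- uniqueness of balanced digits -/
theorem digits_zero (B : ℤ) (n : ℕ) : ∀ (δ : Fin n → ℤ), (∀ i, |δ i| < B) →
    ∑ i, δ i * B ^ (i : ℕ) = 0 → ∀ i, δ i = 0 := by
  induction n with
  | zero => intro δ _ _ i; exact i.elim0
  | succ n ih =>
    intro δ hδ h
    rw [Fin.sum_univ_succ] at h
    simp only [Fin.val_zero, pow_zero, mul_one, Fin.val_succ] at h
    have h1 : ∑ i : Fin n, δ i.succ * B ^ ((i : ℕ) + 1) = B * ∑ i : Fin n, δ i.succ * B ^ (i : ℕ) := by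
      rw [Finset.mul_sum]
      apply Finset.sum_congr rfl
      intro i _
      ring
    rw [h1] at h
    have hB : 0 < B := lt_of_le_of_lt (abs_nonneg _) (hδ 0)
    have h2 : B ∣ δ 0 := ⟨-∑ i : Fin n, δ i.succ * B ^ (i : ℕ), by linarith⟩
    have h3 : δ 0 = 0 := Int.eq_zero_of_abs_lt_dvd h2 (hδ 0)
    have h4 : ∑ i : Fin n, δ i.succ * B ^ (i : ℕ) = 0 := by
      rw [h3, zero_add] at h
      rcases mul_eq_zero.1 h with h5 | h5
      · omega
      · exact h5
    intro i
    refine Fin.cases h3 (fun i => ?_) i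
    exact ih (fun i => δ i.succ) (fun i => hδ _) h4 i

section shift

theorem slc_map_le {k M N : Type*} [Field k] [AddCommGroup M] [Module k M] [AddCommGroup N]
    [Module k N] (f : M →ₗ[k] N) (W : Submodule k M) [Module.Finite k W] (W' : Submodule k N)
    (h : W' ≤ W.map f) : Module.finrank k W' ≤ Module.finrank k W :=
  (Submodule.finrank_mono h).trans (Submodule.finrank_map_le f _)

variable {k κ : Type} [Field k] [Field κ] [Algebra k κ]

theorem ev_rename {V B : Type} {L : ℕ} (x : V → Fin L → κ) (ι : B → V) (E : MvPolynomial B k) :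
    ev x (rename ι E) = ev (fun b => x (ι b)) E := by
  unfold ev
  rw [aeval_rename]
  rfl

theorem FM_shift {V B : Type} {L : ℕ} (x : V → Fin L → κ) (ι : B → V) (a : V →₀ ℕ)
    (M : Set (V →₀ ℕ)) (MB : Set (B →₀ ℕ)) [Finite MB] (l l' : ℕ)
    (hM : ∀ d ∈ M, ∃ β ∈ MB, d = a + Finsupp.mapDomain ι β)
    (hl : ∀ E : MvPolynomial B k, (PowerSeries.X : PowerSeries κ) ^ l ∣
      ev x (monomial a 1 : MvPolynomial V k) * ev (fun b => x (ι b)) E →
      (PowerSeries.X : PowerSeries κ) ^ l' ∣ ev (fun b => x (ι b)) E) :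
    Module.finrank k (FM k x M l) ≤ Module.finrank k (FM k (fun b => x (ι b)) MB l') := by
  classical
  have hfd := FM_finite (k := k) (fun b => x (ι b)) MB l'
  let f : MvPolynomial B k →ₗ[k] MvPolynomial V k :=
    (LinearMap.mulLeft k (monomial a (1 : k))).comp (rename ι).toLinearMap
  apply slc_map_le f
  · intro P hP
    have hP' := mem_FM.1 hP
    choose! β hβ1 hβ2 using hM
    obtain ⟨E, hEdef⟩ : ∃ E : MvPolynomial B k, E = ∑ d ∈ P.support, monomial (β d) (coeff d P) :=
      ⟨_, rfl⟩
    have hE : monomial a 1 * rename ι E = P := by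
      rw [hEdef]
      simp only [map_sum, rename_monomial]
      conv_rhs => rw [P.as_sum]
      rw [Finset.mul_sum]
      apply Finset.sum_congr rfl
      intro d hd
      rw [monomial_mul, one_mul, ← hβ2 d (hP'.1 d hd)]
    have hsupp : ∀ d ∈ E.support, d ∈ MB := by
      intro d hd
      rw [hEdef] at hd
      have h2 := (MvPolynomial.support_sum (s := P.support)
        (f := fun d => monomial (β d) (coeff d P))) hd
      rw [Finset.mem_biUnion] at h2
      obtain ⟨d', hd', h3⟩ := h2
      have h4 := support_monomial_subset h3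
      rw [Finset.mem_singleton] at h4
      rw [h4]
      exact hβ1 d' (hP'.1 d' hd')
    have h5 : ev x P = ev x (monomial a 1 : MvPolynomial V k) * ev (fun b => x (ι b)) E := by
      rw [← hE, ev_mul, ev_rename]
    have h6 := hl E (by rw [← h5]; exact hP'.2)
    exact ⟨E, mem_FM.2 ⟨hsupp, h6⟩, hE⟩

end shift

end Pool.Agent.Lib_helper56.KSS
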