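import Pool.Agent.Lib_helper56.KSS.GF

/-! Log canonicity of generic forms. -/

namespace Pool.Agent.Lib_helper56.KSS

open MvPolynomial Pool.Agent.KSS

/-- transcendence degree is bounded by the linear dimension -/
theorem tau_le_finrank {k κ J : Type} [Field k] [Field κ] [Algebra k κ] [Finite J] (z : J → κ) :
    tau k z ≤ Module.finrank k (Submodule.span k (Set.range z)) := by
  have hfin : Module.Finite k (Submodule.span k (Set.range z)) :=
    Module.Finite.span_of_finite k (Set.finite_range z)
  let b := Module.finBasis k (Submodule.span k (Set.range z))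
  have h1 : tau k z ≤ tau k (fun i => (b i : κ)) := by
    apply tau_le_of_closure
    intro j
    apply mem_closure_of_adjoin
    have h2 : z j ∈ Submodule.span k (Set.range fun i => (b i : κ)) := by
      have h3 : (⟨z j, Submodule.subset_span ⟨j, rfl⟩⟩ : Submodule.span k (Set.range z)) ∈
          Submodule.span k (Set.range b) := by
        rw [b.span_eq]; trivial
      have h4 := Submodule.mem_map_of_mem (f := Submodule.subtype _) h3
      rw [Submodule.map_span, ← Set.range_comp] at h4
      exact h4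
    have h5 : Submodule.span k (Set.range fun i => (b i : κ)) ≤
        Subalgebra.toSubmodule (Algebra.adjoin k (Set.range fun i => (b i : κ))) := by
      rw [Submodule.span_le]
      exact Algebra.subset_adjoin
    exact h5 h2
  have h6 := tau_le_card (K := k) (fun i => (b i : κ))
  rw [Nat.card_eq_fintype_card, Fintype.card_fin] at h6
  exact h1.trans h6

/-- a point on `a` independent hyperplanes -/
theorem tau_add_le_of_forms {k κ : Type} [Field k] [Field κ] [Algebra k κ] {v a : ℕ}
    (z : Fin v → κ) (u : Fin a → (Fin v → k)) (hu : LinearIndependent k u)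
    (hz : ∀ s, ∑ j, u s j • z j = 0) : tau k z + a ≤ v := by
  let f : (Fin v → k) →ₗ[k] κ := Fintype.linearCombination k z
  have h1 := f.finrank_range_add_finrank_ker
  rw [Module.finrank_fin_fun] at h1
  have h2 : LinearMap.range f = Submodule.span k (Set.range z) := Fintype.range_linearCombination k z
  rw [h2] at h1
  have h3 := slc_card_le (LinearMap.ker f) u hu (fun s => by
    rw [LinearMap.mem_ker, Fintype.linearCombination_apply]
    exact hz s)
  rw [Fintype.card_fin] at h3
  have h4 := tau_le_finrank (k := k) z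
  omega

theorem vandermonde_indep {k : Type} [Field k] {v a : ℕ} (hav : a ≤ v) (t : Fin a → k)
    (ht : Function.Injective t) : LinearIndependent k (fun s => fun j : Fin v => t s ^ (j : ℕ)) := by
  rw [Fintype.linearIndependent_iff]
  intro c hc
  have h1 : c = 0 := by
    apply Matrix.eq_zero_of_forall_pow_sum_mul_pow_eq_zero ht
    intro i
    have := congrFun hc (Fin.castLE hav i)
    simpa using this
  intro i
  rw [h1]
  rfl

/-- `tau` of a family is at most the sum of the `tau` of the levels -/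
theorem tau_levels {k κ V : Type} [Field k] [Field κ] [Algebra k κ] [Finite V] {L : ℕ}
    (x : V → Fin L → κ) :
    tau k (fun p : V × Fin L => x p.1 p.2) ≤ ∑ μ : Fin L, tau k (fun i => x i μ) := by
  classical
  have h1 : ∀ s : Finset (Fin L), (AlgebraicIndependent.matroid k κ).eRk
      (⋃ μ ∈ s, Set.range fun i => x i μ) ≤ ((∑ μ ∈ s, tau k (fun i => x i μ) : ℕ) : ℕ∞) := by
    intro s
    induction s using Finset.induction_on with
    | empty => simp
    | insert a s ha ih =>
      rw [Finset.set_biUnion_insert, Finset.sum_insert ha, Nat.cast_add, coe_tau]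
      exact ((AlgebraicIndependent.matroid k κ).eRk_union_le_eRk_add_eRk _ _).trans
        (add_le_add_right ih _)
  have h2 := h1 Finset.univ
  have h3 : (⋃ μ ∈ (Finset.univ : Finset (Fin L)), Set.range fun i => x i μ) =
      Set.range (fun p : V × Fin L => x p.1 p.2) := by
    ext y
    simp only [Finset.mem_univ, Set.iUnion_true, Set.mem_iUnion, Set.mem_range, Prod.exists]
    exact exists_comm
  rw [h3, ← coe_tau] at h2
  exact_mod_cast h2

/-- a product has order at most the sum -/
theorem ordL_prod_le {κ ι : Type} [Field κ] (s : Finset ι) (L : ℕ) (f : ι → PowerSeries κ) :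
    ordL L (∏ i ∈ s, f i) ≤ ∑ i ∈ s, ordL L (f i) := by
  have h1 := dvd_of_mul_prod s f (fun _ => 1) 1 (ordL_le L (∏ i ∈ s, f i)) (by
    simp only [pow_one, mul_one]
    exact ordL_dvd L _)
  simp only [one_mul] at h1
  rw [PowerSeries.X_pow_dvd_iff] at h1
  by_contra hcon
  have h2 := h1 0 (by omega)
  rw [PowerSeries.coeff_zero_eq_constantCoeff_apply, map_one] at h2
  exact one_ne_zero h2

/-- the linear form with coefficients `t^j` -/
noncomputable def vform (R : Type) [CommRing R] (v : ℕ) (t : R) : MvPolynomial (Fin v) R :=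
  ∑ j : Fin v, C (t ^ (j : ℕ)) * X j

theorem vform_homog (R : Type) [CommRing R] (v : ℕ) (t : R) : (vform R v t).IsHomogeneous 1 := by
  unfold vform
  apply IsHomogeneous.sum
  intro j _
  have := (isHomogeneous_C (Fin v) (t ^ (j : ℕ))).mul (isHomogeneous_X R j)
  rwa [zero_add] at this

theorem map_vform {R S : Type} [CommRing R] [CommRing S] (f : R →+* S) (v : ℕ) (t : R) :
    MvPolynomial.map f (vform R v t) = vform S v (f t) := by
  unfold vform
  simp

theorem coeff_ev_vform {k κ : Type} [Field k] [Field κ] [Algebra k κ] {v L : ℕ}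
    (x : Fin v → Fin L → κ) (t : k) (μ : Fin L) :
    PowerSeries.coeff (μ : ℕ) (ev x (vform k v t)) = ∑ j : Fin v, (t ^ (j : ℕ)) • x j μ := by
  unfold ev vform
  rw [map_sum, map_sum]
  apply Finset.sum_congr rfl
  intro j _
  rw [map_mul, aeval_X, aeval_C, PowerSeries.algebraMap_apply, PowerSeries.coeff_C_mul, coeff_arc,
    Algebra.smul_def]

/-- (LC) log canonicity. -/
theorem lc_lemma {p : ℕ} (d : Fin p → ℕ) (v : ℕ) (c : Fin p → ℝ)
    (hc0 : ∀ i, 0 ≤ c i) (hc1 : ∀ i, c i ≤ 1) (hc : ∑ i, c i * d i ≤ v)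
    (k : Type) [Field k] [CharZero k] (G : Fin p → MvPolynomial (Fin v) k) (hG : Gen d G)
    (κ : Type) [Field κ] [Algebra k κ] (L : ℕ) (x : Fin v → Fin L → κ) :
    ∑ i, c i * (ordL L (ev x (G i)) : ℝ) ≤ (v : ℝ) * L - tauJ k x := by
  classical
  -- distinct integers
  let Λ : Type := Σ i : Fin p, Fin (d i)
  let t : Λ → ℤ := fun l => ((Fintype.equivFin Λ l : ℕ) : ℤ)
  have ht : Function.Injective t := by
    intro a b hab
    apply (Fintype.equivFin Λ).injective
    apply Fin.ext
    have hab' : ((Fintype.equivFin Λ a : ℕ) : ℤ) = ((Fintype.equivFin Λ b : ℕ) : ℤ) := hab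
    exact_mod_cast hab'
  have hprod : ∀ (R : Type) [CommRing R] (t' : Λ → R) (i : Fin p),
      (∏ l : Fin (d i), vform R v (t' ⟨i, l⟩)).IsHomogeneous (d i) := by
    intro R _ t' i
    have := IsHomogeneous.prod (Finset.univ : Finset (Fin (d i)))
      (fun l => vform R v (t' ⟨i, l⟩)) (fun _ => 1) (fun l _ => vform_homog R v _)
    simpa using this
  obtain ⟨O, GO, g, hch, hg, hGO1, hGO2, hGO3⟩ := gen_special d G hG (ι' := Empty)
    (fun e => C (coeff e.2.1 (∏ l : Fin (d e.1), vform ℤ v (t ⟨e.1, l⟩)))) (fun b => b.elim)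
    (fun b => b.elim)
  obtain ⟨k1, hk1⟩ : ∃ k1, k1 = IsLocalRing.ResidueField O := ⟨_, rfl⟩
  have hred : ∀ i, MvPolynomial.map (IsLocalRing.residue O) (GO i) =
      ∏ l : Fin (d i), vform (IsLocalRing.ResidueField O) v ((t ⟨i, l⟩ : ℤ) : IsLocalRing.ResidueField O) := by
    intro i
    apply hom_ext_coeff (homog_map _ (hGO2 i)) (hprod _ (fun l => ((t l : ℤ) :
      IsLocalRing.ResidueField O)) i)
    intro α hα
    rw [hGO3 i α hα, aeval_C]
    have h1 : (∏ l : Fin (d i), vform (IsLocalRing.ResidueField O) v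
        ((t ⟨i, l⟩ : ℤ) : IsLocalRing.ResidueField O)) =
        MvPolynomial.map (Int.castRingHom (IsLocalRing.ResidueField O))
          (∏ l : Fin (d i), vform ℤ v (t ⟨i, l⟩)) := by
      rw [map_prod]
      apply Finset.prod_congr rfl
      intro l _
      rw [map_vform]
      rfl
    rw [h1, coeff_map]
    rfl
  obtain ⟨F0, i1, i2, x0, h1, h2⟩ := SLJ (K := k) (IsLocalRing.residue O)
    IsLocalRing.residue_surjective (fun _ : Fin v => 1) (fun _ => one_pos) x
  have hord : ∀ i, ordL L (ev x (G i)) ≤ ∑ l : Fin (d i), ordL L (ev x0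
      (vform (IsLocalRing.ResidueField O) v ((t ⟨i, l⟩ : ℤ) : IsLocalRing.ResidueField O))) := by
    intro i
    have h3 := h2 (GO i) (d i) (hGO2 i) (ordL L (ev x (G i))) (ordL_le _ _) (by
      rw [hGO1]
      exact ordL_dvd _ _)
    rw [dvd_iff_le_ordL (ordL_le _ _), hred] at h3
    apply h3.trans
    have h4 : ev x0 (∏ l : Fin (d i), vform (IsLocalRing.ResidueField O) v
        ((t ⟨i, l⟩ : ℤ) : IsLocalRing.ResidueField O)) = ∏ l : Fin (d i), ev x0
        (vform (IsLocalRing.ResidueField O) v ((t ⟨i, l⟩ : ℤ) : IsLocalRing.ResidueField O)) := by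
      unfold ev
      rw [map_prod]
    rw [h4]
    exact ordL_prod_le _ _ _
  -- the sets of linear forms vanishing at the levels
  obtain ⟨o, ho⟩ : ∃ o : Λ → ℕ, o = fun l => ordL L (ev x0
      (vform (IsLocalRing.ResidueField O) v ((t l : ℤ) : IsLocalRing.ResidueField O))) := ⟨_, rfl⟩
  have hoL : ∀ l, o l ≤ L := by intro l; rw [ho]; exact ordL_le _ _
  let A : Fin L → Finset Λ := fun μ => Finset.univ.filter fun l => (μ : ℕ) < o l
  have hlev : ∀ μ : Fin L, tau (IsLocalRing.ResidueField O) (fun i => x0 i μ) + min v (A μ).card ≤ v := by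
    intro μ
    obtain ⟨S, hS1, hS2⟩ := Finset.exists_subset_card_eq (min_le_right v (A μ).card)
    let e : Fin (min v (A μ).card) → Λ := fun s => ((S.equivFin.trans (finCongr hS2)).symm s : Λ)
    have he : Function.Injective e := by
      intro a b hab
      exact (S.equivFin.trans (finCongr hS2)).symm.injective (Subtype.ext hab)
    have heS : ∀ s, e s ∈ A μ := fun s => hS1 ((S.equivFin.trans (finCongr hS2)).symm s).2
    apply tau_add_le_of_forms (fun i => x0 i μ)
      (fun s => fun j : Fin v => ((t (e s) : ℤ) : IsLocalRing.ResidueField O) ^ (j : ℕ))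
      (vandermonde_indep (min_le_left _ _) _ (by
        intro a b hab
        apply he
        apply ht
        have hab' : ((t (e a) : ℤ) : IsLocalRing.ResidueField O) =
          ((t (e b) : ℤ) : IsLocalRing.ResidueField O) := hab
        exact_mod_cast hab'))
    intro s
    have h5 : (μ : ℕ) < o (e s) := (Finset.mem_filter.1 (heS s)).2
    rw [ho] at h5
    have h6 := (PowerSeries.X_pow_dvd_iff.1 (ordL_dvd L _)) μ h5
    rw [coeff_ev_vform] at h6
    exact h6
  have htau : tauJ (IsLocalRing.ResidueField O) x0 + ∑ μ, min v (A μ).card ≤ v * L := by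
    have h3 := tau_levels (k := IsLocalRing.ResidueField O) x0
    have h4 : tauJ (IsLocalRing.ResidueField O) x0 = tau (IsLocalRing.ResidueField O)
      (fun p : Fin v × Fin L => x0 p.1 p.2) := by
      unfold tauJ
      rw [tau_eq]
    rw [h4]
    have h5 : ∑ μ : Fin L, (tau (IsLocalRing.ResidueField O) (fun i => x0 i μ) + min v (A μ).card) ≤
        ∑ _μ : Fin L, v := Finset.sum_le_sum fun μ _ => hlev μ
    rw [Finset.sum_add_distrib, Finset.sum_const, Finset.card_univ, Fintype.card_fin, smul_eq_mul,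
      Nat.mul_comm] at h5
    omega
  -- the weighted count
  have hcount : ∀ μ : Fin L, ∑ l ∈ A μ, c l.1 ≤ ((min v (A μ).card : ℕ) : ℝ) := by
    intro μ
    rw [Nat.cast_min]
    apply le_min
    · calc ∑ l ∈ A μ, c l.1 ≤ ∑ l : Λ, c l.1 :=
            Finset.sum_le_sum_of_subset_of_nonneg (Finset.subset_univ _) (fun l _ _ => hc0 _)
        _ = ∑ i, c i * d i := by
            rw [Fintype.sum_sigma]
            apply Finset.sum_congr rfl
            intro i _
            change ∑ _y : Fin (d i), c i = _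
            rw [Finset.sum_const, Finset.card_univ, Fintype.card_fin, nsmul_eq_mul, mul_comm]
        _ ≤ v := hc
    · calc ∑ l ∈ A μ, c l.1 ≤ ∑ l ∈ A μ, (1 : ℝ) := Finset.sum_le_sum fun l _ => hc1 _
        _ = (A μ).card := by simp
  have hsumo : ∑ l : Λ, c l.1 * (o l : ℝ) = ∑ μ : Fin L, ∑ l ∈ A μ, c l.1 := by
    have h3 : ∀ μ : Fin L, ∑ l ∈ A μ, c l.1 = ∑ l : Λ, if (μ : ℕ) < o l then c l.1 else 0 := by
      intro μ
      rw [Finset.sum_filter]
    rw [Finset.sum_congr rfl fun μ _ => h3 μ, Finset.sum_comm]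
    apply Finset.sum_congr rfl
    intro l _
    rw [← Finset.sum_filter, Finset.sum_const, nsmul_eq_mul, mul_comm]
    congr 1
    have h4 : (Finset.univ.filter fun μ : Fin L => (μ : ℕ) < o l).card = (Finset.range (o l)).card := by
      apply Finset.card_bij (fun (μ : Fin L) _ => (μ : ℕ))
      · intro μ hμ
        exact Finset.mem_range.2 (Finset.mem_filter.1 hμ).2
      · intro a _ b _ hab
        exact Fin.ext hab
      · intro b hb
        rw [Finset.mem_range] at hb
        exact ⟨⟨b, lt_of_lt_of_le hb (hoL l)⟩, Finset.mem_filter.2 ⟨Finset.mem_univ _, hb⟩, rfl⟩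
    rw [h4, Finset.card_range]
  have hfin1 : ∑ i, c i * (ordL L (ev x (G i)) : ℝ) ≤ ∑ l : Λ, c l.1 * (o l : ℝ) := by
    rw [Fintype.sum_sigma]
    apply Finset.sum_le_sum
    intro i _
    change _ ≤ ∑ y : Fin (d i), c i * (o ⟨i, y⟩ : ℝ)
    rw [← Finset.mul_sum]
    apply mul_le_mul_of_nonneg_left _ (hc0 i)
    have h3 := hord i
    rw [ho]
    exact_mod_cast h3
  have hfin2 : ∑ l : Λ, c l.1 * (o l : ℝ) ≤ ((∑ μ, min v (A μ).card : ℕ) : ℝ) := by
    rw [hsumo, Nat.cast_sum]
    exact Finset.sum_le_sum fun μ _ => hcount μ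
  have h7 : ((tauJ k x + ∑ μ, min v (A μ).card : ℕ) : ℝ) ≤ ((v * L : ℕ) : ℝ) := by
    have : tauJ k x + ∑ μ, min v (A μ).card ≤ v * L := by omega
    exact_mod_cast this
  rw [Nat.cast_add, Nat.cast_mul] at h7
  linarith

end Pool.Agent.Lib_helper56.KSS
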