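import Pool.Agent.Lib_helper56.KSS.SLB

/-! Specialisation lemma for points of affine spaces. -/

namespace Pool.Agent.Lib_helper56.KSS

open MvPolynomial

universe u v

section

theorem slc_finite {I : Type*} [Finite I] (w : I → ℕ) (hw : ∀ i, 0 < w i) (T : ℕ) :
    {d : I →₀ ℕ | Finsupp.weight w d ≤ T}.Finite := by
  apply Set.Finite.of_finite_image (f := fun d : I →₀ ℕ => (d : I → ℕ)) _
    DFunLike.coe_injective.injOn
  have := Fintype.ofFinite I
  classical
  apply (Set.finite_Iic (fun _ : I => T)).subset
  rintro _ ⟨d, hd, rfl⟩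
  rw [Set.mem_Iic]
  intro i
  have h1 : d i ≤ Finsupp.weight w d := by
    rw [Finsupp.weight_apply, Finsupp.sum]
    by_cases h : i ∈ d.support
    · have := Finset.single_le_sum (f := fun i => d i • w i) (fun _ _ => Nat.zero_le _) h
      have h2 := hw i
      simp only [smul_eq_mul] at this
      simp only [smul_eq_mul]
      nlinarith
    · rw [Finsupp.notMem_support_iff.1 h]; exact Nat.zero_le _
  exact h1.trans hd

theorem slc_degree_le {I : Type*} (w : I → ℕ) (hw : ∀ i, 0 < w i) (d : I →₀ ℕ) :
    (d.sum fun _ e => e) ≤ Finsupp.weight w d := by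
  rw [Finsupp.weight_apply, Finsupp.sum, Finsupp.sum]
  apply Finset.sum_le_sum
  intro i _
  rw [smul_eq_mul]
  exact Nat.le_mul_of_pos_right _ (hw i)

theorem slc_card (k : Type*) [Field k] {I : Type*} [Finite I] (B : Set (I →₀ ℕ)) :
    Module.finrank k (restrictSupport k B) = Nat.card B :=
  Module.finrank_eq_nat_card_basis (basisRestrictSupport k B)

/-- lower bound for the growth -/
theorem slc_lower {K : Type*} [Field K] {F : Type*} [Field F] [Algebra K F] {I : Type*} [Finite I]
    (w : I → ℕ) (x : I → F) (W : ℕ) (s : Finset I) (hW : ∑ i ∈ s, w i ≤ W)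
    (hs : AlgebraicIndependent K (fun i : s => x i)) (t : ℕ)
    (hfin : {d : I →₀ ℕ | Finsupp.weight w d ≤ t * W}.Finite) :
    (t + 1) ^ s.card ≤ Module.finrank K ((restrictSupport K {d : I →₀ ℕ | Finsupp.weight w d ≤ t * W}).map
      (aeval (R := K) (yv w x)).toLinearMap) := by
  classical
  -- exponents
  let D : (s → Fin (t + 1)) → (s →₀ ℕ) := fun e => Finsupp.equivFunOnFinite.symm fun i => (e i : ℕ)
  have hD : Function.Injective D := by
    intro e e' h
    funext i
    apply Fin.ext
    have := congrArg (fun d => d i) h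
    exact this
  let D' : (s → Fin (t + 1)) → (I →₀ ℕ) := fun e => Finsupp.mapDomain (Subtype.val) (D e)
  have hD' : ∀ e, Finsupp.weight w (D' e) ≤ t * W := by
    intro e
    have h1 : Finsupp.weight w (D' e) = ∑ i : s, (e i : ℕ) * w i := by
      simp only [D', D]
      rw [Finsupp.weight_apply, Finsupp.sum_mapDomain_index (by simp) (by intros; simp [add_mul]),
        Finsupp.sum_fintype _ _ (by simp)]
      apply Finset.sum_congr rfl
      intro i _
      rw [smul_eq_mul]
      rfl
    rw [h1]
    calc ∑ i : s, (e i : ℕ) * w i ≤ ∑ i : s, t * w i := by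
          apply Finset.sum_le_sum
          intro i _
          exact Nat.mul_le_mul_right _ (Nat.lt_succ_iff.1 (e i).2)
      _ = t * ∑ i : s, w i := by rw [Finset.mul_sum]
      _ ≤ t * W := by
          apply Nat.mul_le_mul_left
          rw [Finset.sum_coe_sort s w]
          exact hW
  have hmem : ∀ e, aeval (R := K) (yv w x) (monomial (D' e) 1) ∈
      (restrictSupport K {d : I →₀ ℕ | Finsupp.weight w d ≤ t * W}).map
      (aeval (R := K) (yv w x)).toLinearMap := by
    intro e
    refine ⟨monomial (D' e) 1, ?_, rfl⟩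
    rw [SetLike.mem_coe, monomial_mem_restrictSupport]
    left
    exact hD' e
  have hli : LinearIndependent K (fun e : s → Fin (t + 1) =>
      aeval (R := K) (yv w x) (monomial (D' e) 1)) := by
    let ev : Polynomial F →ₗ[K] F := (Polynomial.aeval (R := F) (1 : F)).toLinearMap.restrictScalars K
    apply LinearIndependent.of_comp ev
    have h1 : ∀ e, ev (aeval (R := K) (yv w x) (monomial (D' e) 1)) =
        aeval (fun i : s => x i) (monomial (D e) (1 : K)) := by
      intro e
      simp only [ev, LinearMap.coe_restrictScalars, AlgHom.toLinearMap_apply]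
      rw [aeval_monomial, aeval_monomial, map_one, one_mul, map_one, one_mul]
      simp only [D']
      rw [Finsupp.prod_mapDomain_index (by simp) (by intros; rw [pow_add]), map_finsuppProd]
      apply Finsupp.prod_congr
      intro i _
      simp [yv]
    have h2 : (ev ∘ fun e : s → Fin (t + 1) => aeval (R := K) (yv w x) (monomial (D' e) 1)) =
        fun e => (aeval (R := K) (fun i : s => x i)).toLinearMap (monomial (D e) (1 : K)) := by
      funext e
      exact h1 e
    rw [h2]
    have h3 : LinearIndependent K (fun e => monomial (D e) (1 : K)) := by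
      have := (basisMonomials s K).linearIndependent.comp D hD
      exact this
    exact h3.map' _ (LinearMap.ker_eq_bot_of_injective hs)
  have hli2 : LinearIndependent K (fun e : s → Fin (t + 1) =>
      (⟨aeval (R := K) (yv w x) (monomial (D' e) 1), hmem e⟩ :
        (restrictSupport K {d : I →₀ ℕ | Finsupp.weight w d ≤ t * W}).map
      (aeval (R := K) (yv w x)).toLinearMap)) := by
    apply LinearIndependent.of_comp (Submodule.subtype _)
    exact hli
  have hf1 : Finite {d : I →₀ ℕ | Finsupp.weight w d ≤ t * W} := hfin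
  have hfd : Module.Finite K (restrictSupport K {d : I →₀ ℕ | Finsupp.weight w d ≤ t * W}) :=
    Module.Finite.of_basis (basisRestrictSupport K _)
  have h4 := hli2.fintype_card_le_finrank
  rw [Fintype.card_fun, Fintype.card_fin, Fintype.card_coe] at h4
  exact h4

end

/-- comparison of growth functions -/
theorem slc_compare (τ s C A : ℕ) (h : ∀ t : ℕ, (t + 1) ^ τ ≤ C * (t * A + 1) ^ s) : τ ≤ s := by
  by_contra hlt
  push Not at hlt
  obtain ⟨r, rfl⟩ := Nat.exists_eq_add_of_lt hlt
  have h1 := h (C * (A + 1) ^ s)
  set t := C * (A + 1) ^ s with ht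
  have h2 : (t * A + 1) ^ s ≤ ((A + 1) * (t + 1)) ^ s := by
    apply Nat.pow_le_pow_left
    nlinarith
  have h3 : (t + 1) ^ (s + r + 1) ≤ t * (t + 1) ^ s := by
    calc (t + 1) ^ (s + r + 1) ≤ C * (t * A + 1) ^ s := h1
      _ ≤ C * ((A + 1) * (t + 1)) ^ s := Nat.mul_le_mul_left _ h2
      _ = t * (t + 1) ^ s := by rw [mul_pow, ht]; ring
  have h4 : (t + 1) ^ (s + r + 1) = (t + 1) ^ s * (t + 1) ^ r * (t + 1) := by ring
  rw [h4] at h3
  have h5 : 0 < (t + 1) ^ s := by positivity
  have h6 : 1 ≤ (t + 1) ^ r := Nat.one_le_pow _ _ (by omega)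
  have h7 : (t + 1) ^ s * (t + 1) ≤ (t + 1) ^ s * (t + 1) ^ r * (t + 1) := by
    nlinarith [Nat.mul_le_mul_left ((t + 1) ^ s * (t + 1)) h6]
  nlinarith

theorem slc_rank {k M N : Type*} [Field k] [AddCommGroup M] [Module k M] [AddCommGroup N]
    [Module k N] (f : M →ₗ[k] N) (V : Submodule k M) [Module.Finite k V] :
    Module.finrank k (V.map f) + Module.finrank k (V ⊓ LinearMap.ker f : Submodule k M) =
      Module.finrank k V := by
  have h1 := (f.domRestrict V).finrank_range_add_finrank_ker
  rw [LinearMap.range_domRestrict] at h1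
  have h2 : Module.finrank k (LinearMap.ker (f.domRestrict V)) =
      Module.finrank k (V ⊓ LinearMap.ker f : Submodule k M) := by
    have h3 : LinearMap.ker (f.domRestrict V) = (LinearMap.ker f).comap V.subtype := by
      ext v
      simp
    rw [h3, ← Submodule.map_comap_subtype]
    exact (LinearEquiv.finrank_eq (Submodule.equivSubtypeMap V _))
  rw [h2] at h1
  exact h1

/-- comparison of dimensions, abstract form -/
theorem slc_card_le {k M : Type*} [Field k] [AddCommGroup M] [Module k M] (V : Submodule k M)
    [Module.Finite k V] {ι : Type*} [Fintype ι] (v : ι → M) (hv : LinearIndependent k v)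
    (h : ∀ j, v j ∈ V) : Fintype.card ι ≤ Module.finrank k V := by
  have h1 : LinearIndependent k (fun j => (⟨v j, h j⟩ : V)) := by
    apply LinearIndependent.of_comp (Submodule.subtype V)
    exact hv
  exact h1.fintype_card_le_finrank

theorem slc_basis {k M : Type*} [Field k] [AddCommGroup M] [Module k M] (V : Submodule k M)
    [Module.Finite k V] : ∃ v : Fin (Module.finrank k V) → M, LinearIndependent k v ∧ ∀ j, v j ∈ V := by
  let b := Module.finBasis k V
  refine ⟨fun j => b j, ?_, fun j => (b j).2⟩
  have := b.linearIndependent.map' (Submodule.subtype V) (Submodule.ker_subtype V)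
  exact this

/-- comparison of dimensions of the special and the generic fibre -/
theorem slc_dim {O : Type*} [CommRing O] [IsDomain O] [ValuationRing O] {K : Type*} [Field K]
    [Algebra O K] [IsFractionRing O K] {k1 : Type*} [Field k1] (π : O →+* k1)
    {F : Type*} [Field F] [Algebra K F] {I : Type*} [Finite I]
    (w : I → ℕ) (hw : ∀ i, 0 < w i) (x : I → F) (J : Ideal (MvPolynomial I k1))
    (hJ : ∀ q ∈ J, ∃ P : MvPolynomial I O, aeval (yv w x) (MvPolynomial.map (algebraMap O K) P) = 0 ∧
      MvPolynomial.map π P = q) (T : ℕ) :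
    Module.finrank K ((restrictSupport K {d : I →₀ ℕ | Finsupp.weight w d ≤ T}).map
      (aeval (R := K) (yv w x)).toLinearMap) ≤
    Module.finrank k1 ((restrictSupport k1 {d : I →₀ ℕ | Finsupp.weight w d ≤ T}).map
      (Ideal.Quotient.mkₐ k1 J).toLinearMap) := by
  obtain ⟨B, hBdef⟩ : ∃ B, B = {d : I →₀ ℕ | Finsupp.weight w d ≤ T} := ⟨_, rfl⟩
  have hBmem : ∀ d, d ∈ B ↔ Finsupp.weight w d ≤ T := by
    intro d; rw [hBdef]; rfl
  rw [← hBdef]
  have hB : Finite B := by rw [hBdef]; exact slc_finite w hw T
  have hfdK : Module.Finite K (restrictSupport K B) := Module.Finite.of_basis (basisRestrictSupport K B)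
  have hfd1 : Module.Finite k1 (restrictSupport k1 B) :=
    Module.Finite.of_basis (basisRestrictSupport k1 B)
  have hK := slc_rank (aeval (R := K) (yv w x)).toLinearMap (restrictSupport K B)
  have h1 := slc_rank (Ideal.Quotient.mkₐ k1 J).toLinearMap (restrictSupport k1 B)
  rw [slc_card] at hK h1
  have hfk : Module.Finite k1 (restrictSupport k1 B ⊓ LinearMap.ker
      (Ideal.Quotient.mkₐ k1 J).toLinearMap : Submodule k1 (MvPolynomial I k1)) :=
    Submodule.finiteDimensional_inf_left _ _
  have hfK : Module.Finite K (restrictSupport K B ⊓ LinearMap.ker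
      (aeval (R := K) (yv w x)).toLinearMap : Submodule K (MvPolynomial I K)) :=
    Submodule.finiteDimensional_inf_left _ _
  have hker : Module.finrank k1 (restrictSupport k1 B ⊓ LinearMap.ker
      (Ideal.Quotient.mkₐ k1 J).toLinearMap : Submodule k1 (MvPolynomial I k1)) ≤
      Module.finrank K (restrictSupport K B ⊓ LinearMap.ker
      (aeval (R := K) (yv w x)).toLinearMap : Submodule K (MvPolynomial I K)) := by
    obtain ⟨b, hb1, hb2⟩ := slc_basis (restrictSupport k1 B ⊓ LinearMap.ker
      (Ideal.Quotient.mkₐ k1 J).toLinearMap : Submodule k1 (MvPolynomial I k1))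
    have hb : ∀ j, b j ∈ J := by
      intro j
      have h2 := (hb2 j).2
      exact Ideal.Quotient.eq_zero_iff_mem.1 h2
    choose P hP1 hP2 using fun j => hJ _ (hb j)
    have hP3 : ∀ j, MvPolynomial.map π (trn w T (P j)) = b j := by
      intro j
      rw [trn_map, hP2 j]
      apply trn_eq_self
      intro d hd
      exact (hBmem d).1 (((mem_restrictSupport_iff k1).1 (hb2 j).1) hd)
    have hli1 : LinearIndependent k1 (fun j => MvPolynomial.map π (trn w T (P j))) := by
      have h2 : (fun j => MvPolynomial.map π (trn w T (P j))) = b := by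
        funext j
        rw [hP3]
      rw [h2]
      exact hb1
    have hli2 := lift_indep (K := K) π (fun j => trn w T (P j)) hli1
    have h4 := slc_card_le (restrictSupport K B ⊓ LinearMap.ker
      (aeval (R := K) (yv w x)).toLinearMap : Submodule K (MvPolynomial I K)) _ hli2 (fun j => ⟨by
        rw [SetLike.mem_coe, mem_restrictSupport_iff]
        intro d hd
        rw [Finset.mem_coe, mem_support_iff, trn_map, coeff_trn] at hd
        rw [hBmem]
        by_contra hcon
        exact hd (if_neg hcon), by
        rw [trn_map]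
        exact aeval_yv_trn w x T _ (hP1 j)⟩)
    rw [Fintype.card_fin] at h4
    exact h4
  omega

/-- The specialisation lemma. -/
theorem SL {O : Type*} [CommRing O] [IsDomain O] [ValuationRing O] {K : Type*} [Field K]
    [Algebra O K] [IsFractionRing O K] {k1 : Type u} [Field k1] (π : O →+* k1)
    (hπ : Function.Surjective π) {F : Type*} [Field F] [Algebra K F] {I : Type} [Finite I]
    (w : I → ℕ) (hw : ∀ i, 0 < w i) (x : I → F) :
    ∃ (F0 : Type u) (_ : Field F0) (_ : Algebra k1 F0) (x0 : I → F0),
      tau K x ≤ tau k1 x0 ∧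
      ∀ (P : MvPolynomial I O) (D : ℕ), IsWeightedHomogeneous w P D →
        aeval x (MvPolynomial.map (algebraMap O K) P) = 0 →
        aeval x0 (MvPolynomial.map π P) = 0 := by
  classical
  have := Fintype.ofFinite I
  have hred : Function.Surjective (MvPolynomial.map (σ := I) π) := MvPolynomial.map_surjective _ hπ
  let φ : MvPolynomial I O →+* Polynomial F :=
    (aeval (R := K) (yv w x)).toRingHom.comp (MvPolynomial.map (algebraMap O K))
  have hφ : ∀ P, φ P = aeval (yv w x) (MvPolynomial.map (algebraMap O K) P) := fun _ => rfl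
  obtain ⟨J, hJdef⟩ : ∃ J : Ideal (MvPolynomial I k1), J = (RingHom.ker φ).map (MvPolynomial.map π) :=
    ⟨_, rfl⟩
  have hmem : ∀ q, q ∈ J ↔ ∃ P, φ P = 0 ∧ MvPolynomial.map π P = q := by
    intro q
    rw [hJdef, Ideal.mem_map_iff_of_surjective _ hred]
    rfl
  have hJ : J ≠ ⊤ := by
    rw [Ne, Ideal.eq_top_iff_one, hmem]
    rintro ⟨P, hP1, hP2⟩
    have h1 : algebraMap O K (constantCoeff P) = 0 := by
      have h2 : (φ P).eval 0 = algebraMap K F (algebraMap O K (constantCoeff P)) := by
        rw [hφ]
        have h3 : ∀ R : MvPolynomial I K, (aeval (yv w x) R).eval 0 = algebraMap K F (constantCoeff R) := by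
          intro R
          induction R using MvPolynomial.induction_on with
          | C a => simp
          | add p q hp hq => rw [map_add, Polynomial.eval_add, hp, hq, map_add, map_add]
          | mul_X p i hp =>
            rw [map_mul, Polynomial.eval_mul, aeval_X, map_mul, constantCoeff_X, mul_zero, map_zero]
            have : (yv w x i).eval 0 = 0 := by
              simp [yv, (hw i).ne']
            rw [this, mul_zero]
        rw [h3, constantCoeff_map]
      rw [hP1, Polynomial.eval_zero] at h2
      exact (map_eq_zero (algebraMap K F)).1 h2.symm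
    have h4 : constantCoeff P = 0 := IsFractionRing.injective O K (by rw [h1, map_zero])
    have h5 : constantCoeff (MvPolynomial.map π P) = 0 := by
      rw [constantCoeff_map, h4, map_zero]
    rw [hP2, map_one] at h5
    exact one_ne_zero h5
  obtain ⟨s, ⟨Q, hQ, z, hJQ, hz⟩, C, hC⟩ := growth_upper J hJ
  obtain ⟨S, hS1, hS2⟩ := exists_tau (K := K) x
  have hdim : ∀ T : ℕ, Module.finrank K ((restrictSupport K {d : I →₀ ℕ | Finsupp.weight w d ≤ T}).map
      (aeval (R := K) (yv w x)).toLinearMap) ≤ C * (T + 1) ^ s := by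
    intro T
    have h0 := slc_dim (K := K) π w hw x J (fun q hq => (hmem q).1 hq) T
    have h5 : Module.finrank k1 ((restrictSupport k1 {d : I →₀ ℕ | Finsupp.weight w d ≤ T}).map
        (Ideal.Quotient.mkₐ k1 J).toLinearMap) ≤
        Module.finrank k1 ((restrictTotalDegree I k1 T).map (Ideal.Quotient.mkₐ k1 J).toLinearMap) := by
      apply Submodule.finrank_mono
      apply Submodule.map_mono
      apply restrictSupport_mono
      intro d hd
      exact (slc_degree_le w hw d).trans hd
    exact (h0.trans h5).trans (hC T)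
  have hτ : tau K x ≤ s := by
    rw [← hS1]
    apply slc_compare _ _ C (∑ i, w i)
    intro t
    have h1 := slc_lower w x (∑ i, w i) S (Finset.sum_le_sum_of_subset (Finset.subset_univ _)) hS2 t
      (slc_finite w hw _)
    exact h1.trans (hdim _)
  have h5 : (IsScalarTower.toAlgHom k1 (MvPolynomial I k1 ⧸ Q)
      (FractionRing (MvPolynomial I k1 ⧸ Q))).comp (Ideal.Quotient.mkₐ k1 Q) =
      aeval (fun i => algebraMap (MvPolynomial I k1 ⧸ Q)
        (FractionRing (MvPolynomial I k1 ⧸ Q)) (Ideal.Quotient.mk Q (X i))) := by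
    apply MvPolynomial.algHom_ext
    intro i
    simp
  refine ⟨FractionRing (MvPolynomial I k1 ⧸ Q), inferInstance, inferInstance,
    fun i => algebraMap _ _ (Ideal.Quotient.mk Q (X i)), ?_, ?_⟩
  · apply hτ.trans
    have hz2 : AlgebraicIndependent k1 (fun i => algebraMap (MvPolynomial I k1 ⧸ Q)
        (FractionRing (MvPolynomial I k1 ⧸ Q)) (Ideal.Quotient.mk Q (z i))) :=
      hz.map' (f := IsScalarTower.toAlgHom k1 _ _) (IsFractionRing.injective _ _)
    have h1 := card_le_tau (K := k1) (fun i => algebraMap (MvPolynomial I k1 ⧸ Q)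
      (FractionRing (MvPolynomial I k1 ⧸ Q)) (Ideal.Quotient.mk Q (X i))) _ hz2 (by
        intro j
        apply mem_closure_of_adjoin
        rw [Algebra.adjoin_range_eq_range_aeval]
        refine ⟨z j, ?_⟩
        rw [← h5]
        rfl)
    rw [Nat.card_eq_fintype_card, Fintype.card_fin] at h1
    exact h1
  · intro P D hP h0
    have h1 : φ P = 0 := by
      rw [hφ]
      apply aeval_yv_homog w x (D := D) _ h0
      intro d hd
      rw [coeff_map] at hd
      apply hP
      intro h
      rw [h, map_zero] at hd
      exact hd rfl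
    have h2 : MvPolynomial.map π P ∈ Q := hJQ ((hmem _).2 ⟨P, h1, rfl⟩)
    rw [← h5, AlgHom.comp_apply, Ideal.Quotient.mkₐ_eq_mk, Ideal.Quotient.eq_zero_iff_mem.2 h2, map_zero]

end Pool.Agent.Lib_helper56.KSS
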