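import Pool.Agent.Lib_helper56.KSS.Tau

/-! Specialisation lemma, part A: scaling over valuation rings, the weighted substitution. -/

namespace Pool.Agent.Lib_helper56.KSS

open MvPolynomial

section scale

variable {O : Type*} [CommRing O] [IsDomain O] [ValuationRing O] {K : Type*} [Field K]
  [Algebra O K] [IsFractionRing O K]

theorem exists_scale {ι : Type*} [Finite ι] (c : ι → K) (hc : c ≠ 0) :
    ∃ (a : K) (b : ι → O), a ≠ 0 ∧ (∀ i, algebraMap O K (b i) = a * c i) ∧ ∃ i, b i = 1 := by
  obtain ⟨i1, hi1⟩ := Function.ne_iff.1 hc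
  have : Nonempty ι := ⟨i1⟩
  obtain ⟨i0, hi0⟩ := Finite.exists_max fun i => ValuationRing.valuation O K (c i)
  have h0 : c i0 ≠ 0 := by
    intro h
    have h2 := hi0 i1
    simp only [h, map_zero, le_zero_iff, map_eq_zero] at h2
    exact hi1 h2
  have key : ∀ i, ∃ b : O, algebraMap O K b = (c i0)⁻¹ * c i := by
    intro i
    rw [← ValuationRing.mem_integer_iff, Valuation.mem_integer_iff, map_mul, map_inv₀]
    have h3 : ValuationRing.valuation O K (c i0) ≠ 0 := by
      rw [Ne, map_eq_zero]; exact h0
    calc (ValuationRing.valuation O K (c i0))⁻¹ * ValuationRing.valuation O K (c i)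
        ≤ (ValuationRing.valuation O K (c i0))⁻¹ * ValuationRing.valuation O K (c i0) := by
          gcongr
          exact hi0 i
      _ = 1 := inv_mul_cancel₀ h3
  choose b hb using key
  refine ⟨(c i0)⁻¹, b, inv_ne_zero h0, hb, i0, ?_⟩
  apply IsFractionRing.injective O K
  rw [hb, inv_mul_cancel₀ h0, map_one]

theorem lift_indep {k1 : Type*} [Field k1] (π : O →+* k1) {I ι : Type*} [Finite ι]
    (v : ι → MvPolynomial I O)
    (h : LinearIndependent k1 (fun j => MvPolynomial.map π (v j))) :
    LinearIndependent K (fun j => MvPolynomial.map (algebraMap O K) (v j)) := by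
  have := Fintype.ofFinite ι
  rw [Fintype.linearIndependent_iff] at h ⊢
  intro c hc
  by_contra hne
  have hc0 : c ≠ 0 := by
    intro h0
    exact hne fun i => congrFun h0 i
  obtain ⟨a, b, ha, hb, i1, hi1⟩ := exists_scale (O := O) c hc0
  have h1 : ∑ j, C (b j) * v j = 0 := by
    apply MvPolynomial.map_injective (algebraMap O K) (IsFractionRing.injective O K)
    rw [map_sum, map_zero]
    have : ∀ j, MvPolynomial.map (algebraMap O K) (C (b j) * v j)
        = a • (c j • MvPolynomial.map (algebraMap O K) (v j)) := by
      intro j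
      rw [map_mul, MvPolynomial.map_C, hb, smul_smul, MvPolynomial.smul_eq_C_mul]
    rw [Finset.sum_congr rfl fun j _ => this j, ← Finset.smul_sum, hc, smul_zero]
  have h2 : ∑ j, π (b j) • MvPolynomial.map π (v j) = 0 := by
    have := congrArg (MvPolynomial.map π) h1
    rw [map_sum, map_zero] at this
    rw [← this]
    apply Finset.sum_congr rfl
    intro j _
    rw [map_mul, MvPolynomial.map_C, MvPolynomial.smul_eq_C_mul]
  have h3 := h _ h2 i1
  rw [hi1, map_one] at h3
  exact one_ne_zero h3

end scale

section sub

variable {K : Type*} [CommRing K] {F : Type*} [CommRing F] [Algebra K F] {I : Type*}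

/-- the generically scaled point -/
noncomputable def yv (w : I → ℕ) (x : I → F) : I → Polynomial F :=
  fun i => Polynomial.C (x i) * Polynomial.X ^ (w i)

theorem coeff_aeval_yv (w : I → ℕ) (x : I → F) (P : MvPolynomial I K) (D : ℕ) :
    (aeval (yv w x) P).coeff D = aeval x (weightedHomogeneousComponent w D P) := by
  classical
  induction P using MvPolynomial.induction_on' with
  | monomial d a =>
    have h1 : aeval (yv w x) (monomial d a) =
        Polynomial.monomial (Finsupp.weight w d) (aeval x (monomial d a)) := by
      rw [aeval_monomial, aeval_monomial, ← Polynomial.C_mul_X_pow_eq_monomial]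
      have h2 : (d.prod fun i k => yv w x i ^ k) =
          Polynomial.C (d.prod fun i k => x i ^ k) * Polynomial.X ^ (Finsupp.weight w d) := by
        simp only [yv, Finsupp.prod, mul_pow, Finset.prod_mul_distrib, map_prod, map_pow]
        congr 1
        simp only [← pow_mul]
        rw [Finset.prod_pow_eq_pow_sum]
        congr 1
        rw [Finsupp.weight_apply, Finsupp.sum]
        exact Finset.sum_congr rfl fun i _ => by simp [mul_comm]
      rw [h2, map_mul, Polynomial.algebraMap_apply]
      ring
    rw [h1, Polynomial.coeff_monomial]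
    by_cases h : Finsupp.weight w d = D
    · rw [if_pos h, weightedHomogeneousComponent_eq_self]
      exact isWeightedHomogeneous_monomial w d a h
    · rw [if_neg h]
      have : weightedHomogeneousComponent w D (monomial d a) = 0 :=
        (isWeightedHomogeneous_monomial w d a rfl).weightedHomogeneousComponent_ne D (Ne.symm h)
      rw [this, map_zero]
  | add p q hp hq => rw [map_add, Polynomial.coeff_add, hp, hq, map_add, map_add]

/-- truncation in weighted degree -/
noncomputable def trn (w : I → ℕ) (T : ℕ) (P : MvPolynomial I K) : MvPolynomial I K :=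
  ∑ D ∈ Finset.range (T + 1), weightedHomogeneousComponent w D P

theorem coeff_trn (w : I → ℕ) (T : ℕ) (P : MvPolynomial I K) (d : I →₀ ℕ) :
    coeff d (trn w T P) = if Finsupp.weight w d ≤ T then coeff d P else 0 := by
  classical
  simp only [trn, coeff_sum, coeff_weightedHomogeneousComponent]
  rw [Finset.sum_ite_eq]
  simp only [Finset.mem_range, Nat.lt_succ_iff]

theorem trn_map {R : Type*} [CommRing R] (f : K →+* R) (w : I → ℕ) (T : ℕ) (P : MvPolynomial I K) :
    MvPolynomial.map f (trn w T P) = trn w T (MvPolynomial.map f P) := by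
  ext d
  rw [coeff_map, coeff_trn, coeff_trn, coeff_map]
  split_ifs <;> simp

theorem trn_eq_self (w : I → ℕ) (T : ℕ) (P : MvPolynomial I K)
    (h : ∀ d ∈ P.support, Finsupp.weight w d ≤ T) : trn w T P = P := by
  ext d
  rw [coeff_trn]
  split_ifs with hd
  · rfl
  · by_contra h1
    exact hd (h d (mem_support_iff.2 (Ne.symm h1)))

theorem aeval_yv_trn (w : I → ℕ) (x : I → F) (T : ℕ) (P : MvPolynomial I K)
    (h : aeval (yv w x) P = 0) : aeval (yv w x) (trn w T P) = 0 := by
  ext D
  rw [trn, map_sum, Polynomial.finsetSum_coeff, Polynomial.coeff_zero]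
  apply Finset.sum_eq_zero
  intro D' _
  rw [coeff_aeval_yv]
  by_cases hD : D = D'
  · subst hD
    rw [weightedHomogeneousComponent_eq_self
      (weightedHomogeneousComponent_isWeightedHomogeneous D P), ← coeff_aeval_yv, h,
      Polynomial.coeff_zero]
  · have : weightedHomogeneousComponent w D (weightedHomogeneousComponent w D' P) = 0 :=
      (weightedHomogeneousComponent_isWeightedHomogeneous D' P).weightedHomogeneousComponent_ne D hD
    rw [this, map_zero]

theorem aeval_yv_homog (w : I → ℕ) (x : I → F) {D : ℕ} {P : MvPolynomial I K}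
    (hP : IsWeightedHomogeneous w P D) (h : aeval x P = 0) : aeval (yv w x) P = 0 := by
  ext D'
  rw [coeff_aeval_yv, Polynomial.coeff_zero]
  by_cases hD : D' = D
  · subst hD
    rw [weightedHomogeneousComponent_eq_self hP, h]
  · rw [hP.weightedHomogeneousComponent_ne D' hD, map_zero]

end sub

end Pool.Agent.Lib_helper56.KSS
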