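import Pool.Agent.Lib_helper56.KSS.SLA

/-! Specialisation lemma, part B: upper bound for the growth of an affine algebra by
Noether normalisation. -/

namespace Pool.Agent.Lib_helper56.KSS

open MvPolynomial

section

variable {k : Type*} [Field k]

/-- span of monomials times generators -/
theorem slb_span {A : Type*} [CommRing A] [Algebra k A] {s m : ℕ}
    (g : MvPolynomial (Fin s) k →ₐ[k] A) (a : Fin m → A) (N : ℕ) (c : Fin m → MvPolynomial (Fin s) k)
    (hc : ∀ l, (c l).totalDegree ≤ N) :
    ∑ l, g (c l) * a l ∈ Submodule.span k (Set.range fun p : Fin m × (Fin s → Fin (N + 1)) =>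
      g (monomial (Finsupp.equivFunOnFinite.symm fun i => (p.2 i : ℕ)) 1) * a p.1) := by
  apply Submodule.sum_mem
  intro l _
  have h1 : g (c l) * a l = ∑ d ∈ (c l).support, coeff d (c l) • (g (monomial d 1) * a l) := by
    conv_lhs => rw [(c l).as_sum]
    rw [map_sum, Finset.sum_mul]
    apply Finset.sum_congr rfl
    intro d _
    have : monomial d (coeff d (c l)) = coeff d (c l) • (monomial d (1 : k)) := by
      rw [smul_monomial, smul_eq_mul, mul_one]
    rw [this, map_smul, smul_mul_assoc]
  rw [h1]
  apply Submodule.sum_mem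
  intro d hd
  apply Submodule.smul_mem
  apply Submodule.subset_span
  refine ⟨(l, fun i => ⟨d i, ?_⟩), ?_⟩
  · have h2 := le_totalDegree hd
    have h3 : d i ≤ d.sum fun _ e => e := by
      by_cases h : i ∈ d.support
      · exact Finset.single_le_sum (f := fun i => d i) (fun _ _ => Nat.zero_le _) h
      · rw [Finsupp.notMem_support_iff.1 h]; exact Nat.zero_le _
    have := hc l
    omega
  · have : (Finsupp.equivFunOnFinite.symm fun i => d i) = d := by ext i; rfl
    simp only [this]

/-- growth of an affine algebra -/
theorem growth_upper {I : Type*} [Finite I] (J : Ideal (MvPolynomial I k)) (hJ : J ≠ ⊤) :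
    ∃ (s : ℕ), (∃ (Q : Ideal (MvPolynomial I k)) (_ : Q.IsPrime) (z : Fin s → MvPolynomial I k),
      J ≤ Q ∧ AlgebraicIndependent k (fun i => Ideal.Quotient.mk Q (z i))) ∧
      ∃ C : ℕ, ∀ n, Module.finrank k ((restrictTotalDegree I k n).map
        (Ideal.Quotient.mkₐ k J).toLinearMap) ≤ C * (n + 1) ^ s := by
  classical
  have := Fintype.ofFinite I
  have hnt : Nontrivial (MvPolynomial I k ⧸ J) := Ideal.Quotient.nontrivial_iff.2 hJ
  obtain ⟨s, g, ginj, gfin⟩ := exists_finite_inj_algHom_of_fg k (MvPolynomial I k ⧸ J)
  let alg : Algebra (MvPolynomial (Fin s) k) (MvPolynomial I k ⧸ J) := g.toRingHom.toAlgebra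
  have hfin : Module.Finite (MvPolynomial (Fin s) k) (MvPolynomial I k ⧸ J) := gfin
  have halg : ∀ c, algebraMap (MvPolynomial (Fin s) k) (MvPolynomial I k ⧸ J) c = g c := fun _ => rfl
  refine ⟨s, ?_, ?_⟩
  · -- the prime
    have hint : Algebra.IsIntegral (MvPolynomial (Fin s) k) (MvPolynomial I k ⧸ J) :=
      Algebra.IsIntegral.of_finite _ _
    obtain ⟨Q, hQ1, hQ2, hQ3⟩ := Ideal.exists_ideal_over_prime_of_isIntegral
      (⊥ : Ideal (MvPolynomial (Fin s) k)) (⊥ : Ideal (MvPolynomial I k ⧸ J)) (by
        intro c hc
        rw [Ideal.mem_comap, halg, Ideal.mem_bot] at hc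
        rw [Ideal.mem_bot]
        exact (map_eq_zero_iff g ginj).1 hc)
    choose z hz using fun i : Fin s => Ideal.Quotient.mk_surjective (g (X i))
    refine ⟨Q.comap (Ideal.Quotient.mk J), inferInstance, z, ?_, ?_⟩
    · intro c hc
      rw [Ideal.mem_comap, Ideal.Quotient.eq_zero_iff_mem.2 hc]
      exact Q.zero_mem
    · rw [algebraicIndependent_iff]
      intro P hP
      have h1 : aeval (fun i => Ideal.Quotient.mk (Q.comap (Ideal.Quotient.mk J)) (z i)) P =
          Ideal.Quotient.mk (Q.comap (Ideal.Quotient.mk J)) (aeval z P) := by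
        have h5 : (Ideal.Quotient.mkₐ k (Q.comap (Ideal.Quotient.mk J))).comp (aeval z) =
            aeval (fun i => Ideal.Quotient.mk (Q.comap (Ideal.Quotient.mk J)) (z i)) := by
          apply MvPolynomial.algHom_ext
          intro i
          rw [AlgHom.comp_apply, aeval_X, aeval_X, Ideal.Quotient.mkₐ_eq_mk]
        rw [← h5]
        rfl
      rw [h1, Ideal.Quotient.eq_zero_iff_mem, Ideal.mem_comap] at hP
      have h3 : Ideal.Quotient.mk J (aeval z P) = g P := by
        have h5 : (Ideal.Quotient.mkₐ k J).comp (aeval z) = g := by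
          apply MvPolynomial.algHom_ext
          intro i
          rw [AlgHom.comp_apply, aeval_X, Ideal.Quotient.mkₐ_eq_mk, hz]
        rw [← h5]
        rfl
      rw [h3, ← halg, ← Ideal.mem_comap, hQ3, Ideal.mem_bot] at hP
      exact hP
  · -- the growth
    obtain ⟨m, a, ha⟩ := Module.Finite.exists_fin (R := MvPolynomial (Fin s) k)
      (M := MvPolynomial I k ⧸ J)
    have hsurj : ∀ y : MvPolynomial I k ⧸ J, ∃ c : Fin m → MvPolynomial (Fin s) k,
        ∑ l, g (c l) * a l = y := by
      intro y
      have hy : y ∈ Submodule.span (MvPolynomial (Fin s) k) (Set.range a) := by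
        rw [ha]; trivial
      obtain ⟨c, hc⟩ := (Submodule.mem_span_range_iff_exists_fun _).1 hy
      exact ⟨c, by rw [← hc]; rfl⟩
    choose c hc using fun (i : I) (l : Fin m) => hsurj (Ideal.Quotient.mk J (X i) * a l)
    obtain ⟨c1, hc1⟩ := hsurj 1
    obtain ⟨e, he, he1⟩ : ∃ e : ℕ, (∀ i l l', (c i l l').totalDegree ≤ e) ∧
        ∀ l, (c1 l).totalDegree ≤ e := by
      refine ⟨(∑ i, ∑ l, ∑ l', (c i l l').totalDegree) + ∑ l, (c1 l).totalDegree, ?_, ?_⟩
      · intro i l l'
        have h1 := Finset.single_le_sum (f := fun l' => (c i l l').totalDegree)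
          (fun _ _ => Nat.zero_le _) (Finset.mem_univ l')
        have h2 := Finset.single_le_sum (f := fun l => ∑ l', (c i l l').totalDegree)
          (fun _ _ => Nat.zero_le _) (Finset.mem_univ l)
        have h3 := Finset.single_le_sum (f := fun i => ∑ l, ∑ l', (c i l l').totalDegree)
          (fun _ _ => Nat.zero_le _) (Finset.mem_univ i)
        omega
      · intro l
        have h1 := Finset.single_le_sum (f := fun l => (c1 l).totalDegree)
          (fun _ _ => Nat.zero_le _) (Finset.mem_univ l)
        omega
    -- monomials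
    have key : ∀ (n : ℕ) (d : I →₀ ℕ), d.degree = n → ∃ c' : Fin m → MvPolynomial (Fin s) k,
        (∀ l, (c' l).totalDegree ≤ e * (n + 1)) ∧
        Ideal.Quotient.mk J (monomial d 1) = ∑ l, g (c' l) * a l := by
      intro n
      induction n with
      | zero =>
        intro d hd
        have : d = 0 := (Finsupp.degree_eq_zero_iff d).1 hd
        subst this
        refine ⟨c1, fun l => (he1 l).trans (by omega), ?_⟩
        rw [hc1]
        rfl
      | succ n ih =>
        intro d hd
        obtain ⟨i, hi⟩ : ∃ i, d i ≠ 0 := by
          by_contra hcon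
          push Not at hcon
          have : d = 0 := Finsupp.ext hcon
          rw [this, map_zero] at hd
          omega
        have hd' : d = (d - Finsupp.single i 1) + Finsupp.single i 1 := by
          ext j
          simp only [Finsupp.coe_add, Finsupp.coe_tsub, Pi.add_apply, Pi.sub_apply]
          by_cases hj : i = j
          · subst hj
            simp only [Finsupp.single_eq_same]
            omega
          · rw [Finsupp.single_eq_of_ne (Ne.symm hj)]
            omega
        have hdeg : (d - Finsupp.single i 1).degree = n := by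
          have h1 := congrArg Finsupp.degree hd'
          rw [map_add, Finsupp.degree_single, hd] at h1
          omega
        obtain ⟨c', hc'1, hc'2⟩ := ih _ hdeg
        refine ⟨fun l' => ∑ l, c' l * c i l l', ?_, ?_⟩
        · intro l'
          apply (totalDegree_finsetSum _ _).trans
          apply Finset.sup_le
          intro l _
          have h1 := totalDegree_mul (c' l) (c i l l')
          have h2 := hc'1 l
          have h3 := he i l l'
          calc (c' l * c i l l').totalDegree ≤ _ := h1
            _ ≤ e * (n + 1) + e := Nat.add_le_add h2 h3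
            _ = e * (n + 1 + 1) := by ring
        · have h1 : monomial d (1 : k) = monomial (d - Finsupp.single i 1) 1 * X i := by
            conv_lhs => rw [hd']
            rw [X, monomial_mul, mul_one]
          rw [h1, map_mul, hc'2, Finset.sum_mul]
          have h2 : ∀ l, g (c' l) * a l * Ideal.Quotient.mk J (X i)
              = ∑ l', g (c' l * c i l l') * a l' := by
            intro l
            have h3 : g (c' l) * a l * Ideal.Quotient.mk J (X i)
              = g (c' l) * (Ideal.Quotient.mk J (X i) * a l) := by ring
            rw [h3, ← hc i l, Finset.mul_sum]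
            apply Finset.sum_congr rfl
            intro l' _
            rw [map_mul]
            ring
          rw [Finset.sum_congr rfl fun l _ => h2 l, Finset.sum_comm]
          apply Finset.sum_congr rfl
          intro l' _
          rw [map_sum, Finset.sum_mul]
    refine ⟨m * (e + 1) ^ s, fun n => ?_⟩
    have hle : ((restrictTotalDegree I k n).map (Ideal.Quotient.mkₐ k J).toLinearMap) ≤
        Submodule.span k (Set.range fun p : Fin m × (Fin s → Fin (e * (n + 1) + 1)) =>
          g (monomial (Finsupp.equivFunOnFinite.symm fun i => (p.2 i : ℕ)) 1) * a p.1) := by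
      rintro _ ⟨P, hP, rfl⟩
      rw [SetLike.mem_coe, mem_restrictTotalDegree] at hP
      simp only [AlgHom.toLinearMap_apply, Ideal.Quotient.mkₐ_eq_mk]
      have h1 : Ideal.Quotient.mk J P = ∑ d ∈ P.support, coeff d P • Ideal.Quotient.mk J (monomial d 1) := by
        conv_lhs => rw [P.as_sum]
        rw [map_sum]
        apply Finset.sum_congr rfl
        intro d _
        have : monomial d (coeff d P) = coeff d P • (monomial d (1 : k)) := by
          rw [smul_monomial, smul_eq_mul, mul_one]
        rw [this, ← Ideal.Quotient.mkₐ_eq_mk k, map_smul]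
      rw [h1]
      apply Submodule.sum_mem
      intro d hd
      apply Submodule.smul_mem
      obtain ⟨c', hc'1, hc'2⟩ := key _ d rfl
      rw [hc'2]
      apply slb_span g a
      intro l
      apply (hc'1 l).trans
      have h2 := le_totalDegree hd
      have h3 : d.degree ≤ n := by
        have : d.degree = d.sum fun _ e => e := by
          rw [Finsupp.degree_apply, Finsupp.sum]
        rw [this]
        omega
      exact Nat.mul_le_mul_left _ (by omega)
    have hfd : Module.Finite k (Submodule.span k (Set.range
        fun p : Fin m × (Fin s → Fin (e * (n + 1) + 1)) =>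
          g (monomial (Finsupp.equivFunOnFinite.symm fun i => (p.2 i : ℕ)) 1) * a p.1)) :=
      Module.Finite.span_of_finite k (Set.finite_range _)
    have h1 := Submodule.finrank_mono hle
    have h2 := finrank_range_le_card (R := k) (fun p : Fin m × (Fin s → Fin (e * (n + 1) + 1)) =>
          g (monomial (Finsupp.equivFunOnFinite.symm fun i => (p.2 i : ℕ)) 1) * a p.1)
    have h3 : Fintype.card (Fin m × (Fin s → Fin (e * (n + 1) + 1))) = m * (e * (n + 1) + 1) ^ s := by
      simp
    rw [h3] at h2
    have h4 : (e * (n + 1) + 1) ^ s ≤ ((e + 1) * (n + 1)) ^ s := by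
      apply Nat.pow_le_pow_left
      nlinarith
    calc _ ≤ m * (e * (n + 1) + 1) ^ s := h1.trans h2
      _ ≤ m * ((e + 1) * (n + 1)) ^ s := Nat.mul_le_mul_left _ h4
      _ = m * (e + 1) ^ s * (n + 1) ^ s := by rw [mul_pow]; ring

end

end Pool.Agent.Lib_helper56.KSS
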