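import Pool.Agent.Lib_helper56.KSS.LC

/-! Torus lemma, part 1: transcendence degrees and orders. -/

namespace Pool.Agent.Lib_helper56.KSS

open MvPolynomial Pool.Agent.KSS

section ord

variable {κ : Type} [Field κ]

theorem ordL_prod {ι : Type} (s : Finset ι) (L : ℕ) (f : ι → PowerSeries κ) :
    ordL L (∏ i ∈ s, f i) = min L (∑ i ∈ s, ordL L (f i)) := by
  classical
  apply le_antisymm
  · exact le_min (ordL_le _ _) (ordL_prod_le s L f)
  · rw [← dvd_iff_le_ordL (min_le_left _ _)]
    have h1 : (PowerSeries.X : PowerSeries κ) ^ (∑ i ∈ s, ordL L (f i)) ∣ ∏ i ∈ s, f i := by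
      rw [← Finset.prod_pow_eq_pow_sum]
      exact Finset.prod_dvd_prod_of_dvd _ _ fun i _ => ordL_dvd L (f i)
    exact (pow_dvd_pow _ (min_le_right _ _)).trans h1

theorem ordL_eq_of_dvd_add {L : ℕ} {f g : PowerSeries κ}
    (h : (PowerSeries.X : PowerSeries κ) ^ L ∣ f + g) : ordL L f = ordL L g := by
  have key : ∀ f g : PowerSeries κ, (PowerSeries.X : PowerSeries κ) ^ L ∣ f + g →
      ordL L f ≤ ordL L g := by
    intro f g h
    rw [← dvd_iff_le_ordL (ordL_le L f)]
    have h1 : (PowerSeries.X : PowerSeries κ) ^ (ordL L f) ∣ f + g :=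
      (pow_dvd_pow _ (ordL_le L f)).trans h
    exact (dvd_add_right (ordL_dvd L f)).1 h1
  exact le_antisymm (key f g h) (key g f (by rwa [add_comm]))

end ord

section coeffs

variable {k κ : Type} [Field k] [Field κ] [Algebra k κ]

/-- power series with coefficients in an intermediate field -/
def CoefIn (K0 : IntermediateField k κ) (f : PowerSeries κ) : Prop :=
  ∀ n, PowerSeries.coeff n f ∈ K0

theorem CoefIn.mul {K0 : IntermediateField k κ} {f g : PowerSeries κ} (hf : CoefIn K0 f)
    (hg : CoefIn K0 g) : CoefIn K0 (f * g) := by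
  intro n
  rw [PowerSeries.coeff_mul]
  exact sum_mem fun p _ => mul_mem (hf _) (hg _)

theorem CoefIn.one {K0 : IntermediateField k κ} : CoefIn K0 (1 : PowerSeries κ) := by
  intro n
  rw [PowerSeries.coeff_one]
  split_ifs
  · exact one_mem _
  · exact zero_mem _

theorem CoefIn.prod {K0 : IntermediateField k κ} {ι : Type} (s : Finset ι)
    (f : ι → PowerSeries κ) (hf : ∀ i ∈ s, CoefIn K0 (f i)) : CoefIn K0 (∏ i ∈ s, f i) := by
  classical
  induction s using Finset.induction_on with
  | empty => rw [Finset.prod_empty]; exact CoefIn.one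
  | insert a s ha ih =>
    rw [Finset.prod_insert ha]
    exact (hf a (Finset.mem_insert_self _ _)).mul
      (ih fun i hi => hf i (Finset.mem_insert_of_mem hi))

theorem CoefIn.add {K0 : IntermediateField k κ} {f g : PowerSeries κ} (hf : CoefIn K0 f)
    (hg : CoefIn K0 g) : CoefIn K0 (f + g) := by
  intro n
  rw [map_add]
  exact add_mem (hf n) (hg n)

theorem CoefIn.arc {K0 : IntermediateField k κ} {L : ℕ} (c : Fin L → κ) (hc : ∀ μ, c μ ∈ K0) :
    CoefIn K0 (arc c) := by
  intro n
  simp only [Pool.Agent.KSS.arc, PowerSeries.coeff_mk]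
  split_ifs with h
  · exact hc _
  · exact zero_mem _

theorem CoefIn.ev {K0 : IntermediateField k κ} {V : Type} {L : ℕ} (x : V → Fin L → κ)
    (hx : ∀ i μ, x i μ ∈ K0) (F : MvPolynomial V k) : CoefIn K0 (ev x F) := by
  induction F using MvPolynomial.induction_on with
  | C a =>
    intro n
    unfold Pool.Agent.KSS.ev
    rw [aeval_C, PowerSeries.algebraMap_apply, PowerSeries.coeff_C]
    split_ifs
    · exact K0.algebraMap_mem a
    · exact zero_mem _
  | add p q hp hq => rw [ev_add]; exact hp.add hq
  | mul_X p i hp =>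
    rw [ev_mul, ev_X]
    exact hp.mul (CoefIn.arc _ (hx i))

/-- the last factor of a product is determined by the others and the product, up to the order
of the others -/
theorem last_coeff_mem {K0 : IntermediateField k κ} {L E : ℕ} (Y g : PowerSeries κ)
    (c : Fin L → κ) (hY : CoefIn K0 Y) (hg : CoefIn K0 g) (hE : Y.order = (E : ℕ∞))
    (h : (PowerSeries.X : PowerSeries κ) ^ L ∣ Y * arc c + g) :
    ∀ (μ : ℕ) (hμ : μ < L), μ + E < L → c ⟨μ, hμ⟩ ∈ K0 := by
  intro μ
  induction μ using Nat.strong_induction_on with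
  | _ μ ih =>
    intro hμ hμE
    have h1 := (PowerSeries.X_pow_dvd_iff.1 h) (μ + E) hμE
    rw [map_add, PowerSeries.coeff_mul] at h1
    have hY0 : PowerSeries.coeff E Y ≠ 0 := by
      have := PowerSeries.coeff_order (φ := Y) (by
        intro h0
        rw [h0, PowerSeries.order_zero] at hE
        exact ENat.natCast_ne_top E hE.symm)
      rwa [hE, ENat.toNat_natCast] at this
    have h2 : ∑ p ∈ Finset.HasAntidiagonal.antidiagonal (μ + E), PowerSeries.coeff p.1 Y * PowerSeries.coeff p.2 (arc c)
        = PowerSeries.coeff E Y * c ⟨μ, hμ⟩ + ∑ p ∈ (Finset.HasAntidiagonal.antidiagonal (μ + E)).erase (E, μ),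
          PowerSeries.coeff p.1 Y * PowerSeries.coeff p.2 (arc c) := by
      rw [← Finset.add_sum_erase _ _ (show (E, μ) ∈ Finset.HasAntidiagonal.antidiagonal (μ + E) by
        rw [Finset.HasAntidiagonal.mem_antidiagonal]; exact Nat.add_comm E μ)]
      congr 2
      exact coeff_arc c ⟨μ, hμ⟩
    rw [h2] at h1
    have h3 : ∑ p ∈ (Finset.HasAntidiagonal.antidiagonal (μ + E)).erase (E, μ),
          PowerSeries.coeff p.1 Y * PowerSeries.coeff p.2 (arc c) ∈ K0 := by
      apply sum_mem
      rintro ⟨p1, p2⟩ hp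
      rw [Finset.mem_erase, Finset.HasAntidiagonal.mem_antidiagonal] at hp
      simp only at hp ⊢
      rcases lt_trichotomy p1 E with hlt | heq | hgt
      · have h4 : PowerSeries.coeff p1 Y = 0 := by
          apply PowerSeries.coeff_of_lt_order
          rw [hE]
          exact_mod_cast hlt
        rw [h4, zero_mul]
        exact zero_mem _
      · exfalso
        apply hp.1
        rw [heq] at hp ⊢
        have : p2 = μ := by omega
        rw [this]
      · have h5 : p2 < μ := by omega
        apply mul_mem (hY p1)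
        have h6 : p2 < L := by omega
        have h7 := ih p2 h5 h6 (by omega)
        rw [← coeff_arc c ⟨p2, h6⟩] at h7
        exact h7
    have h8 : c ⟨μ, hμ⟩ = (PowerSeries.coeff E Y)⁻¹ * (-(∑ p ∈ (Finset.HasAntidiagonal.antidiagonal (μ + E)).erase (E, μ),
          PowerSeries.coeff p.1 Y * PowerSeries.coeff p.2 (arc c) + PowerSeries.coeff (μ + E) g)) := by
      have h9 : PowerSeries.coeff E Y * c ⟨μ, hμ⟩ = -(∑ p ∈ (Finset.HasAntidiagonal.antidiagonal (μ + E)).erase (E, μ),
          PowerSeries.coeff p.1 Y * PowerSeries.coeff p.2 (arc c) + PowerSeries.coeff (μ + E) g) := by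
        linear_combination h1
      rw [← h9, inv_mul_cancel_left₀ hY0]
    rw [h8]
    exact mul_mem (inv_mem (hY E)) (neg_mem (add_mem h3 (hg _)))

end coeffs

section tau

variable {k κ : Type} [Field k] [Field κ] [Algebra k κ]

/-- bound for the transcendence degree by thresholds -/
theorem tauJ_threshold {V Y B : Type} [Fintype V] [Fintype Y] [Fintype B] {L : ℕ}
    (x : V → Fin L → κ) (y : Y → Fin L → κ) (x' : B → Fin L → κ) (θ : Y → ℕ)
    (hV : ∀ i, (∃ o, x i = y o) ∨ ∃ b, x i = x' b)
    (h : ∀ (o : Y) (μ : Fin L), (μ : ℕ) < θ o → y o μ ∈ (AlgebraicIndependent.matroid k κ).closure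
      ((Set.range fun p : B × Fin L => x' p.1 p.2) ∪ {a | ∃ (o' : Y) (μ' : Fin L), θ o' ≤ (μ' : ℕ) ∧
        a = y o' μ'})) :
    tauJ k x ≤ tauJ k x' + ∑ o, (L - θ o) := by
  classical
  unfold tauJ
  rw [tau_eq, tau_eq]
  have hset : {a | ∃ (o' : Y) (μ' : Fin L), θ o' ≤ (μ' : ℕ) ∧ a = y o' μ'} =
      (fun p : Y × Fin L => y p.1 p.2) '' ((Finset.univ.filter fun p : Y × Fin L => θ p.1 ≤ (p.2 : ℕ)) :
        Set (Y × Fin L)) := by
    ext a
    constructor
    · rintro ⟨o, μ, h1, rfl⟩
      exact ⟨(o, μ), by simpa using h1, rfl⟩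
    · rintro ⟨⟨o, μ⟩, h1, rfl⟩
      exact ⟨o, μ, by simpa using h1, rfl⟩
  have h1 : (AlgebraicIndependent.matroid k κ).eRk (Set.range fun p : V × Fin L => x p.1 p.2) ≤
      (AlgebraicIndependent.matroid k κ).eRk ((AlgebraicIndependent.matroid k κ).closure
        ((Set.range fun p : B × Fin L => x' p.1 p.2) ∪ {a | ∃ (o' : Y) (μ' : Fin L), θ o' ≤ (μ' : ℕ) ∧
        a = y o' μ'})) := by
    apply (AlgebraicIndependent.matroid k κ).eRk_mono
    rintro _ ⟨⟨i, μ⟩, rfl⟩
    simp only
    rcases hV i with ⟨o, ho⟩ | ⟨b, hb⟩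
    · rw [ho]
      by_cases hθ : θ o ≤ (μ : ℕ)
      · apply (AlgebraicIndependent.matroid k κ).mem_closure_of_mem _ (Set.subset_univ _)
        right
        exact ⟨o, μ, hθ, rfl⟩
      · exact h o μ (not_le.1 hθ)
    · rw [hb]
      apply (AlgebraicIndependent.matroid k κ).mem_closure_of_mem _ (Set.subset_univ _)
      left
      exact ⟨(b, μ), rfl⟩
  rw [Matroid.eRk_closure_eq] at h1
  have h2 := h1.trans ((AlgebraicIndependent.matroid k κ).eRk_union_le_eRk_add_encard _ _)
  rw [← coe_tau, ← coe_tau, hset] at h2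
  have h3 : ((fun p : Y × Fin L => y p.1 p.2) '' ((Finset.univ.filter fun p : Y × Fin L =>
      θ p.1 ≤ (p.2 : ℕ)) : Set (Y × Fin L))).encard ≤ ((∑ o, (L - θ o) : ℕ) : ℕ∞) := by
    apply (Set.encard_image_le _ _).trans
    rw [Set.encard_coe_eq_coe_finsetCard]
    apply le_of_eq
    congr 1
    rw [Finset.card_filter, Fintype.sum_prod_type]
    apply Finset.sum_congr rfl
    intro o _
    rw [← Finset.card_filter]
    have h3 : (Finset.univ.filter fun μ : Fin L => θ o ≤ (μ : ℕ)).card =
        (Finset.Ico (θ o) L).card := by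
      apply Finset.card_bij (fun (μ : Fin L) _ => (μ : ℕ))
      · intro μ hμ
        rw [Finset.mem_filter] at hμ
        exact Finset.mem_Ico.2 ⟨hμ.2, μ.2⟩
      · intro a _ b _ hab
        exact Fin.ext hab
      · intro b hb
        rw [Finset.mem_Ico] at hb
        exact ⟨⟨b, hb.2⟩, Finset.mem_filter.2 ⟨Finset.mem_univ _, hb.1⟩, rfl⟩
    rw [h3, Nat.card_Ico]
  have h4 := h2.trans (add_le_add_right h3 _)
  exact_mod_cast h4

/-- the codimension count of the torus lemma -/
theorem tau_torus {V B : Type} [Fintype V] [Fintype B] {a L : ℕ} (x : V → Fin L → κ)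
    (y : Option (Fin (a + 1)) → Fin L → κ) (x' : B → Fin L → κ)
    (hV : ∀ i, (∃ o, x i = y o) ∨ ∃ b, x i = x' b) (G : MvPolynomial B k)
    (hrel : (PowerSeries.X : PowerSeries κ) ^ L ∣ (∏ l : Fin (a + 1), arc (y (some l))) + ev x' G) :
    tauJ k x + ordL L (arc (y none)) + (∑ l : Fin (a + 1), ordL L (arc (y (some l))) - L) ≤
      tauJ k x' + (a + 1) * L := by
  classical
  -- the order of the first factors
  obtain ⟨E', hE'⟩ : ∃ E', E' = ∑ l : Fin a, ordL L (arc (y (some l.castSucc))) := ⟨_, rfl⟩
  obtain ⟨el, hel⟩ : ∃ el, el = ordL L (arc (y (some (Fin.last a)))) := ⟨_, rfl⟩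
  let θ : Option (Fin (a + 1)) → ℕ := fun o => match o with
    | none => ordL L (arc (y none))
    | some l => if l = Fin.last a then max el (L - E') else ordL L (arc (y (some l)))
  have hθ0 : θ none = ordL L (arc (y none)) := rfl
  have hθl : θ (some (Fin.last a)) = max el (L - E') := if_pos rfl
  have hθs : ∀ l : Fin a, θ (some l.castSucc) = ordL L (arc (y (some l.castSucc))) := fun l =>
    if_neg (Fin.castSucc_lt_last l).ne
  have key := tauJ_threshold (k := k) x y x' θ hV (by
    -- membership in the closure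
    obtain ⟨S, hS⟩ : ∃ S, S = ((Set.range fun p : B × Fin L => x' p.1 p.2) ∪
      {u | ∃ (o' : Option (Fin (a + 1))) (μ' : Fin L), θ o' ≤ (μ' : ℕ) ∧ u = y o' μ'}) := ⟨_, rfl⟩
    rw [← hS]
    have hcl : ∀ u ∈ S, u ∈ (AlgebraicIndependent.matroid k κ).closure S := fun u hu =>
      (AlgebraicIndependent.matroid k κ).mem_closure_of_mem hu (Set.subset_univ _)
    have hz : ∀ (o : Option (Fin (a + 1))) (μ : Fin L), (μ : ℕ) < ordL L (arc (y o)) →
        y o μ ∈ (AlgebraicIndependent.matroid k κ).closure S := by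
      intro o μ h
      rw [eq_zero_of_lt_ordL (y o) μ h]
      exact zero_mem_closure _
    have hcs : ∀ (l : Fin a) (μ : Fin L), y (some l.castSucc) μ ∈
        (AlgebraicIndependent.matroid k κ).closure S := by
      intro l μ
      by_cases h : (μ : ℕ) < ordL L (arc (y (some l.castSucc)))
      · exact hz _ _ h
      · apply hcl
        rw [hS]
        right
        exact ⟨some l.castSucc, μ, by rw [hθs]; exact not_lt.1 h, rfl⟩
    intro o μ h
    match o with
    | none => exact hz _ _ h
    | some l =>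
      rcases Fin.eq_castSucc_or_eq_last l with ⟨l', rfl⟩ | rfl
      · exact hcs l' μ
      · rw [hθl, lt_max_iff] at h
        rcases h with h | h
        · rw [hel] at h
          exact hz _ _ h
        · -- determined by the others
          have hlt : E' < L := by omega
          let K0 : IntermediateField k κ := IntermediateField.adjoin k
            ((Set.range fun p : B × Fin L => x' p.1 p.2) ∪
              Set.range fun p : Fin a × Fin L => y (some p.1.castSucc) p.2)
          have hx'K : ∀ i μ, x' i μ ∈ K0 := fun i μ =>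
            IntermediateField.subset_adjoin k _ (Or.inl ⟨(i, μ), rfl⟩)
          have hyK : ∀ (l : Fin a) μ, y (some l.castSucc) μ ∈ K0 := fun l μ =>
            IntermediateField.subset_adjoin k _ (Or.inr ⟨(l, μ), rfl⟩)
          have hord : (∏ l : Fin a, arc (y (some l.castSucc))).order = (E' : ℕ∞) := by
            have h1 := ordL_prod (Finset.univ : Finset (Fin a)) L (fun l => arc (y (some l.castSucc)))
            rw [← hE', min_eq_right hlt.le] at h1
            rw [order_eq_of_ordL_lt (L := L) (by rw [h1]; exact hlt), h1]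
          rw [Fin.prod_univ_castSucc] at hrel
          have h2 := last_coeff_mem (K0 := K0) (∏ l : Fin a, arc (y (some l.castSucc))) (ev x' G)
            (y (some (Fin.last a))) (CoefIn.prod _ _ fun l _ => CoefIn.arc _ (hyK l))
            (CoefIn.ev x' hx'K G) hord hrel μ μ.2 (by omega)
          have h3 := mem_closure_of_field (K := k) h2
          have h4 : (AlgebraicIndependent.matroid k κ).closure
              ((Set.range fun p : B × Fin L => x' p.1 p.2) ∪
              Set.range fun p : Fin a × Fin L => y (some p.1.castSucc) p.2) ⊆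
              (AlgebraicIndependent.matroid k κ).closure S := by
            apply Matroid.closure_subset_closure_of_subset_closure
            rintro u (⟨p, rfl⟩ | ⟨p, rfl⟩)
            · apply hcl
              rw [hS]
              left
              exact ⟨p, rfl⟩
            · exact hcs p.1 p.2
          exact h4 h3)
  have hsum : ∑ o, (L - θ o) = (L - ordL L (arc (y none))) + ((∑ l : Fin a,
      (L - ordL L (arc (y (some l.castSucc))))) + (L - max el (L - E'))) := by
    rw [Fintype.sum_option, Fin.sum_univ_castSucc, hθ0, hθl]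
    congr 2
    apply Finset.sum_congr rfl
    intro l _
    rw [hθs]
  have hsum2 : (∑ l : Fin a, (L - ordL L (arc (y (some l.castSucc))))) + E' = a * L := by
    rw [hE', ← Finset.sum_add_distrib]
    have : ∀ l ∈ (Finset.univ : Finset (Fin a)), (L - ordL L (arc (y (some l.castSucc)))) +
        ordL L (arc (y (some l.castSucc))) = L := fun l _ => Nat.sub_add_cancel (ordL_le _ _)
    rw [Finset.sum_congr rfl this, Finset.sum_const, Finset.card_univ, Fintype.card_fin, smul_eq_mul]
  rw [hsum] at key
  rw [Fin.sum_univ_castSucc, ← hE', ← hel]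
  have h1 := ordL_le L (arc (y none))
  have h2 : el ≤ L := by rw [hel]; exact ordL_le _ _
  have h3 : (a + 1) * L = a * L + L := by ring
  rw [h3]
  rcases le_total el (L - E') with h4 | h4
  · rw [max_eq_right h4] at key
    omega
  · rw [max_eq_left h4] at key
    omega

end tau

end Pool.Agent.Lib_helper56.KSS
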