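import Pool.Agent.Lib_helper56.KSS.T1

/-! Torus lemma, part 2: exponents and weights. -/

namespace Pool.Agent.Lib_helper56.KSS

open MvPolynomial Pool.Agent.KSS

section

set_option linter.unusedSectionVars false

variable {V : Type} [Fintype V] {a b : ℕ} (e : Fin (a + 1) ⊕ Fin b ≃ V)

/-- weights of the variables: `1` for those of `V`, `a + 1` for `z` -/
def wO (V : Type) (a : ℕ) : Option V → ℕ := fun o => o.elim (a + 1) (fun _ => 1)

/-- the embedding of the `x`-variables -/
def incl : Fin b → Option V := fun i => some (e (Sum.inr i))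

/-- the embedding of the `y`-variables and of `z` -/
def yz : Option (Fin (a + 1)) → Option V := fun o => o.map fun l => e (Sum.inl l)

theorem incl_inj : Function.Injective (incl e) := by
  intro i j h
  unfold incl at h
  have h1 := e.injective (Option.some_injective _ h)
  exact Sum.inr_injective h1

theorem weight_split (ω : Option V → ℕ) (d : Option V →₀ ℕ) :
    Finsupp.weight ω d = ∑ o : Option (Fin (a + 1)), d (yz e o) * ω (yz e o) +
      ∑ i : Fin b, d (incl e i) * ω (incl e i) := by
  rw [Finsupp.weight_apply, Finsupp.sum_fintype _ _ (by intro i; rw [zero_smul]),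
    Fintype.sum_option, Fintype.sum_option, ← e.sum_comp, Fintype.sum_sum_type]
  simp only [smul_eq_mul, yz, incl, Option.map_none, Option.map_some]
  ring

theorem weight_wO (d : Option V →₀ ℕ) :
    Finsupp.weight (wO V a) d = d none * (a + 1) + ∑ l : Fin (a + 1), d (yz e (some l)) +
      ∑ i : Fin b, d (incl e i) := by
  rw [weight_split e, Fintype.sum_option]
  simp only [wO, yz, incl, Option.map_none, Option.map_some, Option.elim_none, Option.elim_some,
    mul_one]

/-- the sum of the powers of the base -/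
def CC (a B : ℕ) : ℕ := ∑ l : Fin (a + 1), B ^ (l : ℕ)

/-- the weights of the one-parameter group -/
def ωO (B : ℕ) : Option V → ℕ := fun o => match o with
  | none => B ^ (a + 1) + (a + 1) * CC a B
  | some v => match e.symm v with
    | Sum.inl l => B ^ (l : ℕ) + if l = Fin.last a then 0 else CC a B
    | Sum.inr _ => CC a B

theorem ωO_none (B : ℕ) : ωO e B none = B ^ (a + 1) + (a + 1) * CC a B := rfl

theorem ωO_y (B : ℕ) (l : Fin (a + 1)) : ωO e B (yz e (some l)) =
    B ^ (l : ℕ) + if l = Fin.last a then 0 else CC a B := by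
  simp only [ωO, yz, Option.map_some, Equiv.symm_apply_apply]

theorem ωO_x (B : ℕ) (i : Fin b) : ωO e B (incl e i) = CC a B := by
  simp only [ωO, incl, Equiv.symm_apply_apply]

/-- the weight in terms of balanced digits -/
theorem weight_ωO (B m : ℕ) (d : Option V →₀ ℕ) (hd : Finsupp.weight (wO V a) d = m) :
    (Finsupp.weight (ωO e B) d : ℤ) = ∑ l : Fin (a + 2), (if h : (l : ℕ) < a + 1 then
      ((d (yz e (some ⟨l, h⟩)) : ℤ) - d (yz e (some (Fin.last a)))) else (d none : ℤ)) * (B : ℤ) ^ (l : ℕ)
      + CC a B * m := by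
  rw [weight_split e, Fintype.sum_option]
  have h1 : yz e none = none := rfl
  rw [h1, ωO_none, Fin.sum_univ_castSucc (n := a + 1)]
  have h2 : ∀ l : Fin (a + 1), (if h : ((l.castSucc : Fin (a + 2)) : ℕ) < a + 1 then
      ((d (yz e (some ⟨(l.castSucc : Fin (a + 2)), h⟩)) : ℤ) - d (yz e (some (Fin.last a)))) else
      (d none : ℤ)) * (B : ℤ) ^ ((l.castSucc : Fin (a + 2)) : ℕ) =
      (d (yz e (some l)) : ℤ) * (B : ℤ) ^ (l : ℕ) - (d (yz e (some (Fin.last a))) : ℤ) * (B : ℤ) ^ (l : ℕ) := by
    intro l
    rw [Fin.val_castSucc, dif_pos l.2]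
    ring
  rw [Finset.sum_congr rfl fun l _ => h2 l]
  have h3 : ¬ ((Fin.last (a + 1) : Fin (a + 2)) : ℕ) < a + 1 := by
    rw [Fin.val_last]; omega
  rw [dif_neg h3, Fin.val_last, Finset.sum_sub_distrib, ← Finset.mul_sum]
  have h4 : ∑ l : Fin (a + 1), (B : ℤ) ^ (l : ℕ) = (CC a B : ℤ) := by
    unfold CC
    push_cast
    rfl
  rw [h4]
  have h5 : ∑ l : Fin (a + 1), d (yz e (some l)) * ωO e B (yz e (some l)) =
      ∑ l : Fin (a + 1), d (yz e (some l)) * B ^ (l : ℕ) +
        (∑ l : Fin a, d (yz e (some l.castSucc))) * CC a B := by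
    rw [Fin.sum_univ_castSucc, Fin.sum_univ_castSucc (fun l => d (yz e (some l)) * B ^ (l : ℕ))]
    rw [ωO_y, if_pos rfl, add_zero]
    have : ∀ l : Fin a, d (yz e (some l.castSucc)) * ωO e B (yz e (some l.castSucc)) =
        d (yz e (some l.castSucc)) * B ^ ((l.castSucc : Fin (a + 1)) : ℕ) +
          d (yz e (some l.castSucc)) * CC a B := by
      intro l
      rw [ωO_y, if_neg (Fin.castSucc_lt_last l).ne]
      ring
    rw [Finset.sum_congr rfl fun l _ => this l, Finset.sum_add_distrib, ← Finset.sum_mul]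
    ring
  have h6 : ∑ i : Fin b, d (incl e i) * ωO e B (incl e i) = (∑ i : Fin b, d (incl e i)) * CC a B := by
    rw [Finset.sum_mul]
    apply Finset.sum_congr rfl
    intro i _
    rw [ωO_x]
  rw [h5, h6]
  rw [weight_wO e, Fin.sum_univ_castSucc] at hd
  rw [← hd]
  push_cast
  ring

/-- separation of the classes -/
theorem sep (M0 m : ℕ) (hm : m ≤ M0) (d d' : Option V →₀ ℕ)
    (hd : Finsupp.weight (wO V a) d = m) (hd' : Finsupp.weight (wO V a) d' = m)
    (h0 : ∃ l, d (yz e (some l)) = 0) (h0' : ∃ l, d' (yz e (some l)) = 0)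
    (h : Finsupp.weight (ωO e (2 * M0 + 1)) d = Finsupp.weight (ωO e (2 * M0 + 1)) d') :
    d none = d' none ∧ ∀ l, d (yz e (some l)) = d' (yz e (some l)) := by
  have hle : ∀ d : Option V →₀ ℕ, Finsupp.weight (wO V a) d = m →
      d none ≤ m ∧ ∀ l, d (yz e (some l)) ≤ m := by
    intro d hd
    rw [weight_wO e] at hd
    constructor
    · have : d none ≤ d none * (a + 1) := Nat.le_mul_of_pos_right _ (Nat.succ_pos a)
      omega
    · intro l
      have := Finset.single_le_sum (f := fun l => d (yz e (some l))) (fun _ _ => Nat.zero_le _)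
        (Finset.mem_univ l)
      omega
  have h1 := weight_ωO e (2 * M0 + 1) m d hd
  have h2 := weight_ωO e (2 * M0 + 1) m d' hd'
  have h3 := digits_zero ((2 * M0 + 1 : ℕ) : ℤ) (a + 2) (fun l => (if h : (l : ℕ) < a + 1 then
      ((d (yz e (some ⟨l, h⟩)) : ℤ) - d (yz e (some (Fin.last a)))) else (d none : ℤ)) -
      (if h : (l : ℕ) < a + 1 then
      ((d' (yz e (some ⟨l, h⟩)) : ℤ) - d' (yz e (some (Fin.last a)))) else (d' none : ℤ))) (by
    intro l
    have e1 := (hle d hd).1
    have e2 := (hle d' hd').1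
    have e3 := (hle d hd).2 (Fin.last a)
    have e4 := (hle d' hd').2 (Fin.last a)
    rw [abs_lt]
    split_ifs with h
    · have e5 := (hle d hd).2 ⟨l, h⟩
      have e6 := (hle d' hd').2 ⟨l, h⟩
      push_cast
      constructor <;> omega
    · push_cast
      constructor <;> omega) (by
    simp only [sub_mul, Finset.sum_sub_distrib]
    rw [h] at h1
    linarith)
  have h4 : d none = d' none := by
    have := h3 (Fin.last (a + 1))
    have hn : ¬ ((Fin.last (a + 1) : Fin (a + 2)) : ℕ) < a + 1 := by
      rw [Fin.val_last]; omega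
    rw [dif_neg hn, dif_neg hn] at this
    omega
  have h5 : ∀ l : Fin (a + 1), (d (yz e (some l)) : ℤ) - d (yz e (some (Fin.last a))) =
      (d' (yz e (some l)) : ℤ) - d' (yz e (some (Fin.last a))) := by
    intro l
    have := h3 l.castSucc
    have hn : ((l.castSucc : Fin (a + 2)) : ℕ) < a + 1 := by
      rw [Fin.val_castSucc]; exact l.2
    rw [dif_pos hn, dif_pos hn] at this
    exact sub_eq_zero.1 this
  obtain ⟨l0, hl0⟩ := h0
  obtain ⟨l1, hl1⟩ := h0'
  have h6 := h5 l0
  have h7 := h5 l1
  have h8 : d (yz e (some (Fin.last a))) = d' (yz e (some (Fin.last a))) := by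
    rw [hl0] at h6
    rw [hl1] at h7
    omega
  refine ⟨h4, fun l => ?_⟩
  have := h5 l
  omega

/-- exponents of weighted degree `m` -/
def Mset (V : Type) (a m : ℕ) : Set (Option V →₀ ℕ) := {d | Finsupp.weight (wO V a) d = m}

/-- those not divisible by the product of the `y` -/
def Nset (m : ℕ) : Set (Option V →₀ ℕ) :=
  {d | Finsupp.weight (wO V a) d = m ∧ ∃ l, d (yz e (some l)) = 0}

/-- exponents of weighted degree `m - (a + 1)` -/
def Mprev (V : Type) (a m : ℕ) : Set (Option V →₀ ℕ) :=
  {d | Finsupp.weight (wO V a) d + (a + 1) = m}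

theorem wO_pos (V : Type) (a : ℕ) (o : Option V) : 0 < wO V a o := by
  cases o with
  | none => exact Nat.succ_pos a
  | some v => exact one_pos

theorem Mset_finite (m : ℕ) : Finite (Mset V a m) := by
  apply Set.Finite.subset (slc_finite (wO V a) (wO_pos V a) m)
  intro d hd
  exact le_of_eq hd

theorem Nset_finite (m : ℕ) : Finite (Nset e m) := by
  apply Set.Finite.subset (slc_finite (wO V a) (wO_pos V a) m)
  intro d hd
  exact le_of_eq hd.1

theorem Mprev_finite (m : ℕ) : Finite (Mprev V a m) := by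
  apply Set.Finite.subset (slc_finite (wO V a) (wO_pos V a) m)
  intro d hd
  have : Finsupp.weight (wO V a) d + (a + 1) = m := hd
  change Finsupp.weight (wO V a) d ≤ m
  omega

open Classical in
/-- the `y, z`-part of an exponent -/
noncomputable def ypart (d0 : Option V →₀ ℕ) : Option V →₀ ℕ :=
  Finsupp.equivFunOnFinite.symm fun o => if ∃ i, o = incl e i then 0 else d0 o

theorem yz_ne_incl (o : Option (Fin (a + 1))) (i : Fin b) : yz e o ≠ incl e i := by
  intro h
  unfold yz incl at h
  cases o with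
  | none => simp at h
  | some l =>
    rw [Option.map_some] at h
    have h1 := e.injective (Option.some_injective _ h)
    simp at h1

theorem ypart_yz (d0 : Option V →₀ ℕ) (o : Option (Fin (a + 1))) :
    ypart e d0 (yz e o) = d0 (yz e o) := by
  have h : ¬ ∃ i, yz e o = incl e i := by
    rintro ⟨i, hi⟩
    exact yz_ne_incl e o i hi
  simp only [ypart, Finsupp.equivFunOnFinite_symm_apply_apply]
  exact if_neg h

theorem ypart_incl (d0 : Option V →₀ ℕ) (i : Fin b) : ypart e d0 (incl e i) = 0 := by
  have h : ∃ j, incl e i = incl e j := ⟨i, rfl⟩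
  simp only [ypart, Finsupp.equivFunOnFinite_symm_apply_apply]
  exact if_pos h

theorem cases_var (o : Option V) : (∃ o', o = yz e o') ∨ ∃ i, o = incl e i := by
  cases o with
  | none => exact Or.inl ⟨none, rfl⟩
  | some v =>
    rcases h : e.symm v with l | i
    · left
      refine ⟨some l, ?_⟩
      unfold yz
      rw [Option.map_some, ← h, Equiv.apply_symm_apply]
    · right
      refine ⟨i, ?_⟩
      unfold incl
      rw [← h, Equiv.apply_symm_apply]

/-- splitting off the `x`-part -/
theorem split_exp (d d0 : Option V →₀ ℕ) (h : ∀ o, d (yz e o) = d0 (yz e o)) :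
    d = ypart e d0 + Finsupp.mapDomain (incl e) (Finsupp.equivFunOnFinite.symm fun i => d (incl e i)) := by
  ext o
  rw [Finsupp.add_apply]
  rcases cases_var e o with ⟨o', rfl⟩ | ⟨i, rfl⟩
  · rw [ypart_yz, Finsupp.mapDomain_of_notMem_range _ _ (by
      rintro ⟨i, hi⟩
      exact yz_ne_incl e o' i hi.symm), h, add_zero]
  · rw [ypart_incl, Finsupp.mapDomain_apply (incl_inj e), zero_add]
    rfl

end

end Pool.Agent.Lib_helper56.KSS
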