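import Pool.Agent.Lib_helper56.KSS.T2

/-! Torus lemma, part 3: dimensions. -/

namespace Pool.Agent.Lib_helper56.KSS

open MvPolynomial Pool.Agent.KSS

set_option linter.unusedSectionVars false

section e1

variable {k κ V : Type} [Field k] [Field κ] [Algebra k κ] [Fintype V] {a L : ℕ}

/-- the hypersurface equation `s z - G_j` -/
noncomputable def Phi (s : k) (G : MvPolynomial V k) : MvPolynomial (Option V) k :=
  C s * X none - rename some G

theorem rename_some_homog {R V : Type} [CommRing R] {a : ℕ} {G : MvPolynomial V R} {n : ℕ}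
    (hG : G.IsHomogeneous n) :
    IsWeightedHomogeneous (wO V a) (rename some G : MvPolynomial (Option V) R) n := by
  classical
  intro d hd
  have h1 : d ∈ (rename some G : MvPolynomial (Option V) R).support := mem_support_iff.2 hd
  rw [support_rename_of_injective (Option.some_injective V), Finset.mem_image] at h1
  obtain ⟨u, hu, rfl⟩ := h1
  have h2 : Finsupp.weight (fun _ => 1 : V → ℕ) u = n := hG (mem_support_iff.1 hu)
  rw [← h2, Finsupp.weight_apply, Finsupp.weight_apply,
    Finsupp.sum_mapDomain_index (by intro; rw [zero_smul]) (by intro _ m n; rw [add_smul])]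
  rfl

theorem Phi_homog (s : k) {G : MvPolynomial V k} (hG : G.IsHomogeneous (a + 1)) :
    IsWeightedHomogeneous (wO V a) (Phi s G) (a + 1) := by
  unfold Phi
  apply IsWeightedHomogeneous.sub
  · have := (isWeightedHomogeneous_C (wO V a) s).mul (isWeightedHomogeneous_X k (wO V a) none)
    rwa [zero_add] at this
  · exact rename_some_homog hG

theorem Phi_dvd (s : k) (hs : s ≠ 0) (G : MvPolynomial V k) (x : V → Fin L → κ)
    (xt : Option V → Fin L → κ) (h1 : ∀ i, xt (some i) = x i)
    (h2 : ∀ μ : Fin L, xt none μ = algebraMap k κ s⁻¹ * PowerSeries.coeff (μ : ℕ) (ev x G)) :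
    (PowerSeries.X : PowerSeries κ) ^ L ∣ ev xt (Phi s G) := by
  rw [PowerSeries.X_pow_dvd_iff]
  intro μ hμ
  have h3 : ev xt (Phi s G) = PowerSeries.C (algebraMap k κ s) * arc (xt none) - ev x G := by
    unfold Phi
    have : (fun b => xt (some b)) = x := by funext i; exact h1 i
    rw [sub_eq_add_neg, ev_add, ev_mul, ev_X, ← this, ← ev_rename xt some G, sub_eq_add_neg]
    congr 1
    · congr 1
      unfold ev
      rw [aeval_C, PowerSeries.algebraMap_apply]
    · unfold ev
      rw [map_neg]
  rw [h3, map_sub, PowerSeries.coeff_C_mul]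
  have h4 := coeff_arc (xt none) ⟨μ, hμ⟩
  simp only at h4
  rw [h4, h2, ← mul_assoc, ← map_mul, mul_inv_cancel₀ hs, map_one, one_mul, sub_self]

/-- the generic fibre: adding the equation -/
theorem e1 (s : k) (hs : s ≠ 0) (G : MvPolynomial V k) (hG : G.IsHomogeneous (a + 1))
    (x : V → Fin L → κ) (xt : Option V → Fin L → κ) (h1 : ∀ i, xt (some i) = x i)
    (h2 : ∀ μ : Fin L, xt none μ = algebraMap k κ s⁻¹ * PowerSeries.coeff (μ : ℕ) (ev x G))
    (m l : ℕ) (hl : l ≤ L) :
    Module.finrank k (Fil k x m l) + Nat.card (Mprev V a m) ≤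
      Module.finrank k (FM k xt (Mset V a m) l) := by
  classical
  have i1 : Finite (Mset V a m) := Mset_finite m
  have i2 : Finite (Mprev V a m) := Mprev_finite m
  have i3 : Module.Finite k (FM k xt (Mset V a m) l) := FM_finite xt _ l
  have := Fintype.ofFinite (Mprev V a m)
  let τ : MvPolynomial (Option V) k →ₐ[k] MvPolynomial V k :=
    aeval (fun o : Option V => o.elim (s⁻¹ • G) X)
  have hτ : ∀ F : MvPolynomial V k, τ (rename some F) = F := by
    intro F
    change aeval _ (rename some F) = F
    rw [aeval_rename]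
    have : ((fun o : Option V => o.elim (s⁻¹ • G) X) ∘ some) = (X : V → MvPolynomial V k) := by
      funext i; rfl
    rw [this, aeval_X_left, AlgHom.id_apply]
  have hτΦ : τ (Phi s G) = 0 := by
    unfold Phi
    rw [map_sub, hτ, map_mul]
    change aeval _ (C s) * aeval _ (X none) - G = 0
    rw [aeval_C, aeval_X, Option.elim_none, MvPolynomial.algebraMap_eq, MvPolynomial.smul_eq_C_mul,
      ← mul_assoc, ← C_mul, mul_inv_cancel₀ hs, C_1, one_mul, sub_self]
  have hΦ0 : Phi s G ≠ 0 := by
    intro h
    have h3 : aeval (fun o : Option V => o.elim (s⁻¹ • G + 1) X) (Phi s G) = (C s : MvPolynomial V k) := by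
      unfold Phi
      rw [map_sub, map_mul, aeval_C, aeval_X, aeval_rename, Option.elim_none]
      have : ((fun o : Option V => o.elim (s⁻¹ • G + 1) X) ∘ some) = (X : V → MvPolynomial V k) := by
        funext i; rfl
      rw [this, aeval_X_left, AlgHom.id_apply, MvPolynomial.algebraMap_eq,
        MvPolynomial.smul_eq_C_mul, mul_add, ← mul_assoc, ← C_mul, mul_inv_cancel₀ hs, C_1, one_mul,
        mul_one, add_sub_cancel_left]
    rw [h, map_zero] at h3
    exact hs (C_injective V k (by rw [C_0]; exact h3.symm))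
  have hr := slc_rank τ.toLinearMap (FM k xt (Mset V a m) l)
  have hfW : Module.Finite k ((FM k xt (Mset V a m) l).map τ.toLinearMap) := Module.Finite.map _ _
  have hA : Module.finrank k (Fil k x m l) ≤
      Module.finrank k ((FM k xt (Mset V a m) l).map τ.toLinearMap) := by
    apply Submodule.finrank_mono
    rintro F ⟨hF1, hF2⟩
    refine ⟨rename some F, ?_, hτ F⟩
    rw [SetLike.mem_coe, mem_FM]
    refine ⟨?_, ?_⟩
    · intro d hd
      exact rename_some_homog (a := a) hF1 (mem_support_iff.1 hd)
    · rw [ev_rename]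
      have : (fun b => xt (some b)) = x := by funext i; exact h1 i
      rw [this]
      exact hF2
  have hB : Nat.card (Mprev V a m) ≤ Module.finrank k (FM k xt (Mset V a m) l ⊓
      LinearMap.ker τ.toLinearMap : Submodule k (MvPolynomial (Option V) k)) := by
    have i4 : Module.Finite k (FM k xt (Mset V a m) l ⊓
      LinearMap.ker τ.toLinearMap : Submodule k (MvPolynomial (Option V) k)) :=
      Submodule.finiteDimensional_inf_left _ _
    have hli : LinearIndependent k (fun d : Mprev V a m =>
        (monomial (d : Option V →₀ ℕ) (1 : k)) * Phi s G) := by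
      have h5 : LinearIndependent k (fun d : Mprev V a m => monomial (d : Option V →₀ ℕ) (1 : k)) :=
        (basisMonomials (Option V) k).linearIndependent.comp _ Subtype.val_injective
      have h6 := h5.map' (LinearMap.mulRight k (Phi s G)) (by
        rw [LinearMap.ker_eq_bot]
        intro P Q hPQ
        exact mul_right_cancel₀ hΦ0 hPQ)
      exact h6
    have h7 := slc_card_le (FM k xt (Mset V a m) l ⊓
      LinearMap.ker τ.toLinearMap : Submodule k (MvPolynomial (Option V) k)) _ hli (fun d => (⟨by
        rw [SetLike.mem_coe, mem_FM]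
        refine ⟨?_, ?_⟩
        · intro u hu
          have h8 := ((isWeightedHomogeneous_monomial (wO V a) (d : Option V →₀ ℕ) (1 : k) rfl).mul
            (Phi_homog s hG)) (mem_support_iff.1 hu)
          have h9 : Finsupp.weight (wO V a) (d : Option V →₀ ℕ) + (a + 1) = m := d.2
          rw [h9] at h8
          exact h8
        · rw [ev_mul]
          exact Dvd.dvd.mul_left ((pow_dvd_pow _ hl).trans (Phi_dvd s hs G x xt h1 h2)) _, by
        rw [SetLike.mem_coe, LinearMap.mem_ker, AlgHom.toLinearMap_apply, map_mul, hτΦ, mul_zero]⟩ :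
        (monomial (d : Option V →₀ ℕ) (1 : k)) * Phi s G ∈ (FM k xt (Mset V a m) l ⊓
      LinearMap.ker τ.toLinearMap : Submodule k (MvPolynomial (Option V) k))))
    rw [Nat.card_eq_fintype_card]
    exact h7
  omega

end e1

section e3

variable {k κ V : Type} [Field k] [Field κ] [Algebra k κ] [Fintype V] {a b L : ℕ}
  (e : Fin (a + 1) ⊕ Fin b ≃ V)

/-- restricting to exponents not divisible by the product of the `y` -/
theorem e3 (x1 : Option V → Fin L → κ) (m l : ℕ) :
    Module.finrank k (FM k x1 (Mset V a m) l) ≤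
      Module.finrank k (FM k x1 (Nset e m) l) + Nat.card (Mprev V a m) := by
  classical
  have i1 : Finite (Mset V a m) := Mset_finite m
  have i2 : Finite (Mprev V a m) := Mprev_finite m
  have i3 : Finite (Nset e m) := Nset_finite e m
  have i4 : Module.Finite k (FM k x1 (Mset V a m) l) := FM_finite x1 _ l
  have i5 : Module.Finite k (FM k x1 (Nset e m) l) := FM_finite x1 _ l
  let Dset : Set (Option V →₀ ℕ) := {d | d ∈ Mset V a m ∧ d ∉ Nset e m}
  have i6 : Finite Dset := Set.Finite.subset (Set.toFinite (Mset V a m)) (fun d hd => hd.1)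
  have := Fintype.ofFinite Dset
  let f : MvPolynomial (Option V) k →ₗ[k] (Dset → k) := LinearMap.pi fun d => lcoeff k (d : Option V →₀ ℕ)
  have hr := slc_rank f (FM k x1 (Mset V a m) l)
  have h1 : Module.finrank k ((FM k x1 (Mset V a m) l).map f) ≤ Nat.card Dset := by
    have h2 := Submodule.finrank_le ((FM k x1 (Mset V a m) l).map f)
    rw [Module.finrank_fintype_fun_eq_card] at h2
    rw [Nat.card_eq_fintype_card]
    exact h2
  have h3 : Module.finrank k (FM k x1 (Mset V a m) l ⊓ LinearMap.ker f :
      Submodule k (MvPolynomial (Option V) k)) ≤ Module.finrank k (FM k x1 (Nset e m) l) := by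
    apply Submodule.finrank_mono
    rintro P ⟨hP1, hP2⟩
    have hP1' := mem_FM.1 hP1
    rw [mem_FM]
    refine ⟨?_, hP1'.2⟩
    intro d hd
    by_contra hcon
    have h4 := congrFun (LinearMap.mem_ker.1 hP2) ⟨d, hP1'.1 d hd, hcon⟩
    exact (mem_support_iff.1 hd) h4
  have h4 : Nat.card Dset ≤ Nat.card (Mprev V a m) := by
    have hy : ∀ d : Dset, ∀ l, 1 ≤ (d : Option V →₀ ℕ) (yz e (some l)) := by
      intro d l
      by_contra hcon
      exact d.2.2 ⟨d.2.1, l, by omega⟩
    -- subtract one from all `y`-exponents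
    let sub : Dset → (Option V →₀ ℕ) := fun d =>
      Finsupp.equivFunOnFinite.symm fun o => (d : Option V →₀ ℕ) o - if (∃ l, o = yz e (some l)) then 1 else 0
    have hs1 : ∀ (d : Dset) l, sub d (yz e (some l)) = (d : Option V →₀ ℕ) (yz e (some l)) - 1 := by
      intro d l
      simp only [sub, Finsupp.equivFunOnFinite_symm_apply_apply]
      rw [if_pos ⟨l, rfl⟩]
    have hs2 : ∀ (d : Dset), sub d none = (d : Option V →₀ ℕ) none := by
      intro d
      simp only [sub, Finsupp.equivFunOnFinite_symm_apply_apply]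
      rw [if_neg, Nat.sub_zero]
      rintro ⟨l, hl⟩
      simp [yz] at hl
    have hs3 : ∀ (d : Dset) i, sub d (incl e i) = (d : Option V →₀ ℕ) (incl e i) := by
      intro d i
      simp only [sub, Finsupp.equivFunOnFinite_symm_apply_apply]
      rw [if_neg, Nat.sub_zero]
      rintro ⟨l, hl⟩
      exact yz_ne_incl e (some l) i hl.symm
    have hmem : ∀ d : Dset, sub d ∈ Mprev V a m := by
      intro d
      change Finsupp.weight (wO V a) (sub d) + (a + 1) = m
      have h5 : Finsupp.weight (wO V a) (d : Option V →₀ ℕ) = m := d.2.1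
      rw [weight_wO e] at h5 ⊢
      rw [hs2]
      have h6 : ∑ l : Fin (a + 1), sub d (yz e (some l)) + (a + 1) =
          ∑ l : Fin (a + 1), (d : Option V →₀ ℕ) (yz e (some l)) := by
        have h7 : ∀ l ∈ (Finset.univ : Finset (Fin (a + 1))), (d : Option V →₀ ℕ) (yz e (some l)) =
            sub d (yz e (some l)) + 1 := by
          intro l _
          rw [hs1]
          have := hy d l
          omega
        rw [Finset.sum_congr rfl h7, Finset.sum_add_distrib, Finset.sum_const, Finset.card_univ,
          Fintype.card_fin, smul_eq_mul, mul_one]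
      rw [Finset.sum_congr rfl fun i _ => hs3 d i]
      omega
    apply Nat.card_le_card_of_injective (fun d : Dset => (⟨sub d, hmem d⟩ : Mprev V a m))
    intro d d' h
    have h5 : sub d = sub d' := congrArg Subtype.val h
    apply Subtype.ext
    ext o
    rcases cases_var e o with ⟨o', rfl⟩ | ⟨i, rfl⟩
    · cases o' with
      | none =>
        have := congrArg (fun u => u none) h5
        simp only [hs2] at this
        exact this
      | some l =>
        have := congrArg (fun u => u (yz e (some l))) h5
        simp only [hs1] at this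
        have h6 := hy d l
        have h7 := hy d' l
        omega
    · have := congrArg (fun u => u (incl e i)) h5
      simp only [hs3] at this
      exact this
  omega

/-- the special torus-fixed fibre -/
theorem e5 (M0 : ℕ) {F1 F2 : Type} [Field F1] [Algebra k F1] [Field F2] [Algebra k F2]
    (x1 : Option V → Fin L → F1) (x2 : Option V → Fin L → F2)
    (hx : ∀ (P : MvPolynomial (Option V) k) (D χ : ℕ), IsWeightedHomogeneous (wO V a) P D →
        (∀ d ∈ P.support, χ ≤ Finsupp.weight (ωO e (2 * M0 + 1)) d) → ∀ l ≤ L,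
        (PowerSeries.X : PowerSeries F1) ^ l ∣ ev x1 P →
        (PowerSeries.X : PowerSeries F2) ^ l ∣ ev x2 (weightedHomogeneousComponent (ωO e (2 * M0 + 1)) χ P))
    (m l : ℕ) (hm : m ≤ M0) (hl : l ≤ L) :
    Module.finrank k (FM k x1 (Nset e m) l) ≤
      ∑ α ∈ Exps (a + 1) m, Module.finrank k (Fil k (fun i => x2 (incl e i)) (m - ∑ i, α i)
        (l - (∑ i, (α i - mina α) * ordL L (arc (x2 (yz e (some i)))) + mina α * ordL L (arc (x2 none))))) := by
  classical
  have i3 : Finite (Nset e m) := Nset_finite e m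
  have hNf : (Nset e m).Finite := i3
  obtain ⟨T, hT⟩ : ∃ T : Finset ℕ, T = hNf.toFinset.image (Finsupp.weight (ωO e (2 * M0 + 1))) := ⟨_, rfl⟩
  have h1 := FM_initial (wO V a) (ωO e (2 * M0 + 1)) x1 x2 hx (Nset e m) m (fun d hd => hd.1) l hl T
    (by
      intro d hd
      rw [hT]
      exact Finset.mem_image_of_mem _ (hNf.mem_toFinset.2 hd))
  apply h1.trans
  -- representatives
  have hrep : ∀ χ, ∃ d, χ ∈ T → d ∈ Nset e m ∧ Finsupp.weight (ωO e (2 * M0 + 1)) d = χ := by
    intro χ
    by_cases h : χ ∈ T
    · rw [hT, Finset.mem_image] at h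
      obtain ⟨d, hd, rfl⟩ := h
      exact ⟨d, fun _ => ⟨hNf.mem_toFinset.1 hd, rfl⟩⟩
    · exact ⟨0, fun h' => absurd h' h⟩
  choose D hD using hrep
  -- the exponent attached to a representative
  let ρ : (Option V →₀ ℕ) → (Fin (a + 1) → ℕ) := fun d l => d (yz e (some l)) + d none
  have hmina : ∀ d ∈ Nset e m, mina (ρ d) = d none := by
    rintro d ⟨-, l0, hl0⟩
    unfold mina
    apply le_antisymm
    · have : ρ d l0 = d none := by simp only [ρ]; rw [hl0, zero_add]
      rw [← this]
      exact ciInf_le ⟨0, by rintro _ ⟨i, rfl⟩; exact Nat.zero_le _⟩ l0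
    · apply le_ciInf
      intro i
      exact Nat.le_add_left _ _
  have hρsum : ∀ d, ∑ i, ρ d i = ∑ i, d (yz e (some i)) + (a + 1) * d none := by
    intro d
    simp only [ρ]
    rw [Finset.sum_add_distrib, Finset.sum_const, Finset.card_univ, Fintype.card_fin, smul_eq_mul]
  have hρE : ∀ d ∈ Nset e m, ρ d ∈ Exps (a + 1) m := by
    rintro d ⟨hd, -⟩
    have h2 : ∑ i, ρ d i ≤ m := by
      rw [hρsum]
      rw [weight_wO e] at hd
      have : d none * (a + 1) = (a + 1) * d none := Nat.mul_comm _ _
      omega
    unfold Exps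
    rw [Finset.mem_filter, Fintype.mem_piFinset]
    refine ⟨?_, h2⟩
    intro i
    rw [Finset.mem_range]
    have := Finset.single_le_sum (f := fun i => ρ d i) (fun _ _ => Nat.zero_le _) (Finset.mem_univ i)
    omega
  have hinj : ∀ χ ∈ T, ∀ χ' ∈ T, ρ (D χ) = ρ (D χ') → χ = χ' := by
    intro χ hχ χ' hχ' h
    have h2 := hD χ hχ
    have h3 := hD χ' hχ'
    have h4 : D χ none = D χ' none := by
      rw [← hmina _ h2.1, ← hmina _ h3.1, h]
    have h5 : ∀ l, D χ (yz e (some l)) = D χ' (yz e (some l)) := by
      intro l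
      have := congrFun h l
      simp only [ρ] at this
      omega
    have h6 : (Finsupp.weight (ωO e (2 * M0 + 1)) (D χ) : ℤ) =
        Finsupp.weight (ωO e (2 * M0 + 1)) (D χ') := by
      rw [weight_ωO e _ m _ h2.1.1, weight_ωO e _ m _ h3.1.1]
      simp only [h5, h4]
    rw [h2.2, h3.2] at h6
    exact_mod_cast h6
  -- each class
  have hclass : ∀ χ ∈ T, Module.finrank k (FM k x2 {d | d ∈ Nset e m ∧
      Finsupp.weight (ωO e (2 * M0 + 1)) d = χ} l) ≤
      Module.finrank k (Fil k (fun i => x2 (incl e i)) (m - ∑ i, ρ (D χ) i)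
        (l - (∑ i, (ρ (D χ) i - mina (ρ (D χ))) * ordL L (arc (x2 (yz e (some i)))) +
          mina (ρ (D χ)) * ordL L (arc (x2 none))))) := by
    intro χ hχ
    have h2 := hD χ hχ
    rw [Fil_eq]
    have i5 : Finite {β : Fin b →₀ ℕ | β.degree = m - ∑ i, ρ (D χ) i} := degree_finite _
    apply FM_shift x2 (incl e) (ypart e (D χ))
    · rintro d ⟨hd1, hd2⟩
      have h3 := sep e M0 m hm d (D χ) hd1.1 h2.1.1 hd1.2 h2.1.2 (hd2.trans h2.2.symm)
      have h4 : ∀ o, d (yz e o) = D χ (yz e o) := by
        intro o
        cases o with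
        | none => exact h3.1
        | some l => exact h3.2 l
      refine ⟨_, ?_, split_exp e d (D χ) h4⟩
      change Finsupp.degree _ = _
      rw [Finsupp.degree_eq_sum, hρsum]
      have h5 := hd1.1
      rw [weight_wO e] at h5
      have h6 : ∑ i : Fin b, (Finsupp.equivFunOnFinite.symm fun i => d (incl e i)) i =
          ∑ i : Fin b, d (incl e i) := rfl
      rw [h6]
      have h7 : ∑ i, D χ (yz e (some i)) = ∑ i, d (yz e (some i)) :=
        Finset.sum_congr rfl fun i _ => (h3.2 i).symm
      rw [h7, ← h3.1]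
      have : d none * (a + 1) = (a + 1) * d none := Nat.mul_comm _ _
      omega
    · intro E hE
      have h3 : ev x2 (monomial (ypart e (D χ)) 1 : MvPolynomial (Option V) k) =
          ∏ o : Option V, arc (x2 o) ^ (ypart e (D χ) o) := by
        unfold ev
        rw [aeval_monomial, map_one, one_mul, Finsupp.prod_fintype _ _ (by intro i; rw [pow_zero])]
      rw [h3] at hE
      have h4 := dvd_of_mul_prod Finset.univ (fun o => arc (x2 o)) (fun o => ypart e (D χ) o) _ hl hE
      have h5 : ∑ o : Option V, ypart e (D χ) o * ordL L (arc (x2 o)) =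
          ∑ i, (ρ (D χ) i - mina (ρ (D χ))) * ordL L (arc (x2 (yz e (some i)))) +
          mina (ρ (D χ)) * ordL L (arc (x2 none)) := by
        have h6 := weight_split e (fun o => ordL L (arc (x2 o))) (ypart e (D χ))
        rw [Finsupp.weight_apply, Finsupp.sum_fintype _ _ (by intro i; rw [zero_smul])] at h6
        simp only [smul_eq_mul] at h6
        rw [h6, Fintype.sum_option, hmina _ h2.1]
        have h7 : ∑ i : Fin b, ypart e (D χ) (incl e i) * ordL L (arc (x2 (incl e i))) = 0 := by
          apply Finset.sum_eq_zero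
          intro i _
          rw [ypart_incl, zero_mul]
        rw [h7, add_zero, add_comm]
        congr 1
        · apply Finset.sum_congr rfl
          intro i _
          rw [ypart_yz]
          simp only [ρ]
          rw [Nat.add_sub_cancel]
        · rw [ypart_yz]
          rfl
      rw [h5] at h4
      exact h4
  calc ∑ χ ∈ T, Module.finrank k (FM k x2 {d | d ∈ Nset e m ∧
      Finsupp.weight (ωO e (2 * M0 + 1)) d = χ} l)
      ≤ ∑ χ ∈ T, Module.finrank k (Fil k (fun i => x2 (incl e i)) (m - ∑ i, ρ (D χ) i)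
        (l - (∑ i, (ρ (D χ) i - mina (ρ (D χ))) * ordL L (arc (x2 (yz e (some i)))) +
          mina (ρ (D χ)) * ordL L (arc (x2 none))))) := Finset.sum_le_sum hclass
    _ = ∑ α ∈ T.image (fun χ => ρ (D χ)), Module.finrank k (Fil k (fun i => x2 (incl e i)) (m - ∑ i, α i)
        (l - (∑ i, (α i - mina α) * ordL L (arc (x2 (yz e (some i)))) +
          mina α * ordL L (arc (x2 none))))) := by
        rw [Finset.sum_image hinj]
    _ ≤ _ := by
        apply Finset.sum_le_sum_of_subset
        intro α hα
        rw [Finset.mem_image] at hα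
        obtain ⟨χ, hχ, rfl⟩ := hα
        exact hρE _ (hD χ hχ).1

end e3

end Pool.Agent.Lib_helper56.KSS
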