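import Pool.Agent.Lib_helper56.KSS.SL

/-! Initial degeneration of points (one-parameter groups). -/

namespace Pool.Agent.Lib_helper56.KSS

open MvPolynomial

universe u

section

variable {k : Type*} [Field k] {F : Type*} [Field F] [Algebra k F]

theorem ti_algInd {J : Type*} (y : J → F) (hy : AlgebraicIndependent k y) :
    AlgebraicIndependent (PowerSeries k) (fun j => (PowerSeries.C (y j) : PowerSeries F)) := by
  classical
  rw [algebraicIndependent_iff]
  intro P hP
  ext d n
  rw [coeff_zero, map_zero]
  have key : aeval y (∑ d ∈ P.support, monomial d (PowerSeries.coeff n (coeff d P))) = 0 := by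
    have h1 := congrArg (PowerSeries.coeff n) hP
    rw [map_zero, aeval_def, eval₂_eq, map_sum] at h1
    rw [map_sum]
    rw [← h1]
    apply Finset.sum_congr rfl
    intro d _
    rw [aeval_monomial, PowerSeries.algebraMap_apply'']
    have h2 : (∏ i ∈ d.support, (PowerSeries.C (y i) : PowerSeries F) ^ d i) =
        PowerSeries.C (∏ i ∈ d.support, y i ^ d i) := by
      rw [map_prod]
      apply Finset.prod_congr rfl
      intro i _
      rw [map_pow]
    rw [h2, mul_comm (PowerSeries.map _ _), PowerSeries.coeff_C_mul, PowerSeries.coeff_map,
      mul_comm]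
    rfl
  rw [algebraicIndependent_iff] at hy
  have h3 := hy _ key
  have h4 := congrArg (coeff d) h3
  rw [coeff_sum, coeff_zero] at h4
  simp only [coeff_monomial] at h4
  rw [Finset.sum_ite_eq'] at h4
  split_ifs at h4 with h5
  · exact h4
  · rw [notMem_support_iff.1 h5, map_zero]

end

theorem TI {k : Type u} [Field k] {F : Type*} [Field F] [Algebra k F] {I : Type} [Finite I]
    (w ω : I → ℕ) (hw : ∀ i, 0 < w i) (x : I → F) :
    ∃ (F0 : Type u) (_ : Field F0) (_ : Algebra k F0) (x0 : I → F0), tau k x ≤ tau k x0 ∧
      ∀ (P : MvPolynomial I k) (D χ : ℕ), IsWeightedHomogeneous w P D → aeval x P = 0 →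
        (∀ d ∈ P.support, χ ≤ Finsupp.weight ω d) →
        aeval x0 (weightedHomogeneousComponent ω χ P) = 0 := by
  classical
  let O := PowerSeries k
  let K' := FractionRing (PowerSeries k)
  let F' := FractionRing (PowerSeries F)
  have hfs : FaithfulSMul (PowerSeries k) (FractionRing (PowerSeries F)) := by
    rw [faithfulSMul_iff_algebraMap_injective]
    have h1 : (algebraMap (PowerSeries k) (FractionRing (PowerSeries F))) =
        (algebraMap (PowerSeries F) (FractionRing (PowerSeries F))).comp
          (algebraMap (PowerSeries k) (PowerSeries F)) := IsScalarTower.algebraMap_eq _ _ _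
    rw [h1]
    apply (IsFractionRing.injective (PowerSeries F) (FractionRing (PowerSeries F))).comp
    intro a b hab
    change PowerSeries.map (algebraMap k F) a = PowerSeries.map (algebraMap k F) b at hab
    ext n
    have h2 := congrArg (PowerSeries.coeff n) hab
    rw [PowerSeries.coeff_map, PowerSeries.coeff_map] at h2
    exact (algebraMap k F).injective h2
  let alg : Algebra K' F' := FractionRing.liftAlgebra (PowerSeries k) (FractionRing (PowerSeries F))
  have tow : IsScalarTower (PowerSeries k) K' F' := FractionRing.isScalarTower_liftAlgebra _ _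
  -- the embedding of F
  let e : F →+* F' := (algebraMap (PowerSeries F) (FractionRing (PowerSeries F))).comp PowerSeries.C
  have he : ∀ a : k, algebraMap K' F' (algebraMap (PowerSeries k) K' (PowerSeries.C a)) =
      e (algebraMap k F a) := by
    intro a
    rw [← IsScalarTower.algebraMap_apply (PowerSeries k) K' F',
      IsScalarTower.algebraMap_apply (PowerSeries k) (PowerSeries F) F',
      PowerSeries.algebraMap_apply'', PowerSeries.map_C]
    rfl
  let t : K' := algebraMap (PowerSeries k) K' PowerSeries.X
  have ht : t ≠ 0 := by
    intro h
    have : (PowerSeries.X : PowerSeries k) = 0 :=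
      IsFractionRing.injective (PowerSeries k) K' (by rw [map_zero]; exact h)
    exact PowerSeries.X_ne_zero this
  let x' : I → F' := fun i => algebraMap K' F' ((t ^ (ω i))⁻¹) * e (x i)
  obtain ⟨F0, i1, i2, x0, h1, h2⟩ := SL (O := PowerSeries k) (K := K') (k1 := k)
    (PowerSeries.constantCoeff (R := k)) PowerSeries.constantCoeff_surj w hw x'
  refine ⟨F0, i1, i2, x0, ?_, ?_⟩
  · apply le_trans _ h1
    obtain ⟨s, hs1, hs2⟩ := exists_tau (K := k) x
    have h3 := ti_algInd _ hs2
    have h4 : AlgebraicIndependent (PowerSeries k) (fun i : s => e (x i)) :=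
      h3.map' (f := IsScalarTower.toAlgHom (PowerSeries k) (PowerSeries F) F')
        (IsFractionRing.injective _ _)
    have h5 : AlgebraicIndependent K' (fun i : s => e (x i)) := by
      have : Algebra.IsAlgebraic (PowerSeries k) K' :=
        IsLocalization.isAlgebraic K' (nonZeroDivisors (PowerSeries k))
      exact h4.extendScalars K'
    have h6 := card_le_tau x' _ h5 (by
      intro j
      apply mem_closure_of_adjoin
      have h7 : e (x j) = (t ^ (ω j)) • x' j := by
        rw [Algebra.smul_def]
        simp only [x']
        rw [← mul_assoc, ← map_mul, mul_inv_cancel₀ (pow_ne_zero _ ht), map_one, one_mul]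
      rw [h7]
      exact Subalgebra.smul_mem _ (Algebra.subset_adjoin (Set.mem_range_self (j : I))) _)
    rw [Nat.card_eq_fintype_card, Fintype.card_coe, hs1] at h6
    exact h6
  · intro P D χ hP hx hχ
    let Pt : MvPolynomial I (PowerSeries k) := ∑ d ∈ P.support,
      monomial d (PowerSeries.C (coeff d P) * PowerSeries.X ^ (Finsupp.weight ω d - χ))
    have hcoeff : ∀ d, coeff d Pt = if d ∈ P.support then
        PowerSeries.C (coeff d P) * PowerSeries.X ^ (Finsupp.weight ω d - χ) else 0 := by
      intro d
      simp only [Pt, coeff_sum, coeff_monomial]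
      rw [Finset.sum_ite_eq']
    have hm : MvPolynomial.map (PowerSeries.constantCoeff (R := k)) Pt =
        weightedHomogeneousComponent ω χ P := by
      ext d
      rw [coeff_map, hcoeff, coeff_weightedHomogeneousComponent]
      by_cases hd : d ∈ P.support
      · rw [if_pos hd]
        by_cases hw : Finsupp.weight ω d = χ
        · rw [if_pos hw, hw, Nat.sub_self, pow_zero, mul_one, PowerSeries.constantCoeff_C]
        · rw [if_neg hw, map_mul, map_pow, PowerSeries.constantCoeff_X, zero_pow, mul_zero]
          have := hχ d hd
          omega
      · rw [if_neg hd, map_zero, notMem_support_iff.1 hd]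
        split_ifs <;> rfl
    rw [← hm]
    apply h2 Pt D
    · intro d hd
      rw [hcoeff] at hd
      split_ifs at hd with h
      · exact hP (mem_support_iff.1 h)
      · exact absurd rfl hd
    · have h8 : aeval x' (MvPolynomial.map (algebraMap (PowerSeries k) K') Pt) =
          algebraMap K' F' ((t ^ χ)⁻¹) * e (aeval x P) := by
        simp only [Pt, map_sum, map_monomial]
        conv_rhs => rw [P.as_sum]
        rw [map_sum, map_sum, Finset.mul_sum]
        apply Finset.sum_congr rfl
        intro d hd
        rw [aeval_monomial, aeval_monomial]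
        have h9 : (d.prod fun i k => x' i ^ k) =
            algebraMap K' F' ((t ^ (Finsupp.weight ω d))⁻¹) * e (d.prod fun i k => x i ^ k) := by
          simp only [x', Finsupp.prod, mul_pow, Finset.prod_mul_distrib]
          congr 1
          · simp only [← map_pow]
            rw [← map_prod]
            congr 1
            rw [Finsupp.weight_apply, Finsupp.sum, ← Finset.prod_pow_eq_pow_sum, ← Finset.prod_inv_distrib]
            apply Finset.prod_congr rfl
            intro i _
            rw [smul_eq_mul, inv_pow, ← pow_mul, mul_comm]
          · rw [map_prod]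
            apply Finset.prod_congr rfl
            intro i _
            rw [map_pow]
        rw [h9, map_mul, map_mul, he, map_pow, map_mul]
        have h10 : algebraMap K' F' (algebraMap (PowerSeries k) K' PowerSeries.X ^ (Finsupp.weight ω d - χ)) *
            algebraMap K' F' ((t ^ (Finsupp.weight ω d))⁻¹) = algebraMap K' F' ((t ^ χ)⁻¹) := by
          rw [← map_mul]
          congr 1
          change t ^ (Finsupp.weight ω d - χ) * (t ^ (Finsupp.weight ω d))⁻¹ = _
          have h11 : t ^ (Finsupp.weight ω d) = t ^ (Finsupp.weight ω d - χ) * t ^ χ := by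
            rw [← pow_add]
            congr 1
            have := hχ d hd
            omega
          rw [h11, mul_inv, ← mul_assoc, mul_inv_cancel₀ (pow_ne_zero _ ht), one_mul]
        rw [← h10]
        ring
      rw [h8, hx, map_zero, mul_zero]

end Pool.Agent.Lib_helper56.KSS
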