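import Mathlib

/-! Transcendence degree of a finite family (a natural number), via the matroid of
algebraically independent sets.  MP_2c2240_ag. -/

namespace Pool.Agent.Lib_helper56.KSS

open AlgebraicIndependent

/-- transcendence degree over `K` of the family `x` -/
noncomputable def tau (K : Type*) {F : Type*} [Field K] [Field F] [Algebra K F] {I : Type*}
    (x : I → F) : ℕ :=
  ((matroid K F).eRk (Set.range x)).toNat

section

variable {K : Type*} {F : Type*} [Field K] [Field F] [Algebra K F]

theorem coe_tau {I : Type*} [Finite I] (x : I → F) :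
    (tau K x : ℕ∞) = (matroid K F).eRk (Set.range x) := by
  unfold tau
  apply ENat.natCast_toNat
  intro h
  have h1 := (matroid K F).eRk_le_encard (Set.range x)
  rw [h, top_le_iff, Set.encard_eq_top_iff] at h1
  exact h1 (Set.finite_range x)

theorem algInd_iff {J : Type*} {y : J → F} :
    AlgebraicIndependent K y ↔ Function.Injective y ∧ (matroid K F).Indep (Set.range y) := by
  rw [matroid_indep_iff]
  constructor
  · intro h
    exact ⟨h.injective, h.coe_range⟩
  · rintro ⟨h1, h2⟩
    exact (algebraicIndependent_subtype_range h1).1 h2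

/-- algebraically independent subfamilies bound `tau` from below -/
theorem card_le_tau {I J : Type*} [Finite I] [Finite J] (x : I → F) (y : J → F)
    (hy : AlgebraicIndependent K y)
    (h : ∀ j, y j ∈ (matroid K F).closure (Set.range x)) : Nat.card J ≤ tau K x := by
  have h1 := algInd_iff.1 hy
  have h2 : (Set.range y).encard ≤ (matroid K F).eRk ((matroid K F).closure (Set.range x)) :=
    h1.2.encard_le_eRk_of_subset (by rintro _ ⟨j, rfl⟩; exact h j)
  rw [Matroid.eRk_closure_eq, ← coe_tau] at h2
  have h3 : (Set.range y).encard = (Nat.card J : ℕ∞) := by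
    rw [← Set.image_univ, h1.1.encard_image, Set.encard_univ, ENat.card_eq_coe_natCard]
  rw [h3] at h2
  exact_mod_cast h2

theorem card_le_tau' {I J : Type*} [Finite I] [Finite J] (x : I → F) (f : J → I)
    (hy : AlgebraicIndependent K (fun j => x (f j))) : Nat.card J ≤ tau K x :=
  card_le_tau x _ hy fun j => (matroid K F).mem_closure_of_mem ⟨f j, rfl⟩ (Set.subset_univ _)

/-- there is an algebraically independent subfamily of size `tau` -/
theorem exists_tau {I : Type*} [Finite I] (x : I → F) :
    ∃ s : Finset I, s.card = tau K x ∧ AlgebraicIndependent K (fun i : s => x i) := by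
  classical
  obtain ⟨B, hB⟩ := (matroid K F).exists_isBasis (Set.range x) (Set.subset_univ _)
  have hBs : B ⊆ Set.range x := hB.subset
  have hBf : B.Finite := (Set.finite_range x).subset hBs
  have : Fintype B := hBf.fintype
  choose g hg using fun b : B => hBs b.2
  have ginj : Function.Injective g := by
    intro a b hab
    apply Subtype.ext
    rw [← hg a, ← hg b, hab]
  refine ⟨Finset.univ.image g, ?_, ?_⟩
  · have h1 : (Finset.univ.image g).card = Fintype.card B := by
      rw [Finset.card_image_of_injective _ ginj, Finset.card_univ]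
    have h2 : ((Fintype.card B : ℕ) : ℕ∞) = tau K x := by
      rw [coe_tau, hB.eRk_eq_encard, ← ENat.card_coe_set_eq, ENat.card_eq_coe_fintype_card]
    rw [h1]
    exact_mod_cast h2
  · apply algInd_iff.2
    constructor
    · rintro ⟨a, ha⟩ ⟨b, hb⟩ hab
      simp only [Finset.mem_image, Finset.mem_univ, true_and] at ha hb
      obtain ⟨a', rfl⟩ := ha
      obtain ⟨b', rfl⟩ := hb
      simp only at hab
      rw [hg a', hg b'] at hab
      have := Subtype.ext hab
      subst this
      rfl
    · apply hB.indep.subset
      rintro _ ⟨⟨a, ha⟩, rfl⟩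
      simp only [Finset.mem_image, Finset.mem_univ, true_and] at ha
      obtain ⟨a', rfl⟩ := ha
      simp only
      rw [hg a']
      exact a'.2

theorem tau_le_card {I : Type*} [Finite I] (x : I → F) : tau K x ≤ Nat.card I := by
  obtain ⟨s, hs, -⟩ := exists_tau (K := K) x
  have h1 : Nat.card s ≤ Nat.card I := Nat.card_le_card_of_injective _ Subtype.val_injective
  rw [Nat.card_eq_fintype_card, Fintype.card_coe, hs] at h1
  exact h1

/-- `tau` is monotone with respect to algebraic closure -/
theorem tau_le_of_closure {I J : Type*} [Finite I] [Finite J] (x : I → F) (y : J → F)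
    (h : ∀ j, y j ∈ (matroid K F).closure (Set.range x)) : tau K y ≤ tau K x := by
  have h1 : (matroid K F).eRk (Set.range y) ≤
      (matroid K F).eRk ((matroid K F).closure (Set.range x)) :=
    (matroid K F).eRk_mono (by rintro _ ⟨j, rfl⟩; exact h j)
  rw [Matroid.eRk_closure_eq, ← coe_tau, ← coe_tau] at h1
  exact_mod_cast h1

theorem tau_comp_le {I J : Type*} [Finite I] [Finite J] (x : I → F) (f : J → I) :
    tau K (fun j => x (f j)) ≤ tau K x :=
  tau_le_of_closure _ _ fun j => (matroid K F).mem_closure_of_mem ⟨f j, rfl⟩ (Set.subset_univ _)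

theorem mem_closure_iff {s : Set F} {a : F} :
    a ∈ (matroid K F).closure s ↔ IsAlgebraic (Algebra.adjoin K s) a := by
  rw [matroid_closure_eq, SetLike.mem_coe, Subalgebra.mem_algebraicClosure]

theorem mem_closure_of_adjoin {s : Set F} {a : F} (h : a ∈ Algebra.adjoin K s) :
    a ∈ (matroid K F).closure s := by
  rw [mem_closure_iff]
  exact isAlgebraic_algebraMap (⟨a, h⟩ : Algebra.adjoin K s)

theorem mem_closure_of_field {s : Set F} {a : F} (h : a ∈ IntermediateField.adjoin K s) :
    a ∈ (matroid K F).closure s := by
  rw [mem_closure_iff]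
  rw [IntermediateField.mem_adjoin_iff_div] at h
  obtain ⟨b, hb, c, hc, rfl⟩ := h
  have h1 : IsAlgebraic (Algebra.adjoin K s) b :=
    isAlgebraic_algebraMap (⟨b, hb⟩ : Algebra.adjoin K s)
  have h2 : IsAlgebraic (Algebra.adjoin K s) c :=
    isAlgebraic_algebraMap (⟨c, hc⟩ : Algebra.adjoin K s)
  rw [div_eq_mul_inv]
  exact h1.mul h2.inv

/-- subadditivity -/
theorem tau_sum_le {I J : Type*} [Finite I] [Finite J] (x : I → F) (y : J → F) :
    tau K (Sum.elim x y) ≤ tau K x + tau K y := by
  have h := (matroid K F).eRk_union_le_eRk_add_eRk (Set.range x) (Set.range y)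
  rw [← Set.Sum.elim_range, ← coe_tau, ← coe_tau, ← coe_tau] at h
  exact_mod_cast h

end

end Pool.Agent.Lib_helper56.KSS
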