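import Pool.Agent.Lib_helper56.KSS.J3

/-! The toric base. -/

namespace Pool.Agent.Lib_helper56.KSS

open MvPolynomial Pool.Agent.KSS

theorem degree_finite {V : Type} [Finite V] (m : ℕ) : {d : V →₀ ℕ | d.degree = m}.Finite := by
  apply (slc_finite (fun _ : V => 1) (fun _ => one_pos) m).subset
  intro d hd
  rw [Set.mem_ofPred_eq, Finsupp.degree_eq_weight_one] at hd
  rw [Set.mem_ofPred_eq]
  exact hd.le

theorem hom_eq (k : Type) [Field k] (V : Type) (m : ℕ) :
    homogeneousSubmodule V k m = restrictSupport k {d : V →₀ ℕ | d.degree = m} := by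
  ext F
  rw [mem_homogeneousSubmodule, mem_restrictSupport_iff]
  constructor
  · intro h d hd
    have := h (mem_support_iff.1 hd)
    rw [Set.mem_ofPred_eq, Finsupp.degree_eq_weight_one]
    exact this
  · intro h d hd
    have := h (mem_support_iff.2 hd)
    rw [Set.mem_ofPred_eq, Finsupp.degree_eq_weight_one] at this
    exact this

theorem tor_single {k κ : Type} [Field k] [Field κ] [Algebra k κ] {V : Type} [Fintype V] {L : ℕ}
    (x : V → Fin L → κ) (d : V →₀ ℕ) (l : ℕ) (hl : l ≤ L) :
    Module.finrank k (FM k x {d} l) ≤ if l ≤ ∑ i, d i * ordL L (arc (x i)) then 1 else 0 := by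
  classical
  have hfin : Finite ({d} : Set (V →₀ ℕ)) := Set.finite_singleton d
  have hfd : Module.Finite k (restrictSupport k ({d} : Set (V →₀ ℕ))) :=
    Module.Finite.of_basis (basisRestrictSupport k _)
  split_ifs with h
  · have h1 : Module.finrank k (FM k x {d} l) ≤ Module.finrank k (restrictSupport k ({d} : Set (V →₀ ℕ))) :=
      Submodule.finrank_mono inf_le_left
    rw [slc_card] at h1
    have h2 : Nat.card ({d} : Set (V →₀ ℕ)) = 1 := Nat.card_unique
    omega
  · have h1 : FM k x {d} l = ⊥ := by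
      rw [eq_bot_iff]
      intro P hP
      have hP' := mem_FM.1 hP
      rw [Submodule.mem_bot]
      by_contra h0
      apply h
      have hsupp : P.support ⊆ {d} := by
        intro d' hd'
        have := hP'.1 d' hd'
        simpa using this
      obtain ⟨d', hd'⟩ := Finset.nonempty_iff_ne_empty.2 (fun h => h0 (support_eq_empty.1 h))
      have hdd : d' = d := by simpa using hsupp hd'
      subst hdd
      have hc : coeff d' P ≠ 0 := mem_support_iff.1 hd'
      have hP3 : P = monomial d' (coeff d' P) := by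
        conv_lhs => rw [P.as_sum]
        apply Finset.sum_eq_single_of_mem _ hd'
        intro b hb hne
        exact absurd (by simpa using hsupp hb) hne
      have h3 := hP'.2
      rw [hP3] at h3
      unfold ev at h3
      rw [aeval_monomial, mul_comm, Finsupp.prod_fintype _ _ (by intro i; rw [pow_zero])] at h3
      have h4 := dvd_of_mul_prod Finset.univ (fun i => arc (x i)) (fun i => d' i)
        (algebraMap k (PowerSeries κ) (coeff d' P)) hl h3
      rw [PowerSeries.algebraMap_apply, PowerSeries.X_pow_dvd_iff] at h4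
      by_contra h5
      have h6 := h4 0 (by omega)
      rw [PowerSeries.coeff_zero_eq_constantCoeff_apply, PowerSeries.constantCoeff_C] at h6
      exact hc ((map_eq_zero (algebraMap k κ)).1 h6)
    rw [h1, finrank_bot]

theorem sum_sym (v m : ℕ) (S : Finset (Fin v →₀ ℕ)) (hS : ∀ d, d ∈ S ↔ d.degree = m) (i : Fin v) :
    v * ∑ d ∈ S, d i = m * S.card := by
  classical
  have hsym : ∀ j, ∑ d ∈ S, d j = ∑ d ∈ S, d i := by
    intro j
    apply Finset.sum_equiv (Finsupp.domCongr (Equiv.swap i j)).toEquiv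
    · intro d
      rw [hS, hS]
      have : ((Finsupp.domCongr (Equiv.swap i j)).toEquiv d).degree = d.degree := by
        change (Finsupp.equivMapDomain (Equiv.swap i j) d).degree = _
        rw [Finsupp.degree_eq_sum, Finsupp.degree_eq_sum]
        apply Fintype.sum_equiv (Equiv.swap i j).symm
        intro a
        rw [Finsupp.equivMapDomain_apply]
      rw [this]
    · intro d _
      change d j = (Finsupp.equivMapDomain (Equiv.swap i j) d) i
      rw [Finsupp.equivMapDomain_apply, Equiv.symm_swap, Equiv.swap_apply_left]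
  have h1 : ∑ j : Fin v, ∑ d ∈ S, d j = m * S.card := by
    rw [Finset.sum_comm]
    have : ∀ d ∈ S, ∑ j : Fin v, d j = m := by
      intro d hd
      rw [← Finsupp.degree_eq_sum]
      exact (hS d).1 hd
    rw [Finset.sum_congr rfl this, Finset.sum_const, smul_eq_mul, mul_comm]
  rw [← h1, Finset.sum_congr rfl fun j _ => hsym j, Finset.sum_const, Finset.card_univ,
    Fintype.card_fin, smul_eq_mul]

/-- (TOR) the toric base: projective space is K-semistable, level by level. -/
theorem toric_base (v : ℕ) (k : Type) [Field k]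
    (κ : Type) [Field κ] [Algebra k κ] (L : ℕ) (x : Fin v → Fin L → κ) (m : ℕ) :
    (v : ℝ) * ∑ l ∈ Finset.Icc 1 L, (Module.finrank k (Fil k x m l) : ℝ)
      ≤ m * (Module.finrank k (homogeneousSubmodule (Fin v) k m) : ℝ) *
        ((v : ℝ) * L - tauJ k x) := by
  classical
  obtain ⟨ω, hω⟩ : ∃ ω : Fin v → ℕ, ω = fun i : Fin v => (m + 1) ^ (i : ℕ) := ⟨_, rfl⟩
  obtain ⟨F0, i1, i2, x0, h1, h2⟩ := TIJ (k := k) (fun _ : Fin v => 1) ω (fun _ => one_pos) x
  have hMf : {d : Fin v →₀ ℕ | d.degree = m}.Finite := degree_finite m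
  have hMf' : Finite {d : Fin v →₀ ℕ | d.degree = m} := hMf
  obtain ⟨S, hSdef⟩ : ∃ S : Finset (Fin v →₀ ℕ), S = hMf.toFinset := ⟨_, rfl⟩
  have hS : ∀ d, d ∈ S ↔ d.degree = m := by
    intro d
    rw [hSdef, Set.Finite.mem_toFinset]
    rfl
  -- injectivity of the weights
  have hinj : ∀ d, d.degree = m → ∀ d', d'.degree = m → Finsupp.weight ω d = Finsupp.weight ω d' →
      d = d' := by
    intro d hd d' hd' h
    have hle : ∀ d : Fin v →₀ ℕ, d.degree = m → ∀ i, d i ≤ m := by
      intro d hd i
      rw [← hd, Finsupp.degree_eq_sum]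
      exact Finset.single_le_sum (f := fun i => d i) (fun _ _ => Nat.zero_le _) (Finset.mem_univ i)
    have h3 := digits_zero ((m : ℤ) + 1) v (fun i => (d i : ℤ) - d' i) (by
      intro i
      have ha := hle d hd i
      have hb := hle d' hd' i
      rw [abs_lt]
      constructor <;> omega) (by
      have hw : ∀ d : Fin v →₀ ℕ, (Finsupp.weight ω d : ℤ) = ∑ i, (d i : ℤ) * ((m : ℤ) + 1) ^ (i : ℕ) := by
        intro d
        rw [Finsupp.weight_apply, Finsupp.sum_fintype _ _ (by intro i; rw [zero_smul]), hω]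
        push_cast
        simp only [smul_eq_mul]
        push_cast
        rfl
      simp only [sub_mul, Finset.sum_sub_distrib]
      rw [← hw, ← hw, h, sub_self])
    ext i
    have := h3 i
    omega
  have key : ∀ l ∈ Finset.Icc 1 L, Module.finrank k (Fil k x m l) ≤
      ∑ d ∈ S, if l ≤ ∑ i, d i * ordL L (arc (x0 i)) then 1 else 0 := by
    intro l hl
    rw [Finset.mem_Icc] at hl
    rw [Fil_eq]
    have h3 := FM_initial (fun _ : Fin v => 1) ω x x0 h2 {d : Fin v →₀ ℕ | d.degree = m} m (by
      intro d hd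
      rw [Set.mem_ofPred_eq, Finsupp.degree_eq_weight_one] at hd
      exact hd) l hl.2 (S.image (Finsupp.weight ω)) (by
      intro d hd
      exact Finset.mem_image_of_mem _ ((hS d).2 hd))
    apply h3.trans
    rw [Finset.sum_image (by
      intro d hd d' hd' h
      exact hinj d ((hS d).1 hd) d' ((hS d').1 hd') h)]
    apply Finset.sum_le_sum
    intro d hd
    have h4 : {d' : Fin v →₀ ℕ | d' ∈ {d : Fin v →₀ ℕ | d.degree = m} ∧
        Finsupp.weight ω d' = Finsupp.weight ω d} = {d} := by
      ext d'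
      constructor
      · rintro ⟨ha, hb⟩
        exact hinj d' ha d ((hS d).1 hd) hb
      · rintro rfl
        exact ⟨(hS _).1 hd, rfl⟩
    rw [h4]
    exact tor_single x0 d l hl.2
  have hcount : ∀ N : ℕ, ∑ l ∈ Finset.Icc 1 L, (if l ≤ N then 1 else 0) ≤ N := by
    intro N
    rw [← Finset.card_filter]
    have : (Finset.Icc 1 L).filter (fun l => l ≤ N) ⊆ Finset.Icc 1 N := by
      intro l hl
      rw [Finset.mem_filter, Finset.mem_Icc] at hl
      exact Finset.mem_Icc.2 ⟨hl.1.1, hl.2⟩
    have := Finset.card_le_card this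
    rw [Nat.card_Icc] at this
    omega
  have hsum : ∑ l ∈ Finset.Icc 1 L, Module.finrank k (Fil k x m l) ≤
      ∑ i, ordL L (arc (x0 i)) * ∑ d ∈ S, d i := by
    calc ∑ l ∈ Finset.Icc 1 L, Module.finrank k (Fil k x m l)
        ≤ ∑ l ∈ Finset.Icc 1 L, ∑ d ∈ S, (if l ≤ ∑ i, d i * ordL L (arc (x0 i)) then 1 else 0) :=
          Finset.sum_le_sum key
      _ = ∑ d ∈ S, ∑ l ∈ Finset.Icc 1 L, (if l ≤ ∑ i, d i * ordL L (arc (x0 i)) then 1 else 0) :=
          Finset.sum_comm
      _ ≤ ∑ d ∈ S, ∑ i, d i * ordL L (arc (x0 i)) := Finset.sum_le_sum fun d _ => hcount _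
      _ = ∑ i, ∑ d ∈ S, d i * ordL L (arc (x0 i)) := Finset.sum_comm
      _ = ∑ i, ordL L (arc (x0 i)) * ∑ d ∈ S, d i := by
          apply Finset.sum_congr rfl
          intro i _
          rw [Finset.mul_sum]
          apply Finset.sum_congr rfl
          intro d _
          ring
  have hfr : Module.finrank k (homogeneousSubmodule (Fin v) k m) = S.card := by
    rw [hom_eq, slc_card, ← Set.ncard_coe_finset, hSdef, Set.Finite.coe_toFinset]
    rfl
  have htau := tauJ_add_ord_le (k := k) x0
  rw [Fintype.card_fin] at htau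
  have hfinal : v * ∑ l ∈ Finset.Icc 1 L, Module.finrank k (Fil k x m l) ≤
      m * S.card * ∑ i, ordL L (arc (x0 i)) := by
    calc v * ∑ l ∈ Finset.Icc 1 L, Module.finrank k (Fil k x m l)
        ≤ v * ∑ i, ordL L (arc (x0 i)) * ∑ d ∈ S, d i := Nat.mul_le_mul_left _ hsum
      _ = ∑ i, ordL L (arc (x0 i)) * (v * ∑ d ∈ S, d i) := by
          rw [Finset.mul_sum]
          apply Finset.sum_congr rfl
          intro i _
          ring
      _ = ∑ i, ordL L (arc (x0 i)) * (m * S.card) := by
          apply Finset.sum_congr rfl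
          intro i _
          rw [sum_sym v m S hS i]
      _ = m * S.card * ∑ i, ordL L (arc (x0 i)) := by
          rw [Finset.mul_sum]
          apply Finset.sum_congr rfl
          intro i _
          ring
  have h5 : (∑ i, ordL L (arc (x0 i)) : ℝ) ≤ (v : ℝ) * L - tauJ k x := by
    have h6 : ∑ i, ordL L (arc (x0 i)) + tauJ k x ≤ v * L := by omega
    have h7 : ((∑ i, ordL L (arc (x0 i)) + tauJ k x : ℕ) : ℝ) ≤ ((v * L : ℕ) : ℝ) := by
      exact_mod_cast h6
    push_cast at h7
    linarith
  rw [hfr]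
  have h8 : ((v * ∑ l ∈ Finset.Icc 1 L, Module.finrank k (Fil k x m l) : ℕ) : ℝ) ≤
      ((m * S.card * ∑ i, ordL L (arc (x0 i)) : ℕ) : ℝ) := by exact_mod_cast hfinal
  push_cast at h8
  apply h8.trans
  apply mul_le_mul_of_nonneg_left h5
  positivity

end Pool.Agent.Lib_helper56.KSS
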